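import Mathlib

/-!
Quasi-kernels of remainders. A remainder is obtained by deleting closed out-neighbourhoods of
independent sets; every quasi-kernel of a remainder extends to a quasi-kernel of the whole set.
-/

namespace Pool.Agent.Lib.MP_cbd9f1_co

open Finset

variable {V : Type} [Fintype V] [DecidableEq V] (G : V → V → Prop)

def Ind (Q : Finset V) : Prop := ∀ u ∈ Q, ∀ v ∈ Q, ¬ G u v

open Classical in
noncomputable def cl (P : Finset V) : Finset V := univ.filter fun v => v ∈ P ∨ ∃ p ∈ P, G p v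

structure QK (Y Q : Finset V) : Prop where
  sub : Q ⊆ Y
  ind : Ind G Q
  dom : Y ⊆ cl G (cl G Q)

def Rem (Y Y' : Finset V) : Prop := Y' ⊆ Y ∧ ∀ Q', QK G Y' Q' → ∃ Q, Q' ⊆ Q ∧ QK G Y Q

def Cov (B A : Finset V) (t : ℕ) : Prop :=
  ∃ F : Finset (Finset V), F.card ≤ t ∧ (∀ Q ∈ F, QK G B Q) ∧ ∀ v ∈ A, ∃ Q ∈ F, v ∈ cl G Q

def Step (B Y Y' : Finset V) (t : ℕ) : Prop := Rem G Y Y' ∧ Cov G B (Y \ Y') t

variable {G}

theorem mem_cl {P : Finset V} {v : V} : v ∈ cl G P ↔ v ∈ P ∨ ∃ p ∈ P, G p v := by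
  simp [cl]

theorem subset_cl (P : Finset V) : P ⊆ cl G P := fun _ hv => mem_cl.2 (Or.inl hv)

theorem cl_mono {P P' : Finset V} (h : P ⊆ P') : cl G P ⊆ cl G P' := fun _ hv =>
  mem_cl.2 ((mem_cl.1 hv).imp (fun hv => h hv) fun ⟨p, hp, hpv⟩ => ⟨p, h hp, hpv⟩)

theorem qk_ext {Y P Q' : Finset V} (hP : Ind G P) (hPY : P ⊆ Y) (hQ : QK G (Y \ cl G P) Q') :
    ∃ Q, Q' ⊆ Q ∧ QK G Y Q ∧ P ⊆ cl G Q := by
  have hPc : P ⊆ cl G (Q' ∪ (P \ cl G Q')) := by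
    intro p hp
    by_cases h : p ∈ cl G Q'
    · exact cl_mono subset_union_left h
    · exact subset_cl _ (mem_union_right _ (mem_sdiff.2 ⟨hp, h⟩))
  refine ⟨Q' ∪ (P \ cl G Q'), subset_union_left, ⟨?_, ?_, ?_⟩, hPc⟩
  · exact union_subset (hQ.sub.trans sdiff_subset) (sdiff_subset.trans hPY)
  · intro u hu v hv huv
    rcases mem_union.1 hu with hu | hu <;> rcases mem_union.1 hv with hv | hv
    · exact hQ.ind u hu v hv huv
    · exact (mem_sdiff.1 hv).2 (mem_cl.2 (Or.inr ⟨u, hu, huv⟩))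
    · exact (mem_sdiff.1 (hQ.sub hv)).2 (mem_cl.2 (Or.inr ⟨u, (mem_sdiff.1 hu).1, huv⟩))
    · exact hP u (mem_sdiff.1 hu).1 v (mem_sdiff.1 hv).1 huv
  · intro v hv
    by_cases h : v ∈ cl G P
    · exact cl_mono hPc h
    · exact cl_mono (cl_mono subset_union_left) (hQ.dom (mem_sdiff.2 ⟨hv, h⟩))

theorem Rem.refl (Y : Finset V) : Rem G Y Y := ⟨Subset.refl _, fun Q hQ => ⟨Q, Subset.refl _, hQ⟩⟩

theorem Rem.trans {Y Y' Y'' : Finset V} (h : Rem G Y Y') (h' : Rem G Y' Y'') : Rem G Y Y'' := by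
  refine ⟨h'.1.trans h.1, fun Q'' hQ'' => ?_⟩
  obtain ⟨Q', h1, h2⟩ := h'.2 Q'' hQ''
  obtain ⟨Q, h3, h4⟩ := h.2 Q' h2
  exact ⟨Q, h1.trans h3, h4⟩

theorem rem_pick {Y P : Finset V} (hP : Ind G P) (hPY : P ⊆ Y) : Rem G Y (Y \ cl G P) :=
  ⟨sdiff_subset, fun _ hQ => by
    obtain ⟨Q, h1, h2, -⟩ := qk_ext hP hPY hQ
    exact ⟨Q, h1, h2⟩⟩

omit [Fintype V] [DecidableEq V] in
theorem ind_singleton (hG : ∀ v, ¬ G v v) (v : V) : Ind G {v} := by
  intro a ha b hb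
  rw [mem_singleton.1 ha, mem_singleton.1 hb]
  exact hG v

theorem exists_qk (hG : ∀ v, ¬ G v v) (Y : Finset V) : ∃ Q, QK G Y Q := by
  induction Y using Finset.strongInduction with
  | H Y ih =>
    rcases Y.eq_empty_or_nonempty with rfl | ⟨v, hv⟩
    · exact ⟨∅, Subset.refl _, fun _ h => absurd h (notMem_empty _), empty_subset _⟩
    · have h1 : Y \ cl G {v} ⊂ Y :=
        (ssubset_iff_of_subset sdiff_subset).2
          ⟨v, hv, fun h => (mem_sdiff.1 h).2 (subset_cl _ (mem_singleton_self v))⟩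
      obtain ⟨Q', hQ'⟩ := ih _ h1
      obtain ⟨Q, -, hQ⟩ := (rem_pick (ind_singleton hG v) (singleton_subset_iff.2 hv)).2 Q' hQ'
      exact ⟨Q, hQ⟩

/-- A quasi-kernel to which every vertex is adjacent or belongs. -/
theorem exists_max_qk (hG : ∀ v, ¬ G v v) (Y : Finset V) :
    ∃ Q, QK G Y Q ∧ ∀ v ∈ Y, v ∈ cl G Q ∨ ∃ q ∈ Q, G v q := by
  classical
  obtain ⟨Q₀, hQ₀⟩ := exists_qk hG Y
  obtain ⟨Q, hQ, hmax⟩ := exists_max_image (univ.filter fun Q => QK G Y Q) card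
    ⟨Q₀, mem_filter.2 ⟨mem_univ _, hQ₀⟩⟩
  have hQ' := (mem_filter.1 hQ).2
  refine ⟨Q, hQ', fun v hv => ?_⟩
  by_contra hc
  rw [not_or] at hc
  have hvQ : v ∉ Q := fun h => hc.1 (subset_cl _ h)
  have h1 : QK G Y (insert v Q) := by
    refine ⟨insert_subset hv hQ'.sub, ?_, hQ'.dom.trans (cl_mono (cl_mono (subset_insert _ _)))⟩
    intro a ha b hb hab
    rcases mem_insert.1 ha with ha' | ha' <;> rcases mem_insert.1 hb with hb' | hb'
    · exact hG v (by rwa [ha', hb'] at hab)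
    · exact hc.2 ⟨b, hb', by rwa [ha'] at hab⟩
    · exact hc.1 (mem_cl.2 (Or.inr ⟨a, ha', by rwa [hb'] at hab⟩))
    · exact hQ'.ind a ha' b hb' hab
  have h2 := hmax _ (mem_filter.2 ⟨mem_univ _, h1⟩)
  rw [card_insert_of_notMem hvQ] at h2
  omega

theorem Cov.mono {B A A' : Finset V} {s t : ℕ} (h : Cov G B A s) (hA : A' ⊆ A) (hst : s ≤ t) :
    Cov G B A' t := by
  obtain ⟨F, h1, h2, h3⟩ := h
  exact ⟨F, h1.trans hst, h2, fun v hv => h3 v (hA hv)⟩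

theorem Cov.union {B A A' : Finset V} {s t : ℕ} (h : Cov G B A s) (h' : Cov G B A' t) :
    Cov G B (A ∪ A') (s + t) := by
  obtain ⟨F, h1, h2, h3⟩ := h
  obtain ⟨F', h1', h2', h3'⟩ := h'
  refine ⟨F ∪ F', (card_union_le _ _).trans (add_le_add h1 h1'), fun Q hQ => ?_, fun v hv => ?_⟩
  · exact (mem_union.1 hQ).elim (h2 Q) (h2' Q)
  · rcases mem_union.1 hv with hv | hv
    · obtain ⟨Q, hQ, hv⟩ := h3 v hv
      exact ⟨Q, mem_union_left _ hQ, hv⟩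
    · obtain ⟨Q, hQ, hv⟩ := h3' v hv
      exact ⟨Q, mem_union_right _ hQ, hv⟩

theorem cov_empty (B : Finset V) : Cov G B ∅ 0 :=
  ⟨∅, le_rfl, fun _ h => absurd h (notMem_empty _), fun _ h => absurd h (notMem_empty _)⟩

theorem Cov.lift {B B' A : Finset V} {t : ℕ} (hB : Rem G B B') (h : Cov G B' A t) :
    Cov G B A t := by
  obtain ⟨F, h1, h2, h3⟩ := h
  have hx : ∀ Q' : Finset V, ∃ Q, QK G B' Q' → Q' ⊆ Q ∧ QK G B Q := fun Q' => by
    by_cases hQ : QK G B' Q'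
    · obtain ⟨Q, hQ⟩ := hB.2 Q' hQ
      exact ⟨Q, fun _ => hQ⟩
    · exact ⟨∅, fun h => absurd h hQ⟩
  choose e he using hx
  refine ⟨F.image e, card_image_le.trans h1, fun Q hQ => ?_, fun v hv => ?_⟩
  · obtain ⟨Q', hQ', rfl⟩ := mem_image.1 hQ
    exact (he Q' (h2 Q' hQ')).2
  · obtain ⟨Q', hQ', hv⟩ := h3 v hv
    exact ⟨e Q', mem_image_of_mem _ hQ', cl_mono (he Q' (h2 Q' hQ')).1 hv⟩

theorem Step.refl (B Y : Finset V) : Step G B Y Y 0 :=
  ⟨Rem.refl Y, by rw [sdiff_self]; exact cov_empty B⟩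

theorem Step.mono {B Y Y' : Finset V} {s t : ℕ} (h : Step G B Y Y' s) (hst : s ≤ t) :
    Step G B Y Y' t := ⟨h.1, h.2.mono (Subset.refl _) hst⟩

theorem Step.trans {B Y Y' Y'' : Finset V} {s t : ℕ} (h : Step G B Y Y' s)
    (h' : Step G B Y' Y'' t) : Step G B Y Y'' (s + t) := by
  refine ⟨h.1.trans h'.1, (h.2.union h'.2).mono (fun v hv => ?_) le_rfl⟩
  rw [mem_sdiff] at hv
  by_cases hv' : v ∈ Y'
  · exact mem_union_right _ (mem_sdiff.2 ⟨hv', hv.2⟩)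
  · exact mem_union_left _ (mem_sdiff.2 ⟨hv.1, hv'⟩)

theorem Step.lift {B B' Y Y' : Finset V} {t : ℕ} (hB : Rem G B B') (h : Step G B' Y Y' t) :
    Step G B Y Y' t := ⟨h.1, h.2.lift hB⟩

theorem step_pick {B Y P Q : Finset V} (hQ : QK G B Q) (hPQ : P ⊆ Q) (hPY : P ⊆ Y) :
    Step G B Y (Y \ cl G P) 1 := by
  refine ⟨rem_pick (fun u hu v hv => hQ.ind u (hPQ hu) v (hPQ hv)) hPY, {Q}, by simp,
    fun Q' hQ' => by rwa [mem_singleton.1 hQ'], fun v hv => ⟨Q, mem_singleton_self _, ?_⟩⟩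
  rw [mem_sdiff, mem_sdiff, not_and, not_not] at hv
  exact cl_mono hPQ (hv.2 hv.1)

/-- Stage 0: delete quasi-kernels with large closed out-neighbourhood. -/
theorem stage_zero {k : ℕ} (hk : 1 ≤ k) (Y : Finset V) :
    ∃ Y' t, Step G Y Y Y' t ∧ t * k ≤ Y.card ∧ ∀ Q, QK G Y' Q → (cl G Q ∩ Y').card < k := by
  induction Y using Finset.strongInduction with
  | H Y ih =>
    by_cases h : ∀ Q, QK G Y Q → (cl G Q ∩ Y).card < k
    · exact ⟨Y, 0, Step.refl _ _, by simp, h⟩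
    push Not at h
    obtain ⟨Q, hQ, hc⟩ := h
    have h1 : (Y \ cl G Q).card + (cl G Q ∩ Y).card = Y.card := by
      rw [inter_comm]; exact card_sdiff_add_card_inter _ _
    have h2 : Y \ cl G Q ⊂ Y := (ssubset_iff_subset_ne).2 ⟨sdiff_subset, fun h => by
      rw [h] at h1; omega⟩
    obtain ⟨Y', t, h3, h4, h5⟩ := ih _ h2
    have h6 := step_pick hQ (Subset.refl _) hQ.sub
    refine ⟨Y', 1 + t, h6.trans (h3.lift h6.1), ?_, h5⟩
    rw [add_mul]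
    omega

/-- Stage 1: delete large quasi-kernels; all of them are covered by one quasi-kernel. -/
theorem stage_one (hG : ∀ v, ¬ G v v) {r : ℕ} (hr : 1 ≤ r) (k : ℕ) : ∀ Y : Finset V,
    (∀ Q, QK G Y Q → (cl G Q ∩ Y).card < k) →
      ∃ Y' t, Step G Y Y Y' t ∧ t * r ≤ k ∧ ∀ Q, QK G Y' Q → Q.card < r := by
  induction k using Nat.strong_induction_on with
  | _ k ih =>
    intro Y hY
    by_cases h : ∀ Q, QK G Y Q → Q.card < r
    · exact ⟨Y, 0, Step.refl _ _, by simp, h⟩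
    push Not at h
    obtain ⟨P, hP, hc⟩ := h
    have key : ∀ Q', QK G (Y \ cl G P) Q' → (cl G Q' ∩ (Y \ cl G P)).card + r < k := by
      intro Q' hQ'
      obtain ⟨Q, h1, h2, h3⟩ := qk_ext hP.ind hP.sub hQ'
      have h4 : Disjoint (cl G Q' ∩ (Y \ cl G P)) P := disjoint_left.2 fun v hv hvP =>
        (mem_sdiff.1 (mem_inter.1 hv).2).2 (subset_cl _ hvP)
      have h5 : (cl G Q' ∩ (Y \ cl G P)) ∪ P ⊆ cl G Q ∩ Y :=
        union_subset (inter_subset_inter (cl_mono h1) sdiff_subset) (subset_inter h3 hP.sub)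
      have h6 := card_le_card h5
      rw [card_union_of_disjoint h4] at h6
      have := hY Q h2
      omega
    obtain ⟨Q₀, hQ₀⟩ := exists_qk hG (Y \ cl G P)
    have hrk := key Q₀ hQ₀
    obtain ⟨Y', t, h3, h4, h5⟩ := ih (k - r) (by omega) (Y \ cl G P) fun Q' hQ' => by
      have := key Q' hQ'
      omega
    have h6 := step_pick hP (Subset.refl _) hP.sub
    refine ⟨Y', 1 + t, h6.trans (h3.lift h6.1), ?_, h5⟩
    rw [add_mul]
    omega

end Pool.Agent.Lib.MP_cbd9f1_co
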