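import Pool.Agent.Lib.MP_cbd9f1_co.BipPeel

/-! Quasi-kernels of bipartite digraphs without short directed cycles: the upper bound and the
example. -/

namespace Pool.Agent.Lib.MP_cbd9f1_co.Bip

open Finset Classical

theorem kernel {V : Type} (G : Digraph V) (col : V → Bool)
    (hcol : ∀ u v, G.Adj u v → col u ≠ col v) (W : Finset V) :
    ∃ K ⊆ W, (∀ x ∈ K, ∀ y ∈ K, ¬ G.Adj x y) ∧ ∀ u ∈ W, u ∉ K → ∃ q ∈ K, G.Adj q u := by
  induction W using Finset.strongInduction with
  | H W ih =>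
  by_cases c : ∃ s ∈ W, ∀ u ∈ W, ¬ G.Adj u s
  · obtain ⟨s, hs, h⟩ := c
    obtain ⟨K, k1, k2, k3⟩ := ih (W.filter fun v => v ≠ s ∧ ¬ G.Adj s v)
      ⟨filter_subset _ _, fun g => (mem_filter.1 (g hs)).2.1 rfl⟩
    refine ⟨insert s K, insert_subset hs (k1.trans (filter_subset _ _)), fun x hx y hy => ?_,
      fun u hu n => ?_⟩
    · rcases mem_insert.1 hy with rfl | hy'
      · exact h x ((mem_insert.1 hx).elim (fun e => e ▸ hs) fun e => (mem_filter.1 (k1 e)).1)
      · rcases mem_insert.1 hx with rfl | hx'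
        exacts [(mem_filter.1 (k1 hy')).2.2, k2 x hx' y hy']
    · rw [mem_insert, not_or] at n
      by_cases d : G.Adj s u
      · exact ⟨s, mem_insert_self _ _, d⟩
      · obtain ⟨q, a, b⟩ := k3 u (mem_filter.2 ⟨hu, n.1, d⟩) n.2
        exact ⟨q, mem_insert_of_mem a, b⟩
  · push Not at c
    refine ⟨W.filter fun v => col v = true, filter_subset _ _, fun x hx y hy e => ?_,
      fun u hu n => ?_⟩
    · exact hcol x y e ((mem_filter.1 hx).2.trans (mem_filter.1 hy).2.symm)
    · obtain ⟨q, a, b⟩ := c u hu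
      refine ⟨q, mem_filter.2 ⟨a, ?_⟩, b⟩
      have h1 := hcol q u b
      have h2 : ¬ col u = true := fun e => n (mem_filter.2 ⟨hu, e⟩)
      revert h1 h2
      cases col q <;> cases col u <;> simp

theorem arith {j n t a b m u : ℕ} (h1 : u ≤ a) (h2 : u ≤ b) (h3 : u ≤ m) (h4 : a + b + t ≤ n)
    (h5 : (3 * j + 2) * m ≤ (j + 1) * n + j * t) : (5 * j + 2) * u ≤ (2 * j + 1) * n := by
  nlinarith [Nat.mul_le_mul_left j h1, Nat.mul_le_mul_left j h2,
    Nat.mul_le_mul_left (3 * j + 2) h3, Nat.mul_le_mul_left j h4]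

theorem upper (j : ℕ) (hj : 1 ≤ j) (V : Type) [Fintype V] (G : Digraph V) (col : V → Bool)
    (hcol : ∀ u v, G.Adj u v → col u ≠ col v) (hs : ∀ v, ∃ u, G.Adj u v)
    (hg : ∀ l, 0 < l → l < 6 * j → ∀ f : ℕ → V, (∀ i < l, G.Adj (f i) (f (i + 1))) → f l ≠ f 0) :
    ∃ Q : Finset V, (∀ u ∈ Q, ∀ v ∈ Q, ¬ G.Adj u v) ∧
      (∀ v : V, v ∉ Q → ∃ q ∈ Q, G.Adj q v ∨ ∃ w : V, G.Adj q w ∧ G.Adj w v) ∧
      (5 * j + 2) * #Q ≤ (2 * j + 1) * Fintype.card V := by
  choose p hp using hs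
  have hc : ∀ v, col (p v) = !col v := fun v => by
    have := hcol _ _ (hp v)
    revert this
    cases col (p v) <;> cases col v <;> simp
  have g : ∀ x d, 0 < d → d < 6 * j → p^[d] x ≠ x := fun x d a b e =>
    hg d a b (fun i => p^[d - i] x) (fun i h => by
      rw [show d - i = d - (i + 1) + 1 by omega, Function.iterate_succ_apply']
      exact hp _) (by simp [e])
  obtain ⟨W, -, m, -, w1, w2, w3⟩ := good hj col hc g univ ∅
  obtain ⟨K, k1, k2, k3⟩ := kernel G col hcol W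
  have km : #K ≤ m := w2 K k1 fun a ha hb => k2 _ hb _ ha (hp a)
  let X : Bool → Finset V := fun b => (univ.filter fun v => col v = b).image p
  have mX : ∀ b v, col v = b → p v ∈ X b := fun b v h => mem_image_of_mem p (by simpa using h)
  have cX : ∀ b, ∀ v ∈ X b, col v = !b := fun b v h => by
    obtain ⟨u, a, rfl⟩ := mem_image.1 h
    rw [hc, (mem_filter.1 a).2]
  have qX : ∀ b, (∀ u ∈ X b, ∀ v ∈ X b, ¬ G.Adj u v) ∧
      ∀ v : V, v ∉ X b → ∃ q ∈ X b, G.Adj q v ∨ ∃ w : V, G.Adj q w ∧ G.Adj w v := fun b => by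
    refine ⟨fun u hu v hv e => hcol u v e ((cX b u hu).trans (cX b v hv).symm), fun v _ => ?_⟩
    by_cases d : col v = b
    · exact ⟨_, mX b v d, Or.inl (hp v)⟩
    · refine ⟨_, mX b (p v) ?_, Or.inr ⟨p v, hp _, hp v⟩⟩
      rw [hc]
      revert d
      cases col v <;> cases b <;> simp
  let T := univ.filter fun v => ∀ u ∈ (univ : Finset V), p u ≠ v
  have s1 : ∑ v, wt j p univ ∅ v = (j + 1) * Fintype.card V + j * #T := by
    simp only [wt, notMem_empty, if_false, mem_univ (p _), if_true, add_zero]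
    rw [sum_add_distrib, sum_const, card_univ, smul_eq_mul, mul_comm, card_filter, mul_sum]
    congr 1
    exact sum_congr rfl fun x _ => by split_ifs <;> simp
  have s2 : #(X true) + #(X false) + #T ≤ Fintype.card V := by
    have d1 : Disjoint (X true) (X false) := disjoint_left.2 fun v a b => by
      simpa using (cX _ v a).symm.trans (cX _ v b)
    have d2 : Disjoint (X true ∪ X false) T := disjoint_left.2 fun v a b => by
      rcases mem_union.1 a with a | a <;> obtain ⟨u, -, e⟩ := mem_image.1 a <;>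
        exact (mem_filter.1 b).2 u (mem_univ u) e
    rw [← card_union_of_disjoint d1, ← card_union_of_disjoint d2]
    exact card_le_univ _
  rw [s1] at w3
  by_cases c1 : #(X true) ≤ #(X false) ∧ #(X true) ≤ m
  · exact ⟨_, (qX _).1, (qX _).2, arith le_rfl c1.1 c1.2 s2 w3⟩
  by_cases c2 : #(X false) ≤ #(X true) ∧ #(X false) ≤ m
  · exact ⟨_, (qX _).1, (qX _).2, arith c2.1 le_rfl c2.2 s2 w3⟩
  refine ⟨K, k2, fun v n => ?_, arith (by omega) (by omega) km s2 w3⟩
  rcases w1 v (mem_univ v) with a | a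
  · exact (k3 v a n).imp fun q h => ⟨h.1, Or.inl h.2⟩
  · by_cases d : p v ∈ K
    · exact ⟨_, d, Or.inl (hp v)⟩
    · exact (k3 _ a d).imp fun q h => ⟨h.1, Or.inr ⟨_, h.2, hp v⟩⟩

/-- the vertices of the example: `k` blocks (a cycle and pendant arcs) and two hubs -/
abbrev Vx (j k : ℕ) : Type := Fin k × (ZMod (6 * j + 4) ⊕ ZMod 2 × Fin j × Bool) ⊕ ZMod 2

/-- the parity of a cycle vertex -/
def par (j : ℕ) : ZMod (6 * j + 4) →+* ZMod 2 := ZMod.castHom ⟨3 * j + 2, by ring⟩ (ZMod 2)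

/-- the example -/
def ex (j k : ℕ) : Digraph (Vx j k) where
  Adj
    | .inl (i, .inl a), .inl (i', .inl b) => i = i' ∧ b = a + 1
    | .inl (_, .inl a), .inr s => par j a = s
    | .inr s, .inl (_, .inr x) => x.1 = s ∧ x.2.2 = false
    | .inl (i, .inr x), .inl (i', .inr y) =>
      i = i' ∧ x.1 = y.1 ∧ x.2.1 = y.2.1 ∧ x.2.2 = false ∧ y.2.2 = true
    | _, _ => False

/-- the two-colouring of the example -/
def exc (j k : ℕ) : Vx j k → ZMod 2
  | .inl (_, .inl a) => par j a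
  | .inl (_, .inr x) => if x.2.2 then x.1 + 1 else x.1
  | .inr s => s + 1

/-- a height that grows along every arc outside the cycles -/
def exh (j k : ℕ) : Vx j k → ℕ
  | .inl (_, .inl _) => 0
  | .inl (_, .inr x) => if x.2.2 then 3 else 2
  | .inr _ => 1

/-- the position on a cycle -/
def exp (j k : ℕ) : Vx j k → ZMod (6 * j + 4)
  | .inl (_, .inl a) => a
  | _ => 0

variable {j k : ℕ}

theorem ex_col (u v : Vx j k) (h : (ex j k).Adj u v) :
    decide (exc j k u = 0) ≠ decide (exc j k v = 0) := by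
  have e : exc j k v = exc j k u + 1 := by
    have z : ∀ s : ZMod 2, s + 1 + 1 = s := by decide
    rcases u with ⟨i, a | a⟩ | s <;> rcases v with ⟨i', b | b⟩ | t <;>
      simp only [ex, exc] at h ⊢ <;> simp [h, z]
  rw [e]
  generalize exc j k u = z
  revert z
  decide

theorem ex_src (v : Vx j (k + 1)) : ∃ u, (ex j (k + 1)).Adj u v := by
  rcases v with ⟨i, b | ⟨s, r, _ | _⟩⟩ | t
  · exact ⟨.inl (i, .inl (b - 1)), rfl, by ring⟩
  · exact ⟨.inr s, rfl, rfl⟩
  · exact ⟨.inl (i, .inr (s, r, false)), rfl, rfl, rfl, rfl, rfl⟩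
  · obtain ⟨a, h⟩ := ZMod.castHom_surjective (n := 6 * j + 4) (m := 2) ⟨3 * j + 2, by ring⟩ t
    exact ⟨.inl (0, .inl a), h⟩

theorem ex_step (u v : Vx j k) (h : (ex j k).Adj u v) : exh j k u < exh j k v ∨
    exh j k u = exh j k v ∧ exp j k v = exp j k u + 1 := by
  rcases u with ⟨i, a | a⟩ | s <;> rcases v with ⟨i', b | b⟩ | t <;>
    simp only [ex, exh, exp] at h ⊢ <;> simp [h]

theorem ex_girth (l : ℕ) (h0 : 0 < l) (hl : l < 6 * j + 4) (f : ℕ → Vx j k)
    (hf : ∀ i < l, (ex j k).Adj (f i) (f (i + 1))) : f l ≠ f 0 := fun e => by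
  have a : ∀ i ≤ l, exh j k (f 0) < exh j k (f i) ∨
      exh j k (f 0) = exh j k (f i) ∧ exp j k (f i) = exp j k (f 0) + i := fun i => by
    induction i with
    | zero => simp
    | succ i ih =>
      intro h
      rcases ih (by omega) with b | b <;> rcases ex_step _ _ (hf i h) with c | c
      · omega
      · omega
      · omega
      · exact Or.inr ⟨b.1.trans c.1, by rw [c.2, b.2]; push_cast; ring⟩
  have b := ((a l le_rfl).resolve_left (by rw [e]; omega)).2
  rw [e, left_eq_add, ZMod.natCast_eq_zero_iff] at b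
  exact absurd (Nat.le_of_dvd h0 b) (by omega)

theorem cyc_count (T : Finset (ZMod (6 * j + 4))) (h : ∀ a, a ∈ T ∨ a - 1 ∈ T ∨ a - 1 - 1 ∈ T) :
    2 * j + 2 ≤ #T ∧ ∀ s, (∀ a ∈ T, par j a ≠ s) → 3 * j + 2 ≤ #T := by
  have c1 := card_image_le (s := T) (f := fun a => a + 1)
  have c2 := card_image_le (s := T) (f := fun a => a + 1 + 1)
  have m1 : ∀ a, a - 1 ∈ T → a ∈ T.image fun a => a + 1 := fun a g =>
    mem_image.2 ⟨_, g, by ring⟩
  have cu : #(univ : Finset (ZMod (6 * j + 4))) = 6 * j + 4 := by simp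
  constructor
  · have a : univ ⊆ T ∪ (T.image (fun a => a + 1) ∪ T.image fun a => a + 1 + 1) := fun a _ => by
      simp only [mem_union]
      exact (h a).imp id (Or.imp (m1 a) fun g => mem_image.2 ⟨_, g, by ring⟩)
    have b := (card_le_card a).trans ((card_union_le _ _).trans
      (Nat.add_le_add_left (card_union_le _ _) _))
    omega
  · intro s hs
    have t : ∀ z : ZMod 2, z - 1 - 1 = z := by decide
    have t' : ∀ z s : ZMod 2, z ≠ s → z + 1 = s := by decide
    have g : ∀ a, par j a = s → a - 1 ∈ T := fun a e => by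
      rcases h a with b | b | b
      · exact absurd e (hs a b)
      · exact b
      · exact absurd (by rw [map_sub, map_sub, map_one, t, e]) (hs _ b)
    have a : univ ⊆ T ∪ T.image fun a => a + 1 := fun a _ => by
      by_cases d : par j a = s
      · exact mem_union_right _ (m1 a (g a d))
      · exact mem_union_left _ (by simpa using g (a + 1) (by rw [map_add, map_one, t' _ _ d]))
    have b := (card_le_card a).trans (card_union_le _ _)
    omega

theorem lower (Q : Finset (Vx j k)) (h1 : ∀ u ∈ Q, ∀ v ∈ Q, ¬ (ex j k).Adj u v)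
    (h2 : ∀ v, v ∉ Q → ∃ q ∈ Q, (ex j k).Adj q v ∨ ∃ w, (ex j k).Adj q w ∧ (ex j k).Adj w v) :
    k * (4 * j + 2) ≤ #Q := by
  obtain ⟨χ, e, x1, x0⟩ : ∃ χ : Vx j k → ℕ, #Q = ∑ v, χ v ∧ (∀ v ∈ Q, χ v = 1) ∧
      ∀ v ∉ Q, χ v = 0 :=
    ⟨fun v => if v ∈ Q then 1 else 0, by simp, fun v h => if_pos h, fun v h => if_neg h⟩
  have cov : ∀ z u v : Vx j k, (∀ w, (ex j k).Adj w z → w = u) →
      (∀ w, (ex j k).Adj w u → w = v) → z ∈ Q ∨ u ∈ Q ∨ v ∈ Q := fun z u v a b => by
    by_cases d : z ∈ Q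
    · exact Or.inl d
    · obtain ⟨q, hq, g | ⟨w, g, g'⟩⟩ := h2 _ d
      · exact Or.inr (Or.inl (a q g ▸ hq))
      · exact Or.inr (Or.inr (b q (a w g' ▸ g) ▸ hq))
  have p1 : ∀ i a, ∀ w, (ex j k).Adj w (.inl (i, .inl a)) → w = .inl (i, .inl (a - 1)) := by
    rintro i a (⟨i', b | b⟩ | s) h <;> simp only [ex] at h
    simp [h]
  have p2 : ∀ i s r, ∀ w, (ex j k).Adj w (.inl (i, .inr (s, r, true))) →
      w = .inl (i, .inr (s, r, false)) := by
    rintro i s r (⟨i', b | ⟨a, b, c⟩⟩ | t) h <;> simp only [ex] at h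
    · simp [h]
    · simp at h
  have p3 : ∀ i s r, ∀ w, (ex j k).Adj w (.inl (i, .inr (s, r, false))) → w = .inr s := by
    rintro i s r (⟨i', b | ⟨a, b, c⟩⟩ | t) h <;> simp only [ex] at h
    · simp at h
    · simp [h]
  have b : ∀ i : Fin k, 4 * j + 2 ≤ ∑ a, χ (Sum.inl (i, a)) := by
    intro i
    obtain ⟨c1, c2⟩ := cyc_count (univ.filter fun a => (Sum.inl (i, .inl a) : Vx j k) ∈ Q)
      fun a => by simpa using cov _ _ _ (p1 i a) (p1 i (a - 1))
    have c3 : ∀ s, Sum.inr s ∈ Q → ∀ a ∈ univ.filter fun a => (Sum.inl (i, .inl a) : Vx j k) ∈ Q,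
        par j a ≠ s := fun s g a h => h1 _ (mem_filter.1 h).2 _ g
    have c4 : ∀ s, Sum.inr s ∉ Q → j ≤ ∑ x : Fin j × Bool, χ (Sum.inl (i, .inr (s, x))) := by
      intro s g
      rw [Fintype.sum_prod_type]
      refine le_trans (by simp) (card_nsmul_le_sum univ _ 1 fun r _ => ?_)
      rw [Fintype.sum_bool]
      rcases cov _ _ _ (p2 i s r) (p3 i s r) with d | d | d
      · rw [x1 _ d]
        omega
      · rw [x1 _ d]
        omega
      · exact absurd d g
    have z : ∀ s : ZMod 2, s = 0 ∨ s = 1 := by decide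
    have c0 : ∑ a, χ (Sum.inl (i, .inl a)) =
        #(univ.filter fun a => (Sum.inl (i, .inl a) : Vx j k) ∈ Q) := by
      rw [card_filter]
      refine sum_congr rfl fun a _ => ?_
      split_ifs with h
      exacts [x1 _ h, x0 _ h]
    rw [Fintype.sum_sum_type, Fintype.sum_prod_type, c0,
      show (univ : Finset (ZMod 2)) = {0, 1} by decide, sum_pair (by decide)]
    by_cases d0 : (Sum.inr 0 : Vx j k) ∈ Q <;> by_cases d1 : (Sum.inr 1 : Vx j k) ∈ Q
    · obtain ⟨a, h⟩ := card_pos.1 (lt_of_lt_of_le (by omega) c1)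
      exact ((z _).elim (c3 0 d0 a h) (c3 1 d1 a h)).elim
    · have := c2 0 (c3 0 d0)
      have := c4 1 d1
      omega
    · have := c2 1 (c3 1 d1)
      have := c4 0 d0
      omega
    · have := c4 0 d0
      have := c4 1 d1
      omega
  rw [e, Fintype.sum_sum_type, Fintype.sum_prod_type]
  refine le_add_right ?_
  simpa using card_nsmul_le_sum univ _ _ fun i _ => b i

theorem card_Vx : Fintype.card (Vx j k) = k * (10 * j + 4) + 2 := by
  simp
  left
  ring

end Pool.Agent.Lib.MP_cbd9f1_co.Bip
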