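import Mathlib

/-! Peeling a parent map: a dominating set of small independence number. -/

namespace Pool.Agent.Lib.MP_cbd9f1_co.Bip

open Finset Classical

variable {V : Type} (j : ℕ) (p : V → V)

/-- every subset of `W` without a vertex and its parent has at most `k` elements -/
def Al (W : Finset V) (k : ℕ) : Prop := ∀ I ⊆ W, (∀ a ∈ I, p a ∉ I) → #I ≤ k

/-- the weight of a vertex: marked, or counted with the leaf and root terms -/
noncomputable def wt (S F : Finset V) (v : V) : ℕ :=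
  if v ∈ F then 3 * j + 2
  else j + 1 + (if ∀ u ∈ S, p u ≠ v then j else 0) + (if p v ∈ S then 0 else j + 1)

/-- the induction claim -/
def Good (S F : Finset V) : Prop :=
  ∃ W ⊆ S, ∃ m : ℕ, (∀ v ∈ S, v ∈ F → v ∈ W) ∧ (∀ v ∈ S, v ∈ W ∨ p v ∈ W) ∧ Al p W m ∧
    (3 * j + 2) * m ≤ ∑ v ∈ S, wt j p S F v

variable {j p}

theorem al_union {W W' : Finset V} {k k' : ℕ} (h : Al p W k) (h' : Al p W' k') :
    Al p (W ∪ W') (k + k') := fun I hI hi => by
  have e : I = I ∩ W ∪ I ∩ W' := by rw [← inter_union_distrib_left, inter_eq_left.2 hI]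
  have a := h (I ∩ W) inter_subset_right fun a ha hb => hi a (mem_inter.1 ha).1 (mem_inter.1 hb).1
  have b := h' (I ∩ W') inter_subset_right fun a ha hb =>
    hi a (mem_inter.1 ha).1 (mem_inter.1 hb).1
  have c := card_union_le (I ∩ W) (I ∩ W')
  rw [← e] at c
  omega

theorem al_single (a : V) : Al p {a} 1 := fun _ hI _ => by simpa using card_le_card hI

theorem al_pair (a : V) : Al p {a, p a} 1 := fun I hI hi => by
  refine card_le_one.2 fun x hx y hy => ?_
  have h1 := hI hx
  have h2 := hI hy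
  simp only [mem_insert, mem_singleton] at h1 h2
  rcases h1 with rfl | rfl <;> rcases h2 with h2 | h2
  · exact h2.symm
  · exact absurd (h2 ▸ hy) (hi _ hx)
  · exact absurd hx (hi _ (h2 ▸ hy))
  · exact h2.symm

theorem le_wt (S F : Finset V) (v : V) : j + 1 ≤ wt j p S F v := by
  unfold wt
  split_ifs <;> omega

theorem wt_mem {F : Finset V} {v : V} (h : v ∈ F) (S : Finset V) : wt j p S F v = 3 * j + 2 :=
  if_pos h

theorem step {S F : Finset V} (R W0 A B : Finset V) (k : ℕ) (hR : R ⊆ S) (hW : W0 ⊆ R)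
    (hF : ∀ v ∈ R, v ∈ F → v ∈ W0) (hc : ∀ v ∈ R, v ∈ W0 ∨ p v ∈ W0) (hk : Al p W0 k)
    (hA : ∀ r ∈ R, p r ∈ S → p r ∉ R → (∀ u ∈ S, p u = p r → u ∈ R) → p r ∈ A)
    (hB : ∀ v ∈ S, v ∉ R → v ∉ F → p v ∈ R → v ∈ B)
    (hw : (3 * j + 2) * k + #A * j + #B * (j + 1) ≤ ∑ v ∈ R, wt j p S F v)
    (h : Good j p (S \ R) F) : Good j p S F := by
  obtain ⟨W, h1, m, h2, h3, h4, h5⟩ := h
  refine ⟨W0 ∪ W, union_subset (hW.trans hR) (h1.trans sdiff_subset), k + m, fun v hv hf => ?_,
    fun v hv => ?_, al_union hk h4, ?_⟩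
  · by_cases c : v ∈ R
    · exact mem_union_left _ (hF v c hf)
    · exact mem_union_right _ (h2 v (mem_sdiff.2 ⟨hv, c⟩) hf)
  · by_cases c : v ∈ R
    · exact (hc v c).imp (mem_union_left _) (mem_union_left _)
    · exact (h3 v (mem_sdiff.2 ⟨hv, c⟩)).imp (mem_union_right _) (mem_union_right _)
  · have k1 : ∀ v ∈ S \ R, wt j p (S \ R) F v ≤
        wt j p S F v + (if v ∈ A then j else 0) + (if v ∈ B then j + 1 else 0) := by
      intro v hv
      obtain ⟨v1, v2⟩ := mem_sdiff.1 hv
      unfold wt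
      by_cases c : v ∈ F
      · rw [if_pos c, if_pos c]
        omega
      have a1 : (∀ u ∈ S \ R, p u ≠ v) → (∀ u ∈ S, p u ≠ v) ∨ v ∈ A := fun l => by
        by_contra n
        push Not at n
        obtain ⟨⟨u, u1, rfl⟩, n⟩ := n
        have g : ∀ w ∈ S, p w = p u → w ∈ R := fun w w1 w2 => by
          by_contra w3
          exact l w (mem_sdiff.2 ⟨w1, w3⟩) w2
        exact n (hA u (g u u1 rfl) v1 v2 g)
      have a2 : p v ∈ S → p v ∈ S \ R ∨ v ∈ B := fun l => by
        by_cases d : p v ∈ R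
        · exact Or.inr (hB v v1 v2 c d)
        · exact Or.inl (mem_sdiff.2 ⟨l, d⟩)
      rw [if_neg c, if_neg c]
      split_ifs <;> first | omega | tauto
    have k2 := sum_le_sum k1
    rw [sum_add_distrib, sum_add_distrib, ← sum_filter, ← sum_filter, sum_const, sum_const,
      smul_eq_mul, smul_eq_mul] at k2
    have k3 : #((S \ R).filter (· ∈ A)) * j ≤ #A * j :=
      Nat.mul_le_mul_right _ (card_le_card fun x hx => (mem_filter.1 hx).2)
    have k4 : #((S \ R).filter (· ∈ B)) * (j + 1) ≤ #B * (j + 1) :=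
      Nat.mul_le_mul_right _ (card_le_card fun x hx => (mem_filter.1 hx).2)
    have k5 := sum_sdiff (f := wt j p S F) hR
    rw [mul_add]
    omega

theorem mark {S F : Finset V} {v : V} (hv : v ∈ S) (hf : v ∉ F) (hl : ∀ u ∈ S, p u ≠ v)
    (hp : p v ∈ S) (h : Good j p (S.erase v) (insert (p v) F)) : Good j p S F := by
  obtain ⟨W, h1, m, h2, h3, h4, h5⟩ := h
  have pv : p v ∈ S.erase v := mem_erase.2 ⟨hl v hv, hp⟩
  refine ⟨W, h1.trans (erase_subset _ _), m, fun u hu g => ?_, fun u hu => ?_, h4, ?_⟩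
  · exact h2 u (mem_erase.2 ⟨fun e => hf (e ▸ g), hu⟩) (mem_insert_of_mem g)
  · by_cases c : u = v
    · exact Or.inr (c ▸ h2 _ pv (mem_insert_self _ _))
    · exact h3 u (mem_erase.2 ⟨c, hu⟩)
  · have k1 : ∀ u ∈ S.erase v, wt j p (S.erase v) (insert (p v) F) u ≤
        wt j p S F u + (if u = p v then 2 * j + 1 else 0) := by
      intro u hu
      by_cases c : u = p v
      · have := le_wt (j := j) (p := p) S F u
        rw [wt_mem (c ▸ mem_insert_self _ _), if_pos c]
        omega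
      have a0 : u ∈ insert (p v) F ↔ u ∈ F := by simp [c]
      have a1 : (∀ w ∈ S.erase v, p w ≠ u) → ∀ w ∈ S, p w ≠ u := fun l w hw => by
        by_cases d : w = v
        · exact fun e => c (d ▸ e.symm)
        · exact l w (mem_erase.2 ⟨d, hw⟩)
      have a2 : p u ∈ S → p u ∈ S.erase v := fun l => mem_erase.2 ⟨hl u (mem_of_mem_erase hu), l⟩
      unfold wt
      simp only [a0]
      split_ifs <;> first | omega | tauto
    have k2 := sum_le_sum k1
    rw [sum_add_distrib, sum_ite_eq', if_pos pv] at k2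
    have k3 := add_sum_erase S (wt j p S F) hv
    have k4 : wt j p S F v = 2 * j + 1 := by
      unfold wt
      rw [if_neg hf, if_pos hl, if_pos hp]
      omega
    omega

theorem leaf_case {S F : Finset V} {v : V} (hv : v ∈ S) (hl : ∀ u ∈ S, p u ≠ v)
    (ih : ∀ T ⊂ S, ∀ F, Good j p T F) : Good j p S F := by
  have sub : ∀ R : Finset V, v ∈ R → S \ R ⊂ S := fun R hr =>
    ⟨sdiff_subset, fun h => (mem_sdiff.1 (h hv)).2 hr⟩
  by_cases c : v ∉ F ∧ p v ∈ S
  · exact mark hv c.1 hl c.2 (ih _ (erase_ssubset hv) _)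
  have w5 : wt j p S F v = 3 * j + 2 := by
    unfold wt
    by_cases d : v ∈ F
    · rw [if_pos d]
    · rw [if_neg d, if_pos hl, if_neg fun e => c ⟨d, e⟩]
      omega
  by_cases d : p v ∈ S ∧ ∀ u ∈ S, p u = p v → u = v
  · refine step {v, p v} {v, p v} {p (p v)} ∅ 1 ?_ Subset.rfl (fun _ h _ => h) (fun _ h => Or.inl h)
      (al_pair v) (fun r hr _ n _ => ?_) (fun u hu n _ g => ?_) ?_ (ih _ (sub _ (by simp)) _)
    · simp [insert_subset_iff, hv, d.1]
    · simp only [mem_insert, mem_singleton] at hr n ⊢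
      rcases hr with rfl | rfl <;> tauto
    · simp only [mem_insert, mem_singleton] at n g
      rcases g with g | g
      exacts [absurd g (hl u hu), absurd (Or.inl (d.2 u hu g)) n]
    · have := le_wt (j := j) (p := p) S F (p v)
      rw [sum_pair (hl v hv).symm, w5, card_singleton, card_empty]
      omega
  · refine step {v} {v} ∅ ∅ 1 (by simpa) Subset.rfl (fun _ h _ => h) (fun _ h => Or.inl h)
      (al_single v) (fun r hr a _ b => ?_) (fun u hu _ _ g => ?_) (by simp [w5])
      (ih _ (sub _ (by simp)) _)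
    · rw [mem_singleton] at hr
      subst hr
      exact absurd ⟨a, fun u hu e => mem_singleton.1 (b u hu e)⟩ d
    · exact absurd (mem_singleton.1 g) (hl u hu)

theorem run_case {S F : Finset V} (hm : ∀ u ∈ S, p u ∈ S) (hi : Set.InjOn p S) {x : V}
    (hx : x ∈ S) (L k : ℕ) (W0 A B : Finset V) (hd : ∀ d, 0 < d → d ≤ L → p^[d] x ≠ x)
    (hW : ∀ w ∈ W0, ∃ i ≤ L, p^[i] x = w) (hF : ∀ i ≤ L, p^[i] x ∈ F → p^[i] x ∈ W0)
    (hc : ∀ i ≤ L, p^[i] x ∈ W0 ∨ p (p^[i] x) ∈ W0) (hk : Al p W0 k)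
    (hA : p (p^[L] x) = x ∨ p (p^[L] x) ∈ A)
    (hB : ∀ v ∈ S, p v = x → v = p^[L] x ∨ v ∈ F ∨ v ∈ B)
    (hw : (3 * j + 2) * k + #A * j + #B * (j + 1) ≤ ∑ i ∈ range (L + 1), wt j p S F (p^[i] x))
    (ih : ∀ T ⊂ S, ∀ F, Good j p T F) : Good j p S F := by
  have mp : Set.MapsTo p (S : Set V) S := fun u hu => hm u hu
  have ms : ∀ i, p^[i] x ∈ S := fun i => mp.iterate i hx
  have inj : Set.InjOn (fun i => p^[i] x) (range (L + 1) : Finset ℕ) := by
    have k : ∀ i j, i < j → j ≤ L → p^[i] x ≠ p^[j] x := fun i j h1 h2 e => by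
      obtain ⟨d, rfl⟩ := Nat.exists_eq_add_of_le h1.le
      rw [Function.iterate_add_apply] at e
      exact hd d (by omega) (by omega) (hi.iterate mp i hx (ms d) e).symm
    intro i h1 j h2 e
    simp only [coe_range, Set.mem_Iio] at h1 h2
    rcases lt_trichotomy i j with c | c | c
    exacts [absurd e (k i j c (by omega)), c, absurd e.symm (k j i c (by omega))]
  have mem : ∀ v, v ∈ (range (L + 1)).image (fun i => p^[i] x) ↔ ∃ i ≤ L, p^[i] x = v := by
    simp
  refine step ((range (L + 1)).image fun i => p^[i] x) W0 A B k (fun v h => ?_)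
    (fun w h => (mem w).2 (hW w h)) (fun v h => ?_) (fun v h => ?_) hk (fun r h _ n _ => ?_)
    (fun v hv n f g => ?_) (by rwa [sum_image inj])
    (ih _ ⟨sdiff_subset, fun h => (mem_sdiff.1 (h hx)).2 ((mem x).2 ⟨0, by omega, rfl⟩)⟩ _)
  · obtain ⟨i, -, rfl⟩ := (mem v).1 h
    exact ms i
  · obtain ⟨i, a, rfl⟩ := (mem v).1 h
    exact hF i a
  · obtain ⟨i, a, rfl⟩ := (mem v).1 h
    exact hc i a
  · obtain ⟨i, a, rfl⟩ := (mem r).1 h
    rcases a.lt_or_eq with a | rfl
    · exact absurd ((mem _).2 ⟨i + 1, a, Function.iterate_succ_apply' p i x⟩) n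
    · exact hA.resolve_left fun e => n ((mem _).2 ⟨0, by omega, e.symm⟩)
  · obtain ⟨i, a, e⟩ := (mem _).1 g
    rcases i with _ | i
    · rcases hB v hv e.symm with b | b | b
      exacts [absurd ((mem _).2 ⟨L, le_rfl, b.symm⟩) n, absurd b f, b]
    · rw [Function.iterate_succ_apply'] at e
      exact absurd ((mem _).2 ⟨i, by omega, hi (ms i) hv e⟩) n

theorem bare_case {S F : Finset V} (hm : ∀ u ∈ S, p u ∈ S) (hi : Set.InjOn p S) {x : V}
    (hx : x ∈ S) (hF : ∀ u ∈ S, u ∉ F) (L s : ℕ) (A B : Finset V)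
    (hd : ∀ d, 0 < d → d ≤ L → p^[d] x ≠ x) (h1 : L < 3 * s)
    (h2 : 3 * s ≤ L + 1 ∨ 3 * s = L + 2 ∧ p (p^[L] x) = x)
    (hA : p (p^[L] x) = x ∨ p (p^[L] x) ∈ A)
    (hB : ∀ v ∈ S, p v = x → v = p^[L] x ∨ v ∈ F ∨ v ∈ B)
    (hw : (3 * j + 2) * s + #A * j + #B * (j + 1) ≤ (L + 1) * (j + 1))
    (ih : ∀ T ⊂ S, ∀ F, Good j p T F) : Good j p S F := by
  have mp : Set.MapsTo p (S : Set V) S := fun u hu => hm u hu
  have al : ∀ s, Al p ((range s).biUnion fun t => {p^[3 * t + 1] x, p (p^[3 * t + 1] x)}) s := by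
    intro s
    induction s with
    | zero => exact fun I h _ => by simpa using h
    | succ s k =>
      rw [range_add_one, biUnion_insert, add_comm s 1]
      exact al_union (al_pair _) k
  refine run_case hm hi hx L s _ A B hd (fun w h => ?_)
    (fun i _ f => absurd f (hF _ (mp.iterate i hx))) (fun i a => ?_) (al s) hA hB
    (hw.trans ?_) ih
  · simp only [mem_biUnion, mem_range, mem_insert, mem_singleton] at h
    obtain ⟨t, a, rfl | rfl⟩ := h
    · exact ⟨3 * t + 1, by omega, rfl⟩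
    · by_cases c : 3 * t + 1 = L
      · exact ⟨0, by omega, by rw [c, (h2.resolve_left (by omega)).2]; rfl⟩
      · exact ⟨3 * t + 1 + 1, by omega, Function.iterate_succ_apply' p _ x⟩
  · simp only [mem_biUnion, mem_range, mem_insert, mem_singleton]
    obtain ⟨t, rfl | rfl | rfl⟩ : ∃ t, i = 3 * t ∨ i = 3 * t + 1 ∨ i = 3 * t + 1 + 1 :=
      ⟨i / 3, by omega⟩
    · exact Or.inr ⟨t, by omega, Or.inl (Function.iterate_succ_apply' p _ x).symm⟩
    · exact Or.inl ⟨t, by omega, Or.inl rfl⟩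
    · exact Or.inl ⟨t, by omega, Or.inr (Function.iterate_succ_apply' p _ x)⟩
  · simpa using card_nsmul_le_sum (range (L + 1)) (fun i => wt j p S F (p^[i] x)) (j + 1)
      fun i _ => le_wt _ _ _

theorem good (hj : 1 ≤ j) (col : V → Bool) (hc : ∀ v, col (p v) = !col v)
    (hg : ∀ x d, 0 < d → d < 6 * j → p^[d] x ≠ x) (S : Finset V) : ∀ F, Good j p S F := by
  induction S using Finset.strongInduction with
  | H S ih =>
  intro F
  by_cases c : ∃ v ∈ S, ∀ u ∈ S, p u ≠ v
  · obtain ⟨v, hv, hl⟩ := c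
    exact leaf_case hv hl ih
  push Not at c
  have e : S = S.image p := eq_of_subset_of_card_le (fun v hv => mem_image.2 (c v hv)) card_image_le
  have hm : ∀ u ∈ S, p u ∈ S := fun u hu => e ▸ mem_image_of_mem p hu
  have hi : Set.InjOn p S := card_image_iff.1 (by rw [← e])
  have odd : ∀ (x : V) d, col (p^[d] x) = (col x == decide (d % 2 = 0)) := fun x d => by
    induction d with
    | zero => simp
    | succ d k =>
      rw [Function.iterate_succ_apply', hc, k]
      rcases Nat.mod_two_eq_zero_or_one d with h | h <;> simp [Nat.add_mod, h]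
  have w2 := le_wt (j := j) (p := p) S F
  by_cases d : ∃ u ∈ S, u ∈ F
  · obtain ⟨u, hu, hf⟩ := d
    obtain ⟨y, hy, rfl⟩ := c u hu
    obtain ⟨z, hz, rfl⟩ := c y hy
    obtain ⟨w, hw, rfl⟩ := c z hz
    by_cases c1 : p (p w) ∈ F
    · refine run_case hm hi hy 1 1 {p (p w), p (p (p w))} {p (p (p (p w)))} {p w}
        (fun d a b => hg _ d a (by omega)) (fun v h => ?_) (fun i a _ => ?_)
        (fun i a => ?_) (al_pair _) (by simp) (fun v a b => by simp [hi a hz b]) ?_ ih
      · simp only [mem_insert, mem_singleton] at h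
        rcases h with rfl | rfl
        exacts [⟨0, by omega, rfl⟩, ⟨1, by omega, rfl⟩]
      · interval_cases i <;> simp
      · interval_cases i <;> simp
      · simp [sum_range_succ, wt_mem hf, wt_mem c1]
        omega
    by_cases c2 : p w ∈ F
    · refine run_case hm hi hy 1 1 {p (p w), p (p (p w))} {p (p (p (p w)))} ∅
        (fun d a b => hg _ d a (by omega)) (fun v h => ?_) (fun i a _ => ?_)
        (fun i a => ?_) (al_pair _) (by simp) (fun v a b => by simp [hi a hz b, c2]) ?_ ih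
      · simp only [mem_insert, mem_singleton] at h
        rcases h with rfl | rfl
        exacts [⟨0, by omega, rfl⟩, ⟨1, by omega, rfl⟩]
      · interval_cases i <;> simp
      · interval_cases i <;> simp
      · have := w2 (p (p w))
        simp [sum_range_succ, wt_mem hf]
        omega
    · refine run_case hm hi hz 2 1 {p (p w), p (p (p w))} {p (p (p (p w)))} {w}
        (fun d a b => hg _ d a (by omega)) (fun v h => ?_) (fun i a f => ?_)
        (fun i a => ?_) (al_pair _) (by simp) (fun v a b => by simp [hi a hw b]) ?_ ih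
      · simp only [mem_insert, mem_singleton] at h
        rcases h with rfl | rfl
        exacts [⟨1, by omega, rfl⟩, ⟨2, by omega, rfl⟩]
      · interval_cases i
        · exact absurd f c2
        all_goals simp
      · interval_cases i <;> simp
      · have := w2 (p (p w))
        have := w2 (p w)
        simp [sum_range_succ, wt_mem hf]
        omega
  push Not at d
  rcases S.eq_empty_or_nonempty with rfl | ⟨x, hx⟩
  · exact ⟨∅, Subset.rfl, 0, by simp, by simp, fun I h _ => by simpa using h, by simp⟩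
  have ms : ∀ i, p^[i] x ∈ S := fun i =>
    Set.MapsTo.iterate (s := (S : Set V)) (fun u hu => hm u hu) i hx
  obtain ⟨L, hL⟩ : ∃ L, 6 * j = L + 1 := ⟨6 * j - 1, by omega⟩
  by_cases c6 : p (p^[L] x) = x
  · exact bare_case hm hi hx d L (2 * j) ∅ ∅ (fun d a b => hg _ d a (by omega)) (by omega)
      (Or.inl (by omega)) (Or.inl c6) (fun v a b => Or.inl (hi a (ms L) (b.trans c6.symm)))
      (by rw [← hL, card_empty]; nlinarith) ih
  have n6 : ∀ d, 0 < d → d ≤ 6 * j + 1 → p^[d] x ≠ x := fun d a b => by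
    rcases (by omega : d < 6 * j ∨ d = L + 1 ∨ d % 2 = 1) with h | rfl | h
    · exact hg _ d a h
    · rwa [Function.iterate_succ_apply']
    · intro g
      have o := odd x d
      rw [g, h] at o
      revert o
      cases col x <;> simp
  by_cases c8 : p (p^[6 * j + 1] x) = x
  · exact bare_case hm hi hx d (6 * j + 1) (2 * j + 1) ∅ ∅ n6 (by omega)
      (Or.inr ⟨by omega, c8⟩) (Or.inl c8)
      (fun v a b => Or.inl (hi a (ms _) (b.trans c8.symm))) (by rw [card_empty]; nlinarith) ih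
  · obtain ⟨y, hy, ey⟩ := c x hx
    refine bare_case hm hi hx d (6 * j + 2) (2 * j + 1) {p (p^[6 * j + 2] x)} {y}
      (fun d a b => ?_) (by omega) (Or.inl (by omega)) (Or.inr (mem_singleton_self _))
      (fun v a b => Or.inr (Or.inr (mem_singleton.2 (hi a hy (b.trans ey.symm)))))
      (by rw [card_singleton, card_singleton]; nlinarith) ih
    rcases (by omega : d ≤ 6 * j + 1 ∨ d = 6 * j + 1 + 1) with h | rfl
    · exact n6 d a h
    · rwa [Function.iterate_succ_apply']

end Pool.Agent.Lib.MP_cbd9f1_co.Bip
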