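import Pool.Agent.Lib.MP_cbd9f1_co.BipMain

/-! Quasi-kernels of bipartite digraphs: the upper bound from roots and long cycles. -/

namespace Pool.Agent.Lib.MP_cbd9f1_co.Bip

open Finset Classical Relation

theorem arith' {j n t r a b m u : ℕ} (h1 : u ≤ a) (h2 : u ≤ b) (h3 : u ≤ m) (h4 : a + b + t ≤ n)
    (h5 : (3 * j + 2) * m ≤ (j + 1) * n + j * t + (2 * j + 1) * r) :
    (5 * j + 2) * u ≤ (2 * j + 1) * (n + r) := by
  nlinarith [Nat.mul_le_mul_left j h1, Nat.mul_le_mul_left j h2,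
    Nat.mul_le_mul_left (3 * j + 2) h3, Nat.mul_le_mul_left j h4]

theorem good_root {V : Type} [Fintype V] {j : ℕ} (hj : 1 ≤ j) (p : V → V) (col : V → Bool)
    (hc : ∀ v, col (p v) = !col v) (R : Finset V)
    (g : ∀ x d, 0 < d → d < 6 * j → (∀ i < d, p^[i] x ∉ R) → p^[d] x ≠ x) :
    ∃ W : Finset V, ∃ m, (∀ v, v ∈ W ∨ p v ∈ W) ∧ Al p W m ∧
      (3 * j + 2) * m ≤ (j + 1) * Fintype.card V +
        j * #(univ.filter fun v => ∀ u, p u ≠ v) + (2 * j + 1) * #R := by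
  let q : V × ℕ → V × ℕ := fun x => (p x.1, if x.2 = 0 ∧ x.1 ∉ R then 0 else x.2 + 1)
  have q1 : ∀ d x, (q^[d] x).1 = p^[d] x.1 := fun d x => by
    induction d with
    | zero => rfl
    | succ d k => rw [Function.iterate_succ_apply', Function.iterate_succ_apply', ← k]
  have q2 : ∀ d x, x.2 ≤ (q^[d] x).2 ∧ (x.2 = (q^[d] x).2 → ∀ i < d, p^[i] x.1 ∉ R) :=
    fun d x => by
    induction d with
    | zero => simp
    | succ d k =>
      rw [Function.iterate_succ_apply']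
      by_cases c : (q^[d] x).2 = 0 ∧ (q^[d] x).1 ∉ R
      · have e : (q (q^[d] x)).2 = 0 := if_pos c
        refine ⟨by omega, fun _ i h => ?_⟩
        rcases (Nat.lt_succ_iff.1 h).lt_or_eq with h | rfl
        · exact k.2 (by omega) i h
        · exact q1 i x ▸ c.2
      · have e : (q (q^[d] x)).2 = (q^[d] x).2 + 1 := if_neg c
        exact ⟨by omega, fun _ => by omega⟩
  let S : Finset (V × ℕ) := univ.image fun v => (v, 0)
  have mS : ∀ x, x ∈ S ↔ x.2 = 0 := fun x => by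
    simp only [S, mem_image, mem_univ, true_and]
    exact ⟨fun ⟨v, e⟩ => e ▸ rfl, fun e => ⟨x.1, by rw [← e]⟩⟩
  have inj : Function.Injective fun v : V => (v, 0) := fun a b e => congrArg Prod.fst e
  obtain ⟨W, w0, m, -, w1, w2, w3⟩ := good (p := q) hj (fun x => col x.1) (fun x => hc x.1)
    (fun x d a b e => g x.1 d a b ((q2 d x).2 (by rw [e])) (by rw [← q1, e])) S ∅
  refine ⟨W.image Prod.fst, m, fun v => ?_, fun I hI hi => ?_, w3.trans ?_⟩
  · exact (w1 (v, 0) ((mS _).2 rfl)).imp (mem_image_of_mem Prod.fst) (mem_image_of_mem Prod.fst)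
  · rw [← card_image_of_injective I inj]
    refine w2 _ (fun x hx => ?_) fun x hx hy => ?_
    · obtain ⟨v, a, rfl⟩ := mem_image.1 hx
      obtain ⟨y, b, rfl⟩ := mem_image.1 (hI a)
      rwa [← (mS y).1 (w0 b)]
    · obtain ⟨v, a, rfl⟩ := mem_image.1 hx
      obtain ⟨y, b, e⟩ := mem_image.1 hy
      exact hi v a ((show y = p v from congrArg Prod.fst e) ▸ b)
  · have k : ∀ v ∈ (univ : Finset V), wt j q S ∅ (v, 0) ≤ j + 1 +
        (if ∀ u, p u ≠ v then j else 0) + (if v ∈ R.image p then j else 0) +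
        (if v ∈ R then j + 1 else 0) := fun v _ => by
      have a1 : (∀ u ∈ S, q u ≠ (v, 0)) → (∀ u, p u ≠ v) ∨ v ∈ R.image p := fun l => by
        by_contra n
        push Not at n
        obtain ⟨⟨u, rfl⟩, n⟩ := n
        exact l (u, 0) ((mS _).2 rfl)
          (Prod.ext rfl (if_pos ⟨rfl, fun h => n (mem_image_of_mem p h)⟩))
      have a2 : v ∉ R → q (v, 0) ∈ S := fun l => (mS _).2 (if_pos ⟨rfl, l⟩)
      unfold wt
      rw [if_neg (notMem_empty _)]
      split_ifs <;> first | omega | tauto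
    have k2 := sum_le_sum k
    rw [sum_add_distrib, sum_add_distrib, sum_add_distrib, ← sum_filter, ← sum_filter,
      ← sum_filter] at k2
    simp only [sum_const, smul_eq_mul, card_univ, filter_mem_eq_inter, univ_inter] at k2
    rw [sum_image inj.injOn]
    have k3 : #(R.image p) * j ≤ #R * j := Nat.mul_le_mul_right _ card_image_le
    nlinarith

theorem core (j : ℕ) (hj : 1 ≤ j) (V : Type) [Fintype V] (G : Digraph V) (col : V → Bool)
    (hcol : ∀ u v, G.Adj u v → col u ≠ col v) (R : Finset V) (p : V → V)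
    (hp : ∀ v, G.Adj (p v) v)
    (g : ∀ x d, 0 < d → d < 6 * j → (∀ i < d, p^[i] x ∉ R) → p^[d] x ≠ x) :
    ∃ Q : Finset V, (∀ u ∈ Q, ∀ v ∈ Q, ¬ G.Adj u v) ∧
      (∀ v : V, v ∉ Q → ∃ q ∈ Q, G.Adj q v ∨ ∃ w : V, G.Adj q w ∧ G.Adj w v) ∧
      (5 * j + 2) * #Q ≤ (2 * j + 1) * (Fintype.card V + #R) := by
  have hc : ∀ v, col (p v) = !col v := fun v => by
    have := hcol _ _ (hp v)
    revert this
    cases col (p v) <;> cases col v <;> simp
  obtain ⟨W, m, w1, w2, w3⟩ := good_root hj p col hc R g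
  obtain ⟨K, k1, k2, k3⟩ := kernel G col hcol W
  have km : #K ≤ m := w2 K k1 fun a ha hb => k2 _ hb _ ha (hp a)
  let X : Bool → Finset V := fun b => (univ.filter fun v => col v = b).image p
  have mX : ∀ b v, col v = b → p v ∈ X b := fun b v h => mem_image_of_mem p (by simpa using h)
  have cX : ∀ b, ∀ v ∈ X b, col v = !b := fun b v h => by
    obtain ⟨u, a, rfl⟩ := mem_image.1 h
    rw [hc, (mem_filter.1 a).2]
  have qX : ∀ b, (∀ u ∈ X b, ∀ v ∈ X b, ¬ G.Adj u v) ∧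
      ∀ v : V, v ∉ X b → ∃ q ∈ X b, G.Adj q v ∨ ∃ w : V, G.Adj q w ∧ G.Adj w v := fun b => by
    refine ⟨fun u hu v hv e => hcol u v e ((cX b u hu).trans (cX b v hv).symm), fun v _ => ?_⟩
    by_cases d : col v = b
    · exact ⟨_, mX b v d, Or.inl (hp v)⟩
    · refine ⟨_, mX b (p v) ?_, Or.inr ⟨p v, hp _, hp v⟩⟩
      rw [hc]
      revert d
      cases col v <;> cases b <;> simp
  have s2 : #(X true) + #(X false) + #(univ.filter fun v => ∀ u, p u ≠ v) ≤ Fintype.card V := by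
    have d1 : Disjoint (X true) (X false) := disjoint_left.2 fun v a b => by
      simpa using (cX _ v a).symm.trans (cX _ v b)
    have d2 : Disjoint (X true ∪ X false) (univ.filter fun v => ∀ u, p u ≠ v) :=
      disjoint_left.2 fun v a b => by
      rcases mem_union.1 a with a | a <;> obtain ⟨u, -, e⟩ := mem_image.1 a <;>
        exact (mem_filter.1 b).2 u e
    rw [← card_union_of_disjoint d1, ← card_union_of_disjoint d2]
    exact card_le_univ _
  by_cases c1 : #(X true) ≤ #(X false) ∧ #(X true) ≤ m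
  · exact ⟨_, (qX _).1, (qX _).2, arith' le_rfl c1.1 c1.2 s2 w3⟩
  by_cases c2 : #(X false) ≤ #(X true) ∧ #(X false) ≤ m
  · exact ⟨_, (qX _).1, (qX _).2, arith' c2.1 le_rfl c2.2 s2 w3⟩
  refine ⟨K, k2, fun v n => ?_, arith' (by omega) (by omega) km s2 w3⟩
  rcases w1 v with a | a
  · exact (k3 v a n).imp fun q h => ⟨h.1, Or.inl h.2⟩
  · by_cases d : p v ∈ K
    · exact ⟨_, d, Or.inl (hp v)⟩
    · exact (k3 _ a d).imp fun q h => ⟨h.1, Or.inr ⟨_, h.2, hp v⟩⟩

theorem bfs {V : Type} (G : Digraph V) (u : V) : ∃ (a : V → V) (h : V → ℕ), ∀ v,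
    ReflTransGen G.Adj u v → v ≠ u →
      G.Adj (a v) v ∧ ReflTransGen G.Adj u (a v) ∧ h (a v) < h v := by
  let St : ℕ → V → Prop := fun n => Nat.rec (fun v => v = u) (fun _ P v => ∃ w, P w ∧ G.Adj w v) n
  have s1 : ∀ v, ReflTransGen G.Adj u v → ∃ n, St n v := fun v h => by
    induction h with
    | refl => exact ⟨0, rfl⟩
    | tail _ e k => exact k.elim fun n a => ⟨n + 1, _, a, e⟩
  have s2 : ∀ n v, St n v → ReflTransGen G.Adj u v := fun n => by
    induction n with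
    | zero => exact fun v e => (show v = u from e) ▸ .refl
    | succ n k => exact fun v ⟨w, a, e⟩ => (k w a).tail e
  have s3 : ∀ v, ∃ w, ReflTransGen G.Adj u v → v ≠ u → G.Adj w v ∧ ReflTransGen G.Adj u w ∧
      sInf {n | St n w} < sInf {n | St n v} := fun v => by
    by_cases c : ReflTransGen G.Adj u v ∧ v ≠ u
    · have m := Nat.sInf_mem (s := {n | St n v}) (s1 v c.1)
      generalize sInf {n | St n v} = n at m
      rcases n with _ | n
      · exact absurd m c.2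
      · obtain ⟨w, a, e⟩ := m
        exact ⟨w, fun _ _ => ⟨e, s2 n w a, Nat.lt_succ_of_le (Nat.sInf_le a)⟩⟩
    · exact ⟨u, fun a b => absurd ⟨a, b⟩ c⟩
  choose a ha using s3
  exact ⟨a, fun v => sInf {n | St n v}, ha⟩

theorem cyc {V : Type} (G : Digraph V) {g l : ℕ} (hg : 0 < g) (hl : g ≤ l) (f : ZMod l → V)
    (hf : Function.Injective f) (ha : ∀ i, G.Adj (f i) (f (i + 1))) :
    ∃ c : V → V, ∀ z ∈ Set.range f, c z ∈ Set.range f ∧ G.Adj (c z) z ∧
      ReflTransGen G.Adj (f 0) z ∧ ∀ d, 0 < d → d < g → c^[d] z ≠ z := by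
  have : NeZero l := ⟨by omega⟩
  let c : V → V := fun z => f (Function.invFun f z - 1)
  have c1 : ∀ i, c (f i) = f (i - 1) := fun i => by
    simp only [c, Function.leftInverse_invFun hf i]
  have c2 : ∀ (d : ℕ) i, c^[d] (f i) = f (i - d) := fun d i => by
    induction d with
    | zero => simp
    | succ d k => rw [Function.iterate_succ_apply', k, c1, Nat.cast_succ, sub_sub]
  have c3 : ∀ n : ℕ, ReflTransGen G.Adj (f 0) (f n) := fun n => by
    induction n with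
    | zero => rw [Nat.cast_zero]
    | succ n k => exact k.tail (by rw [Nat.cast_succ]; exact ha _)
  refine ⟨c, ?_⟩
  rintro _ ⟨i, rfl⟩
  refine ⟨⟨_, rfl⟩, ?_, ?_, fun d a b e => ?_⟩
  · simpa [c1] using ha (i - 1)
  · simpa using c3 i.val
  · rw [c2] at e
    have k := hf e
    rw [sub_eq_self, ZMod.natCast_eq_zero_iff] at k
    exact absurd (Nat.le_of_dvd a k) (by omega)

theorem parent {V : Type} [Fintype V] (G : Digraph V) {g : ℕ} (hg : 0 < g) (R : Finset V)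
    (hs : ∀ v, ∃ u, G.Adj u v)
    (H : ∀ v, ∃ u, ReflTransGen G.Adj u v ∧ (u ∈ R ∨ ∃ l, g ≤ l ∧ ∃ f : ZMod l → V,
      Function.Injective f ∧ f 0 = u ∧ ∀ i, G.Adj (f i) (f (i + 1)))) :
    ∃ p : V → V, (∀ v, G.Adj (p v) v) ∧
      ∀ x d, 0 < d → d < g → (∀ i < d, p^[i] x ∉ R) → p^[d] x ≠ x := by
  obtain ⟨B, hB⟩ : ∃ B : V → Prop, ∀ u, B u ↔ (u ∈ R ∨ ∃ l, g ≤ l ∧ ∃ f : ZMod l → V,
      Function.Injective f ∧ f 0 = u ∧ ∀ i, G.Adj (f i) (f (i + 1))) := ⟨_, fun _ => Iff.rfl⟩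
  simp only [← hB] at H
  have z : ∀ u, ∃ (Z : Set V) (c : V → V), (B u → u ∈ R ∨ u ∈ Z) ∧ ∀ z ∈ Z, c z ∈ Z ∧
      G.Adj (c z) z ∧ ReflTransGen G.Adj u z ∧ ∀ d, 0 < d → d < g → c^[d] z ≠ z := fun u => by
    by_cases c : ∃ l, g ≤ l ∧ ∃ f : ZMod l → V,
      Function.Injective f ∧ f 0 = u ∧ ∀ i, G.Adj (f i) (f (i + 1))
    · obtain ⟨l, a, f, b, rfl, d⟩ := c
      obtain ⟨c, h⟩ := cyc G hg a f b d
      exact ⟨Set.range f, c, fun _ => Or.inr ⟨0, rfl⟩, h⟩
    · exact ⟨∅, id, fun h => Or.inl (((hB u).1 h).resolve_right c), by simp⟩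
  choose Z c z1 z2 using z
  choose a h ha using bfs G
  choose s hs using hs
  have e := Fintype.equivFin V
  have mn : ∀ v, ∃ u, (B u ∧ ReflTransGen G.Adj u v) ∧
      ∀ w, B w → ReflTransGen G.Adj w v → e u ≤ e w := fun v => by
    obtain ⟨u, a, b⟩ := exists_min_image (univ.filter fun u => B u ∧ ReflTransGen G.Adj u v) e
      ((H v).imp fun u k => by simp [k.1, k.2])
    exact ⟨u, (mem_filter.1 a).2, fun w k k' => b w (by simp [k, k'])⟩
  choose b b1 b2 using mn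
  have b3 : ∀ v w, ReflTransGen G.Adj (b v) w → G.Adj w v → b w = b v := fun v w k k' =>
    e.injective (le_antisymm (b2 w _ (b1 v).1 k) (b2 v _ (b1 w).1 ((b1 w).2.tail k')))
  obtain ⟨p, p0, p1, p2⟩ : ∃ p : V → V, (∀ v, G.Adj (p v) v) ∧
      (∀ v ∈ {v | v ∈ Z (b v)}, p v = c (b v) v) ∧
      ∀ v, v ∉ Z (b v) → v ∉ R → b (p v) = b v ∧ h (b v) (p v) < h (b v) v := by
    refine ⟨fun v => if v ∈ Z (b v) then c (b v) v else if v = b v then s v else a (b v) v,
      fun v => ?_, fun v k => if_pos k, fun v k k' => ?_⟩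
    · beta_reduce
      split_ifs with k k'
      exacts [(z2 _ v k).2.1, hs v, (ha _ v (b1 v).2 k').1]
    · have n : v ≠ b v := fun n => (z1 _ (b1 v).1).elim (n ▸ k') (fun t => k (by rwa [← n] at t ⊢))
      obtain ⟨t1, t2, t3⟩ := ha _ v (b1 v).2 n
      simp only [if_neg k, if_neg n]
      exact ⟨b3 v _ t2 t1, t3⟩
  have p3 : ∀ v, v ∈ Z (b v) → b (p v) = b v ∧ p v ∈ Z (b v) := fun v k => by
    have t := p1 v k ▸ (z2 _ v k).1
    exact ⟨b3 v _ (z2 _ _ t).2.2.1 (p0 v), t⟩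
  refine ⟨p, p0, fun x d d0 dg hR ex => ?_⟩
  by_cases k : x ∈ Z (b x)
  · have t : ∀ i, b (p^[i] x) = b x ∧ p^[i] x ∈ Z (b x) ∧ p^[i] x = (c (b x))^[i] x := fun i => by
      induction i with
      | zero => exact ⟨rfl, k, rfl⟩
      | succ i t =>
        have m : p^[i] x ∈ Z (b (p^[i] x)) := t.1.symm ▸ t.2.1
        rw [Function.iterate_succ_apply', Function.iterate_succ_apply', ← t.2.2, ← t.1]
        exact ⟨(p3 _ m).1, (p3 _ m).2, p1 _ m⟩
    exact (z2 _ x k).2.2.2 d d0 dg ((t d).2.2.symm.trans ex)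
  · have t : ∀ i ≤ d, b (p^[i] x) = b x ∧
        (p^[i] x ∈ Z (b x) ∨ h (b x) (p^[i] x) + i ≤ h (b x) x) := fun i => by
      induction i with
      | zero => exact fun _ => ⟨rfl, Or.inr le_rfl⟩
      | succ i t =>
        intro l
        obtain ⟨t1, t2⟩ := t (by omega)
        rw [Function.iterate_succ_apply']
        by_cases m : p^[i] x ∈ Z (b (p^[i] x))
        · exact ⟨(p3 _ m).1.trans t1, Or.inl (t1 ▸ (p3 _ m).2)⟩
        · obtain ⟨u1, u2⟩ := p2 _ m (hR i l)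
          rw [t1] at u1 u2 m
          exact ⟨u1, Or.inr (by have := t2.resolve_left m; omega)⟩
    have := (t d le_rfl).2
    rw [ex] at this
    exact this.elim k (by omega)

theorem upper_root (j : ℕ) (hj : 1 ≤ j) (V : Type) [Fintype V] (G : Digraph V) (R : Finset V)
    (col : V → Bool) (hcol : ∀ u v, G.Adj u v → col u ≠ col v) (hs : ∀ v, ∃ u, G.Adj u v)
    (H : ∀ v, ∃ u, ReflTransGen G.Adj u v ∧ (u ∈ R ∨ ∃ l, 6 * j ≤ l ∧ ∃ f : ZMod l → V,
      Function.Injective f ∧ f 0 = u ∧ ∀ i, G.Adj (f i) (f (i + 1)))) :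
    ∃ Q : Finset V, (∀ u ∈ Q, ∀ v ∈ Q, ¬ G.Adj u v) ∧
      (∀ v : V, v ∉ Q → ∃ q ∈ Q, G.Adj q v ∨ ∃ w : V, G.Adj q w ∧ G.Adj w v) ∧
      (5 * j + 2) * #Q ≤ (2 * j + 1) * (Fintype.card V + #R) := by
  obtain ⟨p, hp, g⟩ := parent G (by omega) R hs H
  exact core j hj V G col hcol R p hp g

theorem ex_reach {j k : ℕ} (v : Vx j (k + 1)) :
    ∃ i, ReflTransGen (ex j (k + 1)).Adj (.inl (i, .inl 0)) v := by
  have c : ∀ i a, ReflTransGen (ex j (k + 1)).Adj (.inl (i, .inl 0)) (.inl (i, .inl a)) :=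
    fun i a => by
    have k : ∀ n : ℕ, ReflTransGen (ex j (k + 1)).Adj (.inl (i, .inl 0)) (.inl (i, .inl n)) :=
      fun n => by
      induction n with
      | zero => rw [Nat.cast_zero]
      | succ n k => exact k.tail ⟨rfl, Nat.cast_succ n⟩
    simpa using k a.val
  have h : ∀ s, ReflTransGen (ex j (k + 1)).Adj (.inl (0, .inl 0)) (.inr s) := fun s => by
    obtain ⟨a, h⟩ := ZMod.castHom_surjective (n := 6 * j + 4) (m := 2) ⟨3 * j + 2, by ring⟩ s
    exact (c 0 a).tail h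
  have t : ∀ i s r, ReflTransGen (ex j (k + 1)).Adj (.inl (0, .inl 0))
      (.inl (i, .inr (s, r, false))) := fun i s r => (h s).tail ⟨rfl, rfl⟩
  rcases v with ⟨i, b | ⟨s, r, _ | _⟩⟩ | t
  · exact ⟨i, c i b⟩
  · exact ⟨0, t i s r⟩
  · exact ⟨0, (t i s r).tail ⟨rfl, rfl, rfl, rfl, rfl⟩⟩
  · exact ⟨0, h t⟩

end Pool.Agent.Lib.MP_cbd9f1_co.Bip
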