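import Pool.Agent.Lib.MP_cbd9f1_co.Basic

/-!
Stage 2: if all quasi-kernels are small, few quasi-kernels cover everything. The cover theorem.
-/

namespace Pool.Agent.Lib.MP_cbd9f1_co

open Finset

variable {V : Type} [Fintype V] [DecidableEq V] {G : V → V → Prop}

open Classical in
/-- Vertices of `W ∩ Y` with many in-neighbours in `W ∩ Y`. -/
noncomputable def hub (G : V → V → Prop) (W Y : Finset V) (r M : ℕ) : Finset V :=
  (W ∩ Y).filter fun q => M < 2 * r * ((W ∩ Y).filter fun v => G v q).card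

open Classical in
theorem exists_good_pick {W Y : Finset V} {r M : ℕ} (hM : (W ∩ Y).card ≤ M)
    (hne : (hub G W Y r M).Nonempty) :
    ∃ v ∈ W ∩ Y, 2 * r * (hub G W (Y \ cl G {v}) r M).card + (hub G W Y r M).card ≤
      2 * r * (hub G W Y r M).card := by
  have h1 : ∃ v ∈ W ∩ Y, (hub G W Y r M).card ≤
      2 * r * ((hub G W Y r M).filter fun q => G v q).card := by
    by_contra hc
    push Not at hc
    have h2 : ∑ v ∈ W ∩ Y, 2 * r * ((hub G W Y r M).filter fun q => G v q).card ≤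
        ∑ _v ∈ W ∩ Y, (hub G W Y r M).card := sum_le_sum fun v hv => (hc v hv).le
    have h3 : ∑ _q ∈ hub G W Y r M, M <
        ∑ q ∈ hub G W Y r M, 2 * r * ((W ∩ Y).filter fun v => G v q).card :=
      sum_lt_sum_of_nonempty hne fun q hq => (mem_filter.1 hq).2
    have h4 := sum_card_bipartiteAbove_eq_sum_card_bipartiteBelow (s := W ∩ Y)
      (t := hub G W Y r M) G
    simp only [bipartiteAbove, bipartiteBelow] at h4
    rw [← mul_sum, ← h4] at h3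
    rw [← mul_sum] at h2
    simp only [sum_const, smul_eq_mul] at h2 h3
    have h5 := Nat.mul_le_mul_right (hub G W Y r M).card hM
    rw [mul_comm M] at h5
    omega
  obtain ⟨v, hv, h2⟩ := h1
  refine ⟨v, hv, ?_⟩
  have h3 : hub G W (Y \ cl G {v}) r M ⊆ (hub G W Y r M).filter fun q => ¬ G v q := by
    intro q hq
    obtain ⟨hq1, hq2⟩ := mem_filter.1 hq
    have hsub : W ∩ (Y \ cl G {v}) ⊆ W ∩ Y := inter_subset_inter (Subset.refl _) sdiff_subset
    refine mem_filter.2 ⟨mem_filter.2 ⟨hsub hq1, hq2.trans_le ?_⟩, fun h => ?_⟩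
    · exact Nat.mul_le_mul_left _ (card_le_card (filter_subset_filter _ hsub))
    · exact (mem_sdiff.1 (mem_inter.1 hq1).2).2
        (mem_cl.2 (Or.inr ⟨v, mem_singleton_self _, h⟩))
  have h4 := card_le_card h3
  have h5 := card_filter_add_card_filter_not (s := hub G W Y r M) fun q => G v q
  have h6 := Nat.mul_le_mul_left (2 * r) h4
  rw [← h5, mul_add]
  rw [← h5] at h2
  omega

theorem kill_hubs {B W : Finset V} (hW : ∀ v ∈ W, ∃ Q, QK G B Q ∧ v ∈ Q) {r M : ℕ} (hr : 1 ≤ r)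
    (n : ℕ) : ∀ Y : Finset V, (W ∩ Y).card ≤ M →
      ((hub G W Y r M).card : ℝ) * (1 - 1 / (2 * r)) ^ n < 1 →
      ∃ Y', Step G B Y Y' n ∧ hub G W Y' r M = ∅ := by
  have hr' : (1 : ℝ) ≤ r := by exact_mod_cast hr
  have hx : (0 : ℝ) ≤ 1 - 1 / (2 * r) := by
    rw [sub_nonneg, div_le_one (by linarith)]; linarith
  induction n with
  | zero =>
    intro Y _ h
    refine ⟨Y, Step.refl _ _, card_eq_zero.1 ?_⟩
    rw [pow_zero, mul_one] at h
    have : (hub G W Y r M).card < 1 := by exact_mod_cast h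
    omega
  | succ n ih =>
    intro Y hM h
    rcases (hub G W Y r M).eq_empty_or_nonempty with he | hne
    · exact ⟨Y, (Step.refl _ _).mono (Nat.zero_le _), he⟩
    obtain ⟨v, hv, h1⟩ := exists_good_pick hM hne
    obtain ⟨Q, hQ, hvQ⟩ := hW v (mem_inter.1 hv).1
    have h2 := step_pick hQ (singleton_subset_iff.2 hvQ) (singleton_subset_iff.2 (mem_inter.1 hv).2)
    obtain ⟨Y', h3, h4⟩ := ih (Y \ cl G {v})
      ((card_le_card (inter_subset_inter (Subset.refl _) sdiff_subset)).trans hM) (by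
        refine lt_of_le_of_lt ?_ h
        rw [pow_succ', ← mul_assoc]
        refine mul_le_mul_of_nonneg_right ?_ (pow_nonneg hx n)
        have h5 : 2 * (r : ℝ) * (hub G W (Y \ cl G {v}) r M).card + (hub G W Y r M).card ≤
            2 * r * (hub G W Y r M).card := by exact_mod_cast h1
        have h6 : (0 : ℝ) < 2 * r := by linarith
        rw [mul_sub, mul_one, mul_one_div, le_sub_iff_add_le, ← mul_le_mul_iff_right₀ h6, mul_add,
          mul_div_cancel₀ _ h6.ne']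
        exact h5)
    exact ⟨Y', (h2.trans h3).mono (by omega), h4⟩

theorem pow_bound {r L h : ℕ} (hr : 1 ≤ r) (hh : h < 2 ^ L) :
    (h : ℝ) * (1 - 1 / (2 * r)) ^ (2 * r * L) < 1 := by
  have hr' : (1 : ℝ) ≤ r := by exact_mod_cast hr
  have hx : (0 : ℝ) ≤ 1 - 1 / (2 * r) := by
    rw [sub_nonneg, div_le_one (by linarith)]; linarith
  have h1 : (1 - 1 / (2 * (r : ℝ))) ^ (2 * r) ≤ 1 / 2 := by
    have h2 := Real.one_sub_div_pow_le_exp_neg (n := 2 * r) (t := 1) (by push_cast; linarith)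
    push_cast at h2
    refine h2.trans ?_
    rw [Real.exp_neg, inv_eq_one_div]
    exact one_div_le_one_div_of_le two_pos (by linarith [Real.add_one_le_exp (1 : ℝ)])
  have h3 : (h : ℝ) < 2 ^ L := by exact_mod_cast hh
  calc (h : ℝ) * (1 - 1 / (2 * r)) ^ (2 * r * L) ≤ h * (1 / 2) ^ L := by
        rw [pow_mul]
        exact mul_le_mul_of_nonneg_left (pow_le_pow_left₀ (pow_nonneg hx _) h1 L) (by positivity)
    _ < 2 ^ L * (1 / 2) ^ L := mul_lt_mul_of_pos_right h3 (by positivity)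
    _ = 1 := by rw [← mul_pow]; norm_num

open Classical in
theorem phase (hG : ∀ v, ¬ G v v) {B W : Finset V} (hW : ∀ v, v ∈ W ↔ ∃ Q, QK G B Q ∧ v ∈ Q)
    {r L : ℕ} (hr : 1 ≤ r) (hB : ∀ Q, QK G B Q → Q.card < r) (hL : B.card < 2 ^ L)
    {Y : Finset V} (hY : Rem G B Y) :
    ∃ Y', Step G B Y Y' (2 * r * L + 1) ∧ 2 * (W ∩ Y').card ≤ (W ∩ Y).card := by
  obtain ⟨Y₁, h1, h2⟩ := kill_hubs (fun v hv => (hW v).1 hv) hr (2 * r * L) Y le_rfl
    (pow_bound hr (lt_of_le_of_lt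
      (card_le_card ((filter_subset _ _).trans (inter_subset_right.trans hY.1))) hL))
  obtain ⟨Q₁, hQ₁, hmax⟩ := exists_max_qk hG Y₁
  obtain ⟨Q, hQ, hQB⟩ := (hY.trans h1.1).2 Q₁ hQ₁
  refine ⟨Y₁ \ cl G Q₁, h1.trans (step_pick hQB hQ hQ₁.sub), ?_⟩
  have h3 : W ∩ (Y₁ \ cl G Q₁) ⊆ Q₁.biUnion fun q => (W ∩ Y₁).filter fun v => G v q := by
    intro v hv
    obtain ⟨hv1, hv2⟩ := mem_inter.1 hv
    obtain ⟨hv2, hv3⟩ := mem_sdiff.1 hv2
    obtain ⟨q, hq, hvq⟩ := (hmax v hv2).resolve_left hv3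
    exact mem_biUnion.2 ⟨q, hq, mem_filter.2 ⟨mem_inter.2 ⟨hv1, hv2⟩, hvq⟩⟩
  have h4 : ∀ q ∈ Q₁, 2 * r * ((W ∩ Y₁).filter fun v => G v q).card ≤ (W ∩ Y).card := by
    intro q hq
    by_contra hc
    have : q ∈ hub G W Y₁ r (W ∩ Y).card :=
      mem_filter.2 ⟨mem_inter.2 ⟨(hW q).2 ⟨Q, hQB, hQ hq⟩, hQ₁.sub hq⟩, not_le.1 hc⟩
    rw [h2] at this
    exact notMem_empty _ this
  have h5 := (card_le_card h3).trans card_biUnion_le
  have h6 := sum_le_sum h4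
  rw [← mul_sum, sum_const, smul_eq_mul] at h6
  have h7 : Q₁.card ≤ r := (card_le_card hQ).trans (hB Q hQB).le
  have h8 := Nat.mul_le_mul_left (2 * r) h5
  have h9 := Nat.mul_le_mul_right (W ∩ Y).card h7
  refine Nat.le_of_mul_le_mul_left (?_ : r * _ ≤ r * _) hr
  calc r * (2 * (W ∩ (Y₁ \ cl G Q₁)).card) = 2 * r * (W ∩ (Y₁ \ cl G Q₁)).card := by ring
    _ ≤ _ := h8.trans (h6.trans h9)

theorem stage_two (hG : ∀ v, ¬ G v v) {B : Finset V} {r L : ℕ} (hr : 1 ≤ r)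
    (hB : ∀ Q, QK G B Q → Q.card < r) (hL : B.card < 2 ^ L) :
    Cov G B B (L * (2 * r * L + 1)) := by
  classical
  obtain ⟨W, hW⟩ : ∃ W : Finset V, ∀ v, v ∈ W ↔ ∃ Q, QK G B Q ∧ v ∈ Q :=
    ⟨univ.filter fun v => ∃ Q, QK G B Q ∧ v ∈ Q, fun v => by simp⟩
  have key : ∀ j : ℕ, ∀ Y, Rem G B Y → (W ∩ Y).card < 2 ^ j →
      Cov G B Y (j * (2 * r * L + 1)) := by
    intro j
    induction j with
    | zero =>
      intro Y hY h
      obtain ⟨Q', hQ'⟩ := exists_qk hG Y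
      obtain ⟨Q, h1, h2⟩ := hY.2 Q' hQ'
      have h3 : W ∩ Y = ∅ := card_eq_zero.1 (by omega)
      have h4 : Q' = ∅ := subset_empty.1 (h3 ▸ subset_inter
        (fun v hv => (hW v).2 ⟨Q, h2, h1 hv⟩) hQ'.sub)
      refine (cov_empty B).mono (fun v hv => ?_) (by simp)
      have := hQ'.dom hv
      simp [h4, mem_cl] at this
    | succ j ih =>
      intro Y hY h
      obtain ⟨Y', h1, h2⟩ := phase hG hW hr hB hL hY
      refine (h1.2.union (ih Y' (hY.trans h1.1) (by omega))).mono (fun v hv => ?_)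
        (le_of_eq (by ring))
      by_cases hv' : v ∈ Y'
      · exact mem_union_right _ hv'
      · exact mem_union_left _ (mem_sdiff.2 ⟨hv, hv'⟩)
  exact key L B (Rem.refl B) (lt_of_le_of_lt (card_le_card inter_subset_right) hL)

theorem log_pow_four_le {N : ℕ} (hN : 1 ≤ N) : (Nat.log 2 N + 1) ^ 4 ≤ 64 * N := by
  have h1 : ∀ j : ℕ, (j + 1) ^ 4 ≤ 64 * 2 ^ j := by
    intro j
    induction j with
    | zero => norm_num
    | succ j ih =>
      rcases lt_or_ge j 6 with h | h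
      · interval_cases j <;> norm_num
      · have : (j + 1 + 1) ^ 4 ≤ 2 * (j + 1) ^ 4 := by
          obtain ⟨i, rfl⟩ := Nat.exists_eq_add_of_le h
          ring_nf
          omega
        rw [pow_succ 2 j]
        omega
  exact (h1 _).trans (Nat.mul_le_mul_left _ (Nat.pow_log_le_self 2 (by omega)))

/-- The cover theorem. -/
theorem cover (hG : ∀ v, ¬ G v v) (Y : Finset V) (hY : 1 ≤ Y.card) :
    ∃ u : ℕ, 1 ≤ u ∧ u ^ 3 ≤ 8 * Y.card * (Nat.log 2 Y.card + 1) ^ 2 ∧ Cov G Y Y (17 * u) := by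
  obtain ⟨N, hN⟩ : ∃ N, N = Y.card := ⟨_, rfl⟩
  obtain ⟨L, hL⟩ : ∃ L, L = Nat.log 2 N + 1 := ⟨_, rfl⟩
  rw [← hN, ← hL]
  rw [← hN] at hY
  have hL1 : 1 ≤ L := by omega
  have hL2 : 0 < L ^ 2 := by positivity
  have hex : ∃ u : ℕ, N * L ^ 2 ≤ u ^ 3 := ⟨N * L ^ 2, Nat.le_self_pow (by norm_num) _⟩
  obtain ⟨u, hu1, hu2⟩ : ∃ u : ℕ, N * L ^ 2 ≤ u ^ 3 ∧ u ^ 3 ≤ 8 * N * L ^ 2 := by
    refine ⟨Nat.find hex, Nat.find_spec hex, ?_⟩
    have hpos : 1 ≤ N * L ^ 2 := Nat.mul_pos hY hL2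
    rcases le_or_gt (Nat.find hex) 1 with h | h
    · calc Nat.find hex ^ 3 ≤ 1 ^ 3 := Nat.pow_le_pow_left h 3
        _ ≤ _ := by rw [mul_assoc]; omega
    · have h1 := Nat.find_min hex (m := Nat.find hex - 1) (by omega)
      calc Nat.find hex ^ 3 ≤ (2 * (Nat.find hex - 1)) ^ 3 := Nat.pow_le_pow_left (by omega) 3
        _ ≤ _ := by rw [mul_pow, mul_assoc]; omega
  have hu0 : 1 ≤ u := by
    rcases Nat.eq_zero_or_pos u with rfl | h
    · have : 0 < N * L ^ 2 := Nat.mul_pos hY hL2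
      omega
    · exact h
  have hLu : L ^ 2 ≤ 4 * u := by
    refine (Nat.pow_le_pow_iff_left (n := 3) (by norm_num)).1 ?_
    have h1 := log_pow_four_le hY
    rw [← hL] at h1
    calc (L ^ 2) ^ 3 = L ^ 4 * L ^ 2 := by ring
      _ ≤ 64 * N * L ^ 2 := Nat.mul_le_mul_right _ h1
      _ ≤ (4 * u) ^ 3 := by rw [mul_pow, mul_assoc]; omega
  obtain ⟨r, hr⟩ : ∃ r, r = u / L ^ 2 + 1 := ⟨_, rfl⟩
  have hr1 : 1 ≤ r := hr ▸ Nat.le_add_left _ _
  have hr2 : u ≤ r * L ^ 2 := by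
    rw [hr, mul_comm]; exact (Nat.lt_mul_div_succ u hL2).le
  have hr3 : r * L ^ 2 ≤ 5 * u := by
    have := Nat.div_mul_le_self u (L ^ 2)
    rw [hr, add_mul]
    omega
  refine ⟨u, hu0, hu2, ?_⟩
  obtain ⟨Y₁, t₀, s0, ht₀, h1⟩ := stage_zero (G := G) (k := u * r) (Nat.mul_pos hu0 hr1) Y
  obtain ⟨Y₂, t₁, s1, ht₁, h2⟩ := stage_one hG hr1 _ Y₁ h1
  have s01 := s0.trans (s1.lift s0.1)
  have h3 := (stage_two hG (L := L) hr1 h2 (lt_of_le_of_lt (card_le_card s01.1.1) (by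
    rw [← hN, hL]; exact Nat.lt_pow_succ_log_self (by norm_num) _))).lift s01.1
  have h4 : t₀ ≤ u := by
    rw [← hN] at ht₀
    refine Nat.le_of_mul_le_mul_right (?_ : _ * u ^ 2 ≤ _ * u ^ 2) (by positivity)
    calc t₀ * u ^ 2 = t₀ * u * u := by ring
      _ ≤ t₀ * u * (r * L ^ 2) := Nat.mul_le_mul_left _ hr2
      _ = t₀ * (u * r) * L ^ 2 := by ring
      _ ≤ N * L ^ 2 := Nat.mul_le_mul_right _ ht₀
      _ ≤ u * u ^ 2 := by rw [← pow_succ']; exact hu1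
  have h5 : t₁ ≤ u := Nat.le_of_mul_le_mul_right ht₁ hr1
  have h6 : L * (2 * r * L + 1) ≤ 15 * u := by
    have : L ≤ r * L ^ 2 := by nlinarith
    nlinarith
  refine (s01.2.union h3).mono (fun v hv => ?_) (by omega)
  by_cases hv' : v ∈ Y₂
  · exact mem_union_right _ hv'
  · exact mem_union_left _ (mem_sdiff.2 ⟨hv, hv'⟩)

end Pool.Agent.Lib.MP_cbd9f1_co
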