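import Pool.Agent.Lib.MP_cbd9f1_co.Sperner

/-! An equilibrium point on the simplex: the support consists of best replies. -/

namespace Pool.Agent.Lib.MP_cbd9f1_co

open Filter Topology

theorem equil (k : ℕ) (Φ : (Fin (k + 1) → ℝ) → Fin (k + 1) → ℝ)
    (hΦ : ∀ i, Continuous fun x => Φ x i) :
    ∃ μ ∈ stdSimplex ℝ (Fin (k + 1)), ∀ i j, μ j ≠ 0 → Φ μ i ≤ Φ μ j := by
  classical
  have hl : ∀ x : Fin (k + 1) → ℝ, ∃ i : Fin (k + 1), x ∈ stdSimplex ℝ (Fin (k + 1)) →
      x i ≠ 0 ∧ ∀ j, x j ≠ 0 → Φ x i ≤ Φ x j := by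
    intro x
    by_cases hx : x ∈ stdSimplex ℝ (Fin (k + 1))
    · have hne : (Finset.univ.filter fun j => x j ≠ 0).Nonempty := by
        by_contra h
        rw [Finset.not_nonempty_iff_eq_empty, Finset.filter_eq_empty_iff] at h
        have h1 := hx.2
        rw [Finset.sum_eq_zero (fun j hj => by simpa using h hj)] at h1
        exact zero_ne_one h1
      obtain ⟨i, hi, hmin⟩ := Finset.exists_min_image _ (fun j => Φ x j) hne
      exact ⟨i, fun _ => ⟨by simpa using hi, fun j hj => hmin j (by simpa using hj)⟩⟩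
    · exact ⟨0, fun h => absurd h hx⟩
  choose l hl using hl
  set r : ℝ := ((k + 1 : ℕ) : ℝ) / ((k + 1 : ℕ) + 1) with hr
  have hN : ∀ N : ℕ, ∃ y : Fin (k + 1) → (Fin (k + 1) → ℝ),
      (∀ i, y i ∈ stdSimplex ℝ (Fin (k + 1))) ∧ (∀ i, l (y i) = i) ∧
        ∀ i j, dist (y i) (y j) ≤ r ^ N * 1 := by
    intro N
    have h1 := Sp.sperner k N (fun x => (l x : ℕ)) (fun x hx => ⟨l x, rfl, (hl x hx).1⟩)
    by_contra hcon
    have h0 := Sp.cnt_eq_zero k N (L := fun x => (l x : ℕ)) (by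
      intro s hs
      by_contra h2
      apply hcon
      have h3 : ∀ i : Fin (k + 1), ∃ x ∈ s, l x = i := by
        intro i
        by_contra h4
        apply h2
        refine ⟨i, i.2, fun x hx h5 => h4 ⟨x, hx, Fin.ext h5⟩⟩
      choose y hy1 hy2 using h3
      exact ⟨y, fun i => hs.2.1 _ (hy1 i), hy2, fun i j => hs.2.2 _ (hy1 i) _ (hy1 j)⟩)
    rw [h0] at h1
    exact zero_ne_one h1
  choose y hy1 hy2 hy3 using hN
  obtain ⟨μ, hμ, φ, hφ, hlim⟩ :=
    (isCompact_stdSimplex ℝ (Fin (k + 1))).tendsto_subseq (fun N => hy1 N 0)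
  have hr0 : 0 ≤ r := by rw [hr]; positivity
  have hr1 : r < 1 := by
    rw [hr, div_lt_one (by positivity)]; linarith
  have hpow : Tendsto (fun N => r ^ (φ N) * 1) atTop (𝓝 0) := by
    simp only [mul_one]
    exact (tendsto_pow_atTop_nhds_zero_of_lt_one hr0 hr1).comp hφ.tendsto_atTop
  have hlim' : ∀ i, Tendsto (fun N => y (φ N) i) atTop (𝓝 μ) := by
    intro i
    refine hlim.congr_dist ?_
    exact squeeze_zero (fun N => dist_nonneg) (fun N => hy3 (φ N) 0 i) hpow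
  refine ⟨μ, hμ, fun i j hj => ?_⟩
  have h1 : ∀ᶠ N in atTop, y (φ N) i j ≠ 0 :=
    (((continuous_apply j).tendsto μ).comp (hlim' i)).eventually_ne hj
  refine le_of_tendsto_of_tendsto (((hΦ i).tendsto μ).comp (hlim' i))
    (((hΦ j).tendsto μ).comp (hlim' i)) ?_
  filter_upwards [h1] with N hN
  have := (hl _ (hy1 (φ N) i)).2 j hN
  rw [hy2] at this
  exact this

end Pool.Agent.Lib.MP_cbd9f1_co
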