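import Pool.Agent.Lib.MP_cbd9f1_co.PerfC

/-! Fractional covers by kernel-perfect sets. -/

namespace Pool.Agent.Lib.MP_cbd9f1_co.Pf

open Finset Classical

variable {V : Type*} {A : V → V → Prop}

/-- Every subset of `B` has a kernel. -/
def KP (A : V → V → Prop) (B : Finset V) : Prop :=
  ∀ t ⊆ B, ∃ K ⊆ t, (∀ x ∈ K, ∀ y ∈ K, ¬ A x y) ∧ ∀ u ∈ t, u ∉ K → ∃ q ∈ K, A q u

lemma KP.mono {B B' : Finset V} (h : KP A B) (h' : B' ⊆ B) : KP A B' :=
  fun t ht => h t (ht.trans h')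

lemma frac_ext {D B Q₁ : Finset V} (hB : B ⊆ D) (hK : KP A B)
    (h : QK A (D.filter fun v => v ∉ B ∧ ¬ ∃ b ∈ B, A b v) Q₁) :
    ∃ Q, QK A D Q ∧ ∀ b ∈ B, b ∈ Q ∨ ∃ q ∈ Q, A q b := by
  obtain ⟨h1, h2, h3⟩ := h
  obtain ⟨K, k1, k2, k3⟩ := hK (B.filter fun b => ¬ ∃ q ∈ Q₁, A q b) (filter_subset _ _)
  have hc : ∀ b ∈ B, b ∈ Q₁ ∪ K ∨ ∃ q ∈ Q₁ ∪ K, A q b := fun b hb => by
    by_cases e : ∃ q ∈ Q₁, A q b
    · obtain ⟨q, e1, e2⟩ := e
      exact .inr ⟨q, mem_union_left _ e1, e2⟩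
    by_cases e' : b ∈ K
    · exact .inl (mem_union_right _ e')
    · obtain ⟨q, e1, e2⟩ := k3 b (mem_filter.2 ⟨hb, e⟩) e'
      exact .inr ⟨q, mem_union_right _ e1, e2⟩
  refine ⟨Q₁ ∪ K, ⟨union_subset (h1.trans (filter_subset _ _))
    ((k1.trans (filter_subset _ _)).trans hB), fun u hu v hv huv => ?_, fun v hv => ?_⟩, hc⟩
  · rcases mem_union.1 hu with hu | hu <;> rcases mem_union.1 hv with hv | hv
    · exact h2 u hu v hv huv
    · exact (mem_filter.1 (k1 hv)).2 ⟨u, hu, huv⟩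
    · exact (mem_filter.1 (h1 hv)).2.2 ⟨u, (mem_filter.1 (k1 hu)).1, huv⟩
    · exact k2 u hu v hv huv
  · by_cases e : v ∈ B
    · exact (hc v e).imp_right .inl
    by_cases e' : ∃ b ∈ B, A b v
    · obtain ⟨b, e1, e2⟩ := e'
      rcases hc b e1 with e3 | e3
      · exact .inr (.inl ⟨b, e3, e2⟩)
      · exact .inr (.inr ⟨b, hB e1, e3, e2⟩)
    · exact (h3 v (mem_filter.2 ⟨hv, e, e'⟩)).mono (filter_subset _ _) subset_union_left

lemma frac_qk (hA : ∀ v, ¬ A v v) (D : Finset V) : ∃ Q, QK A D Q := by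
  induction D using Finset.strongInduction with
  | H D ih =>
  rcases D.eq_empty_or_nonempty with rfl | ⟨v, hv⟩
  · exact ⟨∅, Subset.rfl, by simp [Ind], by simp⟩
  obtain ⟨Q₁, h⟩ := ih (D.filter fun u => u ∉ ({v} : Finset V) ∧ ¬ ∃ b ∈ ({v} : Finset V), A b u)
    (filter_ssubset.2 ⟨v, hv, by simp⟩)
  obtain ⟨Q, hQ, -⟩ := frac_ext (singleton_subset_iff.2 hv) (fun t ht => ⟨t, Subset.rfl,
    fun x hx y hy => by
      rw [mem_singleton.1 (ht hx), mem_singleton.1 (ht hy)]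
      exact hA v, fun u h1 h2 => absurd h1 h2⟩) h
  exact ⟨Q, hQ⟩

lemma frac_cover (hA : ∀ v, ¬ A v v) (D : Finset V) {B : Finset V} (hK : KP A B) :
    ∃ Q, QK A D Q ∧ ∀ b ∈ B, b ∈ D → b ∈ Q ∨ ∃ q ∈ Q, A q b := by
  obtain ⟨Q₁, h⟩ := frac_qk hA (D.filter fun v => v ∉ B ∩ D ∧ ¬ ∃ b ∈ B ∩ D, A b v)
  obtain ⟨Q, h1, h2⟩ := frac_ext inter_subset_right (hK.mono inter_subset_left) h
  exact ⟨Q, h1, fun b k1 k2 => h2 b (mem_inter.2 ⟨k1, k2⟩)⟩

lemma frac_avg {ι : Type*} [Fintype ι] [Nonempty ι] (B : ι → Finset V) {θ : ℝ} (U : Finset V)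
    (p : V → V) (hp : ∀ x ∈ U, θ * Fintype.card ι ≤ (univ.filter fun i => p x ∈ B i).card) :
    ∃ i, θ * U.card ≤ (U.filter fun x => p x ∈ B i).card := by
  refine (exists_le_of_sum_le (s := univ) univ_nonempty ?_).imp fun _ h => h.2
  have h1 : ∑ i, ((U.filter fun x => p x ∈ B i).card : ℝ) =
      ∑ x ∈ U, ((univ.filter fun i => p x ∈ B i).card : ℝ) := by
    simp only [card_filter, Nat.cast_sum]
    exact sum_comm
  rw [h1, sum_const, card_univ, nsmul_eq_mul]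
  refine le_trans (le_of_eq ?_) (card_nsmul_le_sum U _ _ hp)
  rw [nsmul_eq_mul]
  ring

lemma frac_num {θ : ℝ} (hθ : θ ≤ 1 / 2) {P a u₂ e y r c u d : ℕ} (h0 : θ * u ≤ c)
    (h1 : P ≤ a + u₂ + e) (h2 : e ≤ y) (h3 : 2 * a ≤ r) (h4 : u₂ + c ≤ u)
    (h5 : u + 2 * y + r ≤ d) : (P : ℝ) ≤ (1 - θ) * d := by
  have r1 : (P : ℝ) ≤ a + u₂ + y := by exact_mod_cast h1.trans (Nat.add_le_add_left h2 _)
  have r2 : (2 * a : ℝ) ≤ r := by exact_mod_cast h3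
  have r3 : (u₂ : ℝ) + c ≤ u := by exact_mod_cast h4
  have r4 : (u : ℝ) + 2 * y + r ≤ d := by exact_mod_cast h5
  have r5 : (0 : ℝ) ≤ (1 / 2 - θ) * (2 * y + r) := mul_nonneg (by linarith) (by positivity)
  have r6 := mul_le_mul_of_nonneg_left r4 (by linarith : (0 : ℝ) ≤ 1 - θ)
  nlinarith

lemma frac_small [Fintype V] (hA : ∀ v, ¬ A v v) {ι : Type*} [Fintype ι] [Nonempty ι]
    {B : ι → Finset V} (hB : ∀ i, KP A (B i)) {θ : ℝ} (hθ : θ ≤ 1 / 2) (D : Finset V)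
    (T : V → Prop) (hT : ∀ v ∈ D, ¬ T v → ∃ y ∈ D, A y v ∧
      θ * Fintype.card ι ≤ (univ.filter fun i => y ∈ B i).card) :
    ∃ Q ⊆ D, Ind A Q ∧ (∀ v ∈ D, T v ∨ Rch A D Q v) ∧ (Q.card : ℝ) ≤ (1 - θ) * D.card := by
  obtain ⟨X, hXD, hXi, hR, m, hm1, hm2⟩ := crown (A := A) D
  set Y := D.filter fun y => ∃ x ∈ X, A x y ∨ A y x with hY
  set R := D.filter fun z => z ∉ X ∧ ¬ ∃ x ∈ X, A x z ∨ A z x with hRdef
  choose! p hp1 hp2 hp3 using hT
  set U := (X \ Y.image m).filter fun x => ¬ T x with hU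
  have hUD : ∀ x ∈ U, x ∈ D ∧ ¬ T x := fun x hx =>
    ⟨hXD (mem_sdiff.1 (mem_filter.1 hx).1).1, (mem_filter.1 hx).2⟩
  obtain ⟨i, hi⟩ := frac_avg B U p fun x hx => hp3 x (hUD x hx).1 (hUD x hx).2
  obtain ⟨Q, ⟨hQD, hQi, hQr⟩, hw⟩ := frac_cover hA D (hB i)
  set U2 := U.filter fun x => ∀ y ∈ D, A y x → y ∉ Q ∧ ¬ ∃ q ∈ Q, A q y with hU2
  have hU2c : U2.card + (U.filter fun x => p x ∈ B i).card ≤ U.card := by
    rw [← card_union_of_disjoint]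
    · exact card_le_card (union_subset (filter_subset _ _) (filter_subset _ _))
    · refine disjoint_left.2 fun x h1 h2 => ?_
      obtain ⟨h3, h4⟩ := hUD x (mem_filter.1 h1).1
      obtain ⟨h5, h6⟩ := (mem_filter.1 h1).2 _ (hp1 x h3 h4) (hp2 x h3 h4)
      exact (hw _ (mem_filter.1 h2).2 (hp1 x h3 h4)).elim h5 h6
  set drop : V → Prop := fun x => x ∈ X ∧ (T x ∨ ∃ w ∈ D, (∃ q ∈ Q, A q w) ∧ A w x) with hdrop
  obtain ⟨P, hP, hPmin⟩ := exists_min_image (Q.powerset.filter fun P =>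
    (∀ q ∈ Q, ¬ drop q → q ∈ P) ∧ ∀ v ∈ D, (∃ q ∈ Q, A q v) → ∃ q ∈ P, A q v) card
    ⟨Q, mem_filter.2 ⟨mem_powerset_self _, fun q hq _ => hq, fun v _ h => h⟩⟩
  simp only [mem_filter, mem_powerset, and_imp] at hP hPmin
  obtain ⟨hPQ, hP1, hP2⟩ := hP
  have hpriv : ∀ x, ∃ y, x ∈ P → drop x →
      y ∈ D ∧ A x y ∧ ∀ q ∈ P, A q y → q = x := by
    intro x
    by_cases h : x ∈ P ∧ drop x
    · by_contra hcon
      push Not at hcon
      have := hPmin (P.erase x) ((erase_subset _ _).trans hPQ)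
        (fun q hq hd => mem_erase.2 ⟨fun e => hd (e ▸ h.2), hP1 q hq hd⟩) (by
          intro v hv h1
          obtain ⟨q, h2, h3⟩ := hP2 v hv h1
          by_cases e : q = x
          · obtain ⟨q', h4, h5, h6⟩ := (hcon v).2.2 hv (e ▸ h3)
            exact ⟨q', mem_erase.2 ⟨h6, h4⟩, h5⟩
          · exact ⟨q, mem_erase.2 ⟨e, h2⟩, h3⟩)
      have h2 := card_erase_lt_of_mem h.1
      omega
    · exact ⟨x, fun h1 h2 => absurd ⟨h1, h2⟩ h⟩
  choose pr hpr using hpriv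
  have hPi : Ind A P := fun u hu v hv => hQi u (hPQ hu) v (hPQ hv)
  refine ⟨P, hPQ.trans hQD, hPi, ?_, ?_⟩
  · intro v hv
    rcases hQr v hv with h | h | ⟨w, h1, h2, h3⟩
    · by_cases e : drop v
      · rcases e.2 with e | ⟨w, h1, h2, h3⟩
        · exact Or.inl e
        · exact Or.inr (Or.inr (Or.inr ⟨w, h1, hP2 w h1 h2, h3⟩))
      · exact Or.inr (Or.inl (hP1 v h e))
    · exact Or.inr (Or.inr (Or.inl (hP2 v hv h)))
    · exact Or.inr (Or.inr (Or.inr ⟨w, h1, hP2 w h1 h2, h3⟩))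
  have hXY : ∀ x ∈ X, x ∉ Y := by
    intro x hx h
    obtain ⟨-, x', h1, h2 | h2⟩ := mem_filter.1 h
    · exact hXi x' h1 x hx h2
    · exact hXi x hx x' h1 h2
  have hR' := hR (P.filter (· ∈ R)) ((filter_subset _ _).trans (hPQ.trans hQD))
    (fun u hu v hv => hPi u (mem_filter.1 hu).1 v (mem_filter.1 hv).1)
    (fun z hz => (mem_filter.1 (mem_filter.1 hz).2).2)
  set E := P.filter fun z => z ∉ R ∧ z ∉ U2 with hE
  have hinv : ∀ z, ∃ y, z ∈ E → y ∈ Y ∧ (y = z ∨ (y ∉ Q ∧ ∀ q ∈ P, A q y → q = z) ∧ A z y ∧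
      drop z ∨ y ∉ Q ∧ ¬ drop z ∧ m y = z ∧ z ∈ X) := by
    intro z
    by_cases hz : z ∈ E
    swap
    · exact ⟨z, fun h => absurd h hz⟩
    obtain ⟨h1, h2, h3⟩ := mem_filter.1 hz
    have hzD := hQD (hPQ h1)
    by_cases e1 : z ∈ Y
    · exact ⟨z, fun _ => ⟨e1, Or.inl rfl⟩⟩
    have hzX : z ∈ X := by
      by_contra h
      exact h2 (mem_filter.2 ⟨hzD, h, fun h' => e1 (mem_filter.2 ⟨hzD, h'⟩)⟩)
    by_cases e2 : drop z
    · obtain ⟨h4, h5, h6⟩ := hpr z h1 e2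
      exact ⟨pr z, fun _ => ⟨mem_filter.2 ⟨h4, z, hzX, Or.inl h5⟩,
        Or.inr (Or.inl ⟨⟨fun h => hQi z (hPQ h1) _ h h5, h6⟩, h5, e2⟩)⟩⟩
    have e3 : ¬ T z := fun h => e2 ⟨hzX, Or.inl h⟩
    have e4 : z ∈ Y.image m := by
      by_contra h
      have hzU : z ∈ U := mem_filter.2 ⟨mem_sdiff.2 ⟨hzX, h⟩, e3⟩
      exact h3 (mem_filter.2 ⟨hzU, fun y h4 h5 => ⟨fun h => hQi _ h z (hPQ h1) h5,
        fun h => e2 ⟨hzX, Or.inr ⟨_, h4, h, h5⟩⟩⟩⟩)
    obtain ⟨y, h4, h5⟩ := mem_image.1 e4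
    refine ⟨y, fun _ => ⟨h4, Or.inr (Or.inr ⟨fun h => ?_, e2, h5, hzX⟩)⟩⟩
    have h6 := (hm2 y (mem_filter.1 h4).1 (mem_filter.1 h4).2).2
    rw [h5] at h6
    rcases h6 with h6 | h6
    · exact hQi z (hPQ h1) y h h6
    · exact hQi y h z (hPQ h1) h6
  choose φ hφ using hinv
  have key : ∀ z ∈ E, ∀ z' ∈ E, φ z = φ z' → A z (φ z) → (∀ q ∈ P, A q (φ z) → q = z) →
      ¬ drop z' → m (φ z') = z' → z' ∈ X → z = z' := by
    intro z hz z' hz' h h1 h2 h3 h4 h5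
    have h6 := mem_filter.1 (hφ z' hz').1
    have h7 := (hm2 _ h6.1 h6.2).2
    rw [h4] at h7
    rcases h7 with h7 | h7
    · exact (h2 z' (mem_filter.1 hz').1 (h ▸ h7)).symm
    · exact absurd ⟨h5, Or.inr ⟨_, h6.1, ⟨z, hPQ (mem_filter.1 hz).1, h ▸ h1⟩, h7⟩⟩ h3
  have hEc : E.card ≤ Y.card := by
    refine card_le_card_of_injOn φ (fun z hz => (hφ z hz).1) ?_
    intro z hz z' hz' h
    have hzQ := hPQ (mem_filter.1 hz).1
    have hzQ' := hPQ (mem_filter.1 hz').1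
    rcases (hφ z hz).2 with h1 | h1 | h1 <;> rcases (hφ z' hz').2 with h2 | h2 | h2
    · rw [← h1, ← h2, h]
    · exact absurd (by rw [← h, h1]; exact hzQ) h2.1.1
    · exact absurd (by rw [← h, h1]; exact hzQ) h2.1
    · exact absurd (by rw [h, h2]; exact hzQ') h1.1.1
    · exact h2.1.2 z (mem_filter.1 hz).1 (h ▸ h1.2.1)
    · exact key z hz z' hz' h h1.2.1 h1.1.2 h2.2.1 h2.2.2.1 h2.2.2.2
    · exact absurd (by rw [h, h2]; exact hzQ') h1.1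
    · exact (key z' hz' z hz h.symm h2.2.1 h2.1.2 h1.2.1 h1.2.2.1 h1.2.2.2).symm
    · rw [← h1.2.2.1, ← h2.2.2.1, h]
  have hc1 : P.card ≤ (P.filter (· ∈ R)).card + U2.card + E.card := by
    refine le_trans (card_le_card (t := P.filter (· ∈ R) ∪ U2 ∪ E) ?_)
      ((card_union_le _ _).trans (Nat.add_le_add_right (card_union_le _ _) _))
    intro z hz
    by_cases e1 : z ∈ R
    · exact mem_union_left _ (mem_union_left _ (mem_filter.2 ⟨hz, e1⟩))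
    by_cases e2 : z ∈ U2
    · exact mem_union_left _ (mem_union_right _ e2)
    · exact mem_union_right _ (mem_filter.2 ⟨hz, e1, e2⟩)
  have hc2 : U.card + Y.card ≤ X.card := by
    have h1 : Y.image m ⊆ X := by
      intro x hx
      obtain ⟨y, hy, rfl⟩ := mem_image.1 hx
      exact (hm2 y (mem_filter.1 hy).1 (mem_filter.1 hy).2).1
    have h2 := card_sdiff_add_card_eq_card h1
    have h3 := card_image_of_injOn hm1
    have h4 : U.card ≤ (X \ Y.image m).card := card_filter_le _ _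
    omega
  have hc3 : X.card + Y.card + R.card ≤ D.card := by
    rw [← card_union_of_disjoint (disjoint_left.2 hXY), ← card_union_of_disjoint]
    · exact card_le_card (union_subset (union_subset hXD (filter_subset _ _)) (filter_subset _ _))
    · refine disjoint_right.2 fun z hz h => ?_
      rcases mem_union.1 h with h | h
      · exact (mem_filter.1 hz).2.1 h
      · exact (mem_filter.1 hz).2.2 (mem_filter.1 h).2
  exact frac_num hθ hi hc1 hEc hR' hU2c (by omega)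

lemma frac_all {V : Type} [Fintype V] (G : Digraph V) (hA : ∀ v, ¬ G.Adj v v) {ι : Type*}
    [Fintype ι] [Nonempty ι] {B : ι → Finset V} (hB : ∀ i, KP G.Adj (B i)) {θ : ℝ}
    (hθ : θ ≤ 1 / 2) (hp : ∀ u v, G.Adj u v → ∃ y, G.Adj y v ∧
      θ * Fintype.card ι ≤ (univ.filter fun i => y ∈ B i).card)
    (S N : Finset V) (hS : ∀ v : V, v ∈ S ↔ ∀ u : V, ¬ G.Adj u v)
    (hN : ∀ w : V, w ∈ N ↔ ∃ s ∈ S, G.Adj s w) :
    ∃ Q : Finset V,
      (∀ u ∈ Q, ∀ v ∈ Q, ¬ G.Adj u v) ∧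
      (∀ v : V, v ∉ Q → ∃ q ∈ Q, G.Adj q v ∨ ∃ w : V, G.Adj q w ∧ G.Adj w v) ∧
      (Q.card : ℝ) ≤ S.card + (1 - θ) * (Fintype.card V - S.card - N.card) := by
  have hSN : Disjoint S N := disjoint_left.2 fun v h1 h2 => by
    obtain ⟨s, -, h3⟩ := (hN v).1 h2
    exact (hS v).1 h1 s h3
  obtain ⟨Q, h1, h2, h3, h4⟩ := frac_small hA hB hθ (univ \ (S ∪ N))
    (fun v => ∃ y ∈ N, G.Adj y v) (by
      intro v hv hT
      simp only [mem_sdiff, mem_univ, true_and, mem_union, not_or] at hv ⊢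
      have h5 := hv.1
      rw [hS] at h5
      push Not at h5
      obtain ⟨u, hu⟩ := h5
      obtain ⟨y, hy, hy'⟩ := hp u v hu
      exact ⟨y, ⟨fun h => hv.2 ((hN v).2 ⟨y, h, hy⟩), fun h => hT ⟨y, h, hy⟩⟩, hy, hy'⟩)
  have h5 : ∀ q ∈ Q, q ∉ S ∧ q ∉ N := fun q hq => by simpa using h1 hq
  refine ⟨S ∪ Q, ?_, ?_, ?_⟩
  · intro u hu v hv huv
    rcases mem_union.1 hv with hv | hv
    · exact (hS v).1 hv u huv
    rcases mem_union.1 hu with hu | hu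
    · exact (h5 v hv).2 ((hN v).2 ⟨u, hu, huv⟩)
    · exact h2 u hu v hv huv
  · intro v hv
    rw [mem_union, not_or] at hv
    by_cases e : v ∈ N
    · obtain ⟨s, h6, h7⟩ := (hN v).1 e
      exact ⟨s, mem_union_left _ h6, Or.inl h7⟩
    rcases h3 v (by simp [hv.1, e]) with ⟨y, h6, h7⟩ | h6 | ⟨q, h6, h7⟩ | ⟨w, -, ⟨q, h6, h7⟩, h8⟩
    · obtain ⟨s, h8, h9⟩ := (hN y).1 h6
      exact ⟨s, mem_union_left _ h8, Or.inr ⟨y, h9, h7⟩⟩
    · exact absurd h6 hv.2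
    · exact ⟨q, mem_union_right _ h6, Or.inl h7⟩
    · exact ⟨q, mem_union_right _ h6, Or.inr ⟨w, h7, h8⟩⟩
  · have h6 : ((S ∪ Q).card : ℝ) ≤ S.card + Q.card := by exact_mod_cast card_union_le S Q
    have h7 := card_sdiff_add_card_eq_card (subset_univ (S ∪ N))
    rw [card_union_of_disjoint hSN, card_univ] at h7
    have h8 : ((univ \ (S ∪ N)).card : ℝ) = Fintype.card V - S.card - N.card := by
      rw [← h7]
      push_cast
      ring
    rw [← h8]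
    linarith

/-- A union of two independent sets is kernel-perfect. -/
lemma kp_union {I J : Finset V} (hI : Ind A I) (hJ : Ind A J) : KP A (I ∪ J) := by
  intro t
  induction t using Finset.strongInduction with
  | H t ih =>
  intro ht
  by_cases h : ∀ u ∈ t, u ∉ I → ∃ q ∈ t, q ∈ I ∧ A q u
  · refine ⟨t.filter (· ∈ I), filter_subset _ _, fun x hx y hy =>
      hI x (mem_filter.1 hx).2 y (mem_filter.1 hy).2, fun u hu hu' => ?_⟩
    obtain ⟨q, h1, h2, h3⟩ := h u hu fun e => hu' (mem_filter.2 ⟨hu, e⟩)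
    exact ⟨q, mem_filter.2 ⟨h1, h2⟩, h3⟩
  push Not at h
  obtain ⟨v, hv, hvI, hn⟩ := h
  have hvJ : v ∈ J := (mem_union.1 (ht hv)).resolve_left hvI
  obtain ⟨K, k1, k2, k3⟩ := ih (t.filter fun u => u ≠ v ∧ ¬ A v u)
    (filter_ssubset.2 ⟨v, hv, by simp⟩) ((filter_subset _ _).trans ht)
  have hs : ∀ q ∈ t, ¬ A q v := fun q hq => (mem_union.1 (ht hq)).elim (hn q hq)
    fun e => hJ q e v hvJ
  refine ⟨insert v K, insert_subset hv (k1.trans (filter_subset _ _)), fun x hx y hy => ?_,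
    fun u hu hu' => ?_⟩
  · rcases mem_insert.1 hy with rfl | hy'
    · exact hs x (insert_subset hv (k1.trans (filter_subset _ _)) hx)
    rcases mem_insert.1 hx with rfl | hx'
    · exact (mem_filter.1 (k1 hy')).2.2
    · exact k2 x hx' y hy'
  · rw [mem_insert, not_or] at hu'
    by_cases e : A v u
    · exact ⟨v, mem_insert_self _ _, e⟩
    · obtain ⟨q, h1, h2⟩ := k3 u (mem_filter.2 ⟨hu, hu'.1, e⟩) hu'.2
      exact ⟨q, mem_insert_of_mem h1, h2⟩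

end Pool.Agent.Lib.MP_cbd9f1_co.Pf
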