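import Mathlib

/-! Perfect vertex sets: weighted colouring and a clique meeting all heaviest independent sets. -/

namespace Pool.Agent.Lib.MP_cbd9f1_co.Pf

open Finset Classical

variable {V : Type*} (A : V → V → Prop)

def Ind (Q : Finset V) : Prop := ∀ u ∈ Q, ∀ v ∈ Q, ¬ A u v

def Clq (C : Finset V) : Prop := ∀ u ∈ C, ∀ v ∈ C, u ≠ v → A u v ∨ A v u

def Perf (X : Finset V) : Prop :=
  ∀ Y ⊆ X, ∀ m : ℕ, (∀ C ⊆ Y, Clq A C → C.card ≤ m) →
    ∃ M : Multiset (Finset V), M.card ≤ m ∧ (∀ S ∈ M, S ⊆ X ∧ Ind A S) ∧ ∀ v ∈ Y, ∃ S ∈ M, v ∈ S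

variable {A}

lemma clq_ind_card {C S : Finset V} (hC : Clq A C) (hS : Ind A S) :
    (C.filter (· ∈ S)).card ≤ 1 := by
  rw [card_le_one]
  intro u hu v hv
  rw [mem_filter] at hu hv
  by_contra h
  rcases hC u hu.1 v hv.1 h with h1 | h1
  · exact hS u hu.2 v hv.2 h1
  · exact hS v hv.2 u hu.2 h1

lemma clq_count {C : Finset V} (hC : Clq A C) (M : Multiset (Finset V))
    (hM : ∀ S ∈ M, Ind A S) : ∑ u ∈ C, M.countP (u ∈ ·) ≤ M.card := by
  induction M using Multiset.induction_on with
  | empty => simp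
  | cons S M ih =>
    have h1 := ih (fun T hT => hM T (Multiset.mem_cons_of_mem hT))
    have h2 := clq_ind_card hC (hM S (Multiset.mem_cons_self _ _))
    simp only [Multiset.countP_cons, sum_add_distrib, Multiset.card_cons]
    rw [card_filter] at h2
    omega

lemma wcol [Fintype V] {X : Finset V} (hX : Perf A X) (n : ℕ) :
    ∀ (W : V → ℕ) (m : ℕ), ∑ v, W v < n → (∀ v, v ∉ X → W v = 0) →
      (∀ C ⊆ X, Clq A C → ∑ v ∈ C, W v ≤ m) →
      ∃ M : Multiset (Finset V), M.card ≤ m ∧ (∀ S ∈ M, S ⊆ X ∧ Ind A S) ∧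
        ∀ v, W v ≤ M.countP (v ∈ ·) := by
  induction n with
  | zero => intro W m h; omega
  | succ n ih =>
    intro W m hn hX0 hC
    by_cases h1 : ∀ v, W v ≤ 1
    · obtain ⟨M, hM1, hM2, hM3⟩ := hX (X.filter fun v => W v ≠ 0) (filter_subset _ _) m (by
        intro C hCs hCc
        refine le_trans ?_ (hC C (hCs.trans (filter_subset _ _)) hCc)
        rw [card_eq_sum_ones]
        refine sum_le_sum fun v hv => ?_
        have := (mem_filter.1 (hCs hv)).2
        omega)
      refine ⟨M, hM1, hM2, fun v => ?_⟩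
      by_cases h2 : W v = 0
      · omega
      · have hv : v ∈ X := by
          by_contra h3
          exact h2 (hX0 v h3)
        obtain ⟨S, hS, hvS⟩ := hM3 v (mem_filter.2 ⟨hv, h2⟩)
        have : 0 < M.countP (v ∈ ·) := Multiset.countP_pos.2 ⟨S, hS, hvS⟩
        have := h1 v
        omega
    · push Not at h1
      obtain ⟨v, hv⟩ := h1
      have hlt : ∀ W' : V → ℕ, (∀ u, W' u ≤ W u) → W' v < W v → ∑ u, W' u < n := by
        intro W' h2 h3
        have := sum_lt_sum (s := univ) (fun u _ => h2 u) ⟨v, mem_univ v, h3⟩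
        omega
      obtain ⟨M, hM1, hM2, hM3⟩ := ih (fun u => if u = v then W u - 1 else W u) m
        (hlt _ (fun u => by split_ifs <;> omega) (by simp only [if_true]; omega))
        (fun u hu => by have := hX0 u hu; split_ifs <;> omega)
        (fun C h2 h3 => le_trans (sum_le_sum fun u _ => by split_ifs <;> omega) (hC C h2 h3))
      have h4 := hM3 v
      simp only [if_true] at h4
      obtain ⟨S, hS, hvS⟩ := Multiset.countP_pos.1 (show 0 < M.countP (v ∈ ·) by omega)
      obtain ⟨M', rfl⟩ := Multiset.exists_cons_of_mem hS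
      rw [Multiset.card_cons] at hM1
      obtain ⟨M2, h5, h6, h7⟩ := ih (fun u => if u ∈ S then W u - 1 else W u) (m - 1)
        (hlt _ (fun u => by split_ifs <;> omega) (by simp only [hvS, if_true]; omega))
        (fun u hu => by have := hX0 u hu; split_ifs <;> omega) (by
          intro C h2 h3
          by_cases hvC : v ∈ C
          · have h8 := sum_lt_sum (s := C) (f := fun u => if u ∈ S then W u - 1 else W u) (g := W)
              (fun u _ => by split_ifs <;> omega) ⟨v, hvC, by simp only [hvS, if_true]; omega⟩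
            have := hC C h2 h3
            omega
          · have h8 := clq_count h3 M' (fun T hT => (hM2 T (Multiset.mem_cons_of_mem hT)).2)
            refine le_trans (sum_le_sum fun u hu => ?_) (h8.trans (by omega))
            have h9 := hM3 u
            have : u ≠ v := fun h => hvC (h ▸ hu)
            simp only [this, if_false, Multiset.countP_cons] at h9
            split_ifs at h9 ⊢ <;> omega)
      refine ⟨S ::ₘ M2, by rw [Multiset.card_cons]; omega, ?_, fun u => ?_⟩
      · intro T hT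
        rcases Multiset.mem_cons.1 hT with rfl | hT
        · exact hM2 _ hS
        · exact h6 T hT
      · have h9 := h7 u
        simp only [Multiset.countP_cons]
        split_ifs at h9 ⊢ <;> omega

lemma count_weight [Fintype V] (β : V → ℝ) (γ : ℝ) (M : Multiset (Finset V))
    (hM : ∀ S ∈ M, ∑ v ∈ S, β v ≤ γ) :
    ∑ v, (M.countP (v ∈ ·) : ℝ) * β v ≤ M.card * γ := by
  induction M using Multiset.induction_on with
  | empty => simp
  | cons S M ih =>
    have h1 := ih (fun T hT => hM T (Multiset.mem_cons_of_mem hT))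
    have h2 := hM S (Multiset.mem_cons_self _ _)
    have h3 : ∑ v, ((if v ∈ S then 1 else 0 : ℕ) : ℝ) * β v = ∑ v ∈ S, β v := by
      simp
    simp only [Multiset.countP_cons, Multiset.card_cons, Nat.cast_add, add_mul, sum_add_distrib,
      h3, Nat.cast_one]
    linarith

lemma clique_meets [Fintype V] {X : Finset V} (hX : Perf A X) (β : V → ℝ) (hβ : ∀ v, 0 ≤ β v)
    (γ : ℝ) (hγ : 0 < γ) (hmax : ∀ I ⊆ X, Ind A I → ∑ v ∈ I, β v ≤ γ) :
    ∃ C ⊆ X, Clq A C ∧ (∀ v ∈ C, 0 < β v) ∧
      ∀ Q ⊆ X, Ind A Q → ∑ v ∈ Q, β v = γ → ∃ c ∈ C, c ∈ Q := by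
  by_contra hcon
  push Not at hcon
  choose! Q hQ1 hQ2 hQ3 hQ4 using hcon
  set K := X.powerset.filter (fun C => Clq A C ∧ ∀ v ∈ C, 0 < β v) with hK
  have hKm : ∀ C, C ∈ K ↔ C ⊆ X ∧ Clq A C ∧ ∀ v ∈ C, 0 < β v := by
    intro C; simp [hK]
  have hK0 : 0 < K.card := card_pos.2 ⟨∅, (hKm _).2 ⟨empty_subset _, by simp [Clq], by simp⟩⟩
  obtain ⟨M, hM1, hM2, hM3⟩ := wcol hX _
    (fun v => if 0 < β v then (K.filter fun C => v ∈ Q C).card else 0) (K.card - 1)
    (Nat.lt_succ_self _) (by
      intro v hv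
      split_ifs
      · rw [card_eq_zero, filter_eq_empty_iff]
        intro C hC h
        obtain ⟨h1, h2, h3⟩ := (hKm C).1 hC
        exact hv (hQ1 C h1 h2 h3 h)
      · rfl) (by
      intro C h1 h2
      rw [← sum_filter]
      set C' := C.filter (fun v => 0 < β v) with hC'
      have hc : Clq A C' := fun u hu v hv => h2 u (mem_filter.1 hu).1 v (mem_filter.1 hv).1
      have hC'K : C' ∈ K := (hKm _).2 ⟨(filter_subset _ _).trans h1, hc,
        fun v hv => (mem_filter.1 hv).2⟩
      simp only [card_filter]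
      rw [sum_comm, ← add_sum_erase _ _ hC'K]
      obtain ⟨h3, h4, h5⟩ := (hKm _).1 hC'K
      rw [sum_eq_zero (fun v hv => if_neg (hQ4 C' h3 h4 h5 v hv)), zero_add,
        ← card_erase_of_mem hC'K, card_eq_sum_ones]
      refine sum_le_sum fun D hD => ?_
      obtain ⟨h6, h7, h8⟩ := (hKm _).1 (mem_of_mem_erase hD)
      rw [← card_filter]
      exact clq_ind_card hc (hQ2 D h6 h7 h8))
  have h1 := count_weight β γ M (fun S hS => hmax S (hM2 S hS).1 (hM2 S hS).2)
  have h2 : (K.card : ℝ) * γ ≤ ∑ v, (M.countP (v ∈ ·) : ℝ) * β v := by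
    have h3 : (K.card : ℝ) * γ = ∑ C ∈ K, ∑ v, if v ∈ Q C then β v else 0 := by
      rw [← nsmul_eq_mul, ← sum_const]
      refine sum_congr rfl fun C hC => ?_
      obtain ⟨h6, h7, h8⟩ := (hKm _).1 hC
      rw [← hQ3 C h6 h7 h8, ← sum_filter]
      simp
    rw [h3, sum_comm]
    refine sum_le_sum fun v _ => ?_
    rw [← sum_filter, sum_const, nsmul_eq_mul]
    rcases (hβ v).lt_or_eq with h | h
    · have := hM3 v
      simp only [h, if_true] at this
      exact mul_le_mul_of_nonneg_right (by exact_mod_cast this) h.le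
    · rw [← h]; simp
  have h4 : (M.card : ℝ) + 1 ≤ K.card := by
    have : M.card + 1 ≤ K.card := by omega
    exact_mod_cast this
  nlinarith

end Pool.Agent.Lib.MP_cbd9f1_co.Pf
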