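import Pool.Agent.Lib.MP_cbd9f1_co.Equil
import Pool.Agent.Lib.MP_cbd9f1_co.PerfA

/-! On a perfect vertex set, every weighting has a quasi-kernel whose first out-neighbourhood
weighs at least as much as the second. -/

namespace Pool.Agent.Lib.MP_cbd9f1_co.Pf

open Finset Classical

variable {V : Type*} (A : V → V → Prop)

def Rch (X Q : Finset V) (v : V) : Prop :=
  v ∈ Q ∨ (∃ q ∈ Q, A q v) ∨ ∃ w ∈ X, (∃ q ∈ Q, A q w) ∧ A w v

def QK (X Q : Finset V) : Prop := Q ⊆ X ∧ Ind A Q ∧ ∀ v ∈ X, Rch A X Q v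

noncomputable def sg (Q : Finset V) (v : V) : ℝ :=
  if v ∈ Q then 0 else if ∃ q ∈ Q, A q v then -1 else 1

def Large (X : Finset V) : Prop :=
  ∀ w : V → ℝ, (∀ v, 0 ≤ w v) → ∃ Q, QK A X Q ∧ ∑ v ∈ X, w v * sg A Q v ≤ 0

noncomputable def sk (u z : V) : ℝ := (if A u z then 1 else 0) - (if A z u then 1 else 0)

variable {A}

lemma sk_anti (u z : V) : sk A u z = - sk A z u := by simp [sk]

lemma sk_self (u : V) : sk A u u = 0 := by simp [sk]

lemma sk_ge (u z : V) : -1 ≤ sk A u z := by unfold sk; split_ifs <;> norm_num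

lemma sk_le (u z : V) : sk A u z ≤ 1 := by unfold sk; split_ifs <;> norm_num

lemma sk_one {u z : V} (h1 : A u z) (h2 : ¬ A z u) : sk A u z = 1 := by simp [sk, h1, h2]

lemma clique_good {ι : Type*} [Fintype ι] {X C : Finset V} (hCX : C ⊆ X) (hC : Clq A C)
    (μ : ι → ℝ) (hμ0 : ∀ i, 0 ≤ μ i) (hμ1 : ∑ i, μ i = 1) (e : ι → Finset V)
    (he : ∀ i, Ind A (e i)) (hc : ∀ i, μ i ≠ 0 → ∃ c ∈ C, c ∈ e i) :
    ∃ u ∈ C, (∀ i, μ i ≠ 0 → Rch A X (e i) u) ∧ ∑ i, μ i * sg A (e i) u ≤ 0 := by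
  have hne : (univ.filter fun j => μ j ≠ 0).Nonempty := by
    by_contra h
    rw [not_nonempty_iff_eq_empty, filter_eq_empty_iff] at h
    rw [sum_eq_zero (fun j hj => by simpa using h hj)] at hμ1
    exact zero_ne_one hμ1
  obtain ⟨j0, hj0⟩ := hne
  obtain ⟨c0, -⟩ := hc j0 (by simpa using hj0)
  have : Nonempty V := ⟨c0⟩
  choose! c hc1 hc2 using hc
  set s : V → ℝ := fun u => ∑ j, μ j * sk A u (c j) with hs
  obtain ⟨i, hi, hmin⟩ := exists_min_image _ (fun j => s (c j)) ⟨j0, hj0⟩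
  have hi : μ i ≠ 0 := by simpa using hi
  have hmin : ∀ j, μ j ≠ 0 → s (c i) ≤ s (c j) := fun j hj => hmin j (by simpa using hj)
  have hle : ∀ f g : ι → ℝ, (∀ j, μ j ≠ 0 → f j ≤ g j) → ∀ j, μ j * f j ≤ μ j * g j := by
    intro f g h j
    by_cases hj : μ j = 0
    · simp [hj]
    · exact mul_le_mul_of_nonneg_left (h j hj) (hμ0 j)
  have hT : ∑ j, μ j * s (c j) = 0 := by
    have h1 : ∑ j, μ j * s (c j) = - ∑ j, μ j * s (c j) := by
      simp only [hs, mul_sum]
      rw [← sum_neg_distrib, sum_comm]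
      simp only [← sum_neg_distrib]
      rw [sum_comm]
      conv_rhs => rw [sum_comm]
      refine sum_congr rfl fun j _ => ?_
      refine sum_congr rfl fun l _ => ?_
      rw [sk_anti]
      ring
    linarith
  have hs0 : s (c i) ≤ 0 := by
    have h1 := sum_le_sum (s := univ) fun j _ => hle (fun _ => s (c i)) (fun j => s (c j)) hmin j
    rw [hT, ← sum_mul, hμ1, one_mul] at h1
    exact h1
  refine ⟨c i, hc1 i hi, fun j hj => ?_, le_trans ?_ hs0⟩
  · by_contra hr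
    simp only [Rch, not_or] at hr
    obtain ⟨h1, h2, h3⟩ := hr
    have hne : c i ≠ c j := fun h => h1 (h ▸ hc2 j hj)
    have h4 : ¬ A (c j) (c i) := fun h => h2 ⟨_, hc2 j hj, h⟩
    have h5 : A (c i) (c j) := (hC _ (hc1 i hi) _ (hc1 j hj) hne).resolve_right h4
    have h6 : s (c j) < s (c i) := by
      refine sum_lt_sum (fun l _ => hle (fun l => sk A (c j) (c l)) (fun l => sk A (c i) (c l))
        ?_ l) ⟨j, mem_univ j, ?_⟩
      · intro l hl
        by_cases e1 : c l = c i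
        · rw [e1, sk_self, sk_anti, sk_one h5 h4]; norm_num
        by_cases e2 : c l = c j
        · rw [e2, sk_self, sk_one h5 h4]; norm_num
        by_cases e3 : A (c j) (c l)
        · have h7 : ¬ A (c l) (c i) := fun h => h3 ⟨_, hCX (hc1 l hl), ⟨_, hc2 j hj, e3⟩, h⟩
          rw [sk_one ((hC _ (hc1 l hl) _ (hc1 i hi) e1).resolve_left h7) h7]
          exact sk_le _ _
        · rw [sk_anti, sk_one ((hC _ (hc1 l hl) _ (hc1 j hj) e2).resolve_right e3) e3]
          exact sk_ge _ _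
      · rw [sk_self, sk_one h5 h4]
        simpa using (hμ0 j).lt_of_ne' hj
    exact absurd (hmin j hj) (not_le.2 h6)
  · refine sum_le_sum fun l _ =>
      hle (fun l => sg A (e l) (c i)) (fun l => sk A (c i) (c l)) ?_ l
    intro l hl
    unfold sg
    split_ifs with h1 h2
    · have : c i = c l := by
        by_contra h
        rcases hC _ (hc1 i hi) _ (hc1 l hl) h with h3 | h3
        · exact he l _ h1 _ (hc2 l hl) h3
        · exact he l _ (hc2 l hl) _ h1 h3
      rw [this, sk_self]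
    · exact sk_ge _ _
    · have hne : c i ≠ c l := fun h => h1 (h ▸ hc2 l hl)
      have h4 : ¬ A (c l) (c i) := fun h => h2 ⟨_, hc2 l hl, h⟩
      rw [sk_one ((hC _ (hc1 i hi) _ (hc1 l hl) hne).resolve_right h4) h4]

lemma large_of_perf [Fintype V] (hA : ∀ v, ¬ A v v) {X : Finset V} (hX : Perf A X) :
    Large A X := by
  have : Nonempty {Q : Finset V // Q ⊆ X ∧ Ind A Q} := ⟨⟨∅, empty_subset _, by simp [Ind]⟩⟩
  obtain ⟨k, hk⟩ := Nat.exists_eq_succ_of_ne_zero
    (Fintype.card_ne_zero (α := {Q : Finset V // Q ⊆ X ∧ Ind A Q}))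
  set e' := (Fintype.equivFinOfCardEq hk).symm
  set e : Fin (k + 1) → Finset V := fun i => (e' i).1 with he
  have he1 : ∀ i, e i ⊆ X := fun i => (e' i).2.1
  have he2 : ∀ i, Ind A (e i) := fun i => (e' i).2.2
  have he3 : ∀ I ⊆ X, Ind A I → ∃ i, e i = I := fun I h1 h2 =>
    ⟨e'.symm ⟨I, h1, h2⟩, by simp [he]⟩
  set β : (Fin (k + 1) → ℝ) → V → ℝ := fun μ v =>
    max 0 (∑ i, μ i * if Rch A X (e i) v then 0 else 1) + max 0 (∑ i, μ i * sg A (e i) v) with hβ
  obtain ⟨μ, ⟨hμ0, hμ1⟩, hbest⟩ := equil k (fun μ i => ∑ v ∈ e i, β μ v) (by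
    intro i
    simp only [hβ]
    fun_prop)
  have hβ0 : ∀ v, 0 ≤ β μ v := fun v => add_nonneg (le_max_left _ _) (le_max_left _ _)
  have hj : ∃ j, μ j ≠ 0 := by
    by_contra h
    push Not at h
    simp [h] at hμ1
  have hz : ∀ v ∈ X, β μ v ≤ 0 := by
    intro v hv
    by_contra hpos
    obtain ⟨j0, hj0⟩ := hj
    have hmax : ∀ I ⊆ X, Ind A I → ∑ v ∈ I, β μ v ≤ ∑ v ∈ e j0, β μ v := by
      intro I h1 h2
      obtain ⟨i, rfl⟩ := he3 I h1 h2
      exact hbest i j0 hj0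
    have hγ : 0 < ∑ v ∈ e j0, β μ v := by
      have := hmax {v} (by simpa using hv) (by simpa [Ind] using hA v)
      rw [sum_singleton] at this
      linarith [not_le.1 hpos]
    obtain ⟨C, h1, h2, h3, h4⟩ := clique_meets hX (β μ) hβ0 _ hγ hmax
    obtain ⟨u, hu, h5, h6⟩ := clique_good h1 h2 μ hμ0 hμ1 e he2 (fun i hi =>
      h4 _ (he1 i) (he2 i) (le_antisymm (hbest i j0 hj0) (hbest j0 i hi)))
    have h7 : ∑ i, (μ i * if Rch A X (e i) u then 0 else 1) = 0 := by
      refine sum_eq_zero fun i _ => ?_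
      by_cases hi : μ i = 0
      · simp [hi]
      · simp [h5 i hi]
    have h8 := h3 u hu
    simp only [hβ] at h8
    rw [h7, max_eq_left h6] at h8
    simp at h8
  intro w hw
  have h1 : ∑ i, μ i * ∑ v ∈ X, w v * sg A (e i) v ≤ 0 := by
    simp only [mul_sum]
    rw [sum_comm]
    refine sum_nonpos fun v hv => ?_
    have h2 : ∑ i, μ i * sg A (e i) v ≤ 0 := by
      have := hz v hv
      simp only [hβ] at this
      linarith [le_max_left 0 (∑ i, μ i * if Rch A X (e i) v then 0 else 1),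
        le_max_right 0 (∑ i, μ i * sg A (e i) v)]
    have h3 : ∑ i, μ i * (w v * sg A (e i) v) = w v * ∑ i, μ i * sg A (e i) v := by
      rw [mul_sum]
      exact sum_congr rfl fun i _ => by ring
    rw [h3]
    exact mul_nonpos_of_nonneg_of_nonpos (hw v) h2
  have h2 : ∃ i, μ i ≠ 0 ∧ ∑ v ∈ X, w v * sg A (e i) v ≤ 0 := by
    by_contra h
    push Not at h
    obtain ⟨j, hj⟩ := hj
    refine absurd h1 (not_le.2 (sum_pos' (fun i _ => ?_) ⟨j, mem_univ j, ?_⟩))
    · by_cases hi : μ i = 0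
      · simp [hi]
      · exact mul_nonneg (hμ0 i) (h i hi).le
    · exact mul_pos ((hμ0 j).lt_of_ne' hj) (h j hj)
  obtain ⟨i, hi, h3⟩ := h2
  refine ⟨e i, ⟨he1 i, he2 i, fun v hv => ?_⟩, h3⟩
  by_contra hr
  have h4 := hz v hv
  simp only [hβ] at h4
  have h5 : 0 < ∑ i, (μ i * if Rch A X (e i) v then 0 else 1) := by
    refine sum_pos' (fun l _ => mul_nonneg (hμ0 l) (by split_ifs <;> norm_num))
      ⟨i, mem_univ i, ?_⟩
    simpa [hr] using (hμ0 i).lt_of_ne' hi
  linarith [le_max_right 0 (∑ i, μ i * if Rch A X (e i) v then 0 else 1),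
    le_max_left 0 (∑ i, μ i * sg A (e i) v)]

end Pool.Agent.Lib.MP_cbd9f1_co.Pf
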