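import Pool.Agent.Lib.MP_cbd9f1_co.PerfB

/-! Reduction to strong components, and from the weighted large form to the small form. -/

namespace Pool.Agent.Lib.MP_cbd9f1_co.Pf

open Finset Classical

variable {V : Type*} {A : V → V → Prop}

lemma Rch.mono {X X' Q Q' : Finset V} {v : V} (h : Rch A X Q v) (hX : X ⊆ X') (hQ : Q ⊆ Q') :
    Rch A X' Q' v := by
  rcases h with h | ⟨q, h1, h2⟩ | ⟨w, h1, ⟨q, h2, h3⟩, h4⟩
  · exact Or.inl (hQ h)
  · exact Or.inr (Or.inl ⟨q, hQ h1, h2⟩)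
  · exact Or.inr (Or.inr ⟨w, hX h1, ⟨q, hQ h2, h3⟩, h4⟩)

lemma large_all [Fintype V]
    (hP : ∀ K : Finset V, (∀ u ∈ K, ∀ v ∈ K, Relation.ReflTransGen A u v) → Large A K)
    (X : Finset V) : Large A X := by
  induction X using Finset.strongInduction with
  | H X ih =>
  intro w hw
  rcases X.eq_empty_or_nonempty with rfl | hne
  · exact ⟨∅, ⟨Subset.rfl, by simp [Ind], by simp⟩, by simp⟩
  obtain ⟨v0, hv0, hmin⟩ := exists_min_image X
    (fun v => (univ.filter fun u => Relation.ReflTransGen A u v).card) hne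
  set K := X.filter (fun u => Relation.ReflTransGen A u v0) with hK
  have hK1 : ∀ u ∈ K, Relation.ReflTransGen A v0 u := by
    intro u hu
    rw [mem_filter] at hu
    have h1 : (univ.filter fun z => Relation.ReflTransGen A z u) ⊆
        (univ.filter fun z => Relation.ReflTransGen A z v0) := by
      intro z hz
      simp only [mem_filter, mem_univ, true_and] at hz ⊢
      exact hz.trans hu.2
    have h2 := eq_of_subset_of_card_le h1 (hmin u hu.1)
    have h3 : v0 ∈ (univ.filter fun z => Relation.ReflTransGen A z v0) := by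
      simp only [mem_filter, mem_univ, true_and]
      exact .refl
    rw [← h2] at h3
    simpa using h3
  have hin : ∀ u ∈ X, ∀ v ∈ K, A u v → u ∈ K := fun u hu v hv h =>
    mem_filter.2 ⟨hu, .head h (mem_filter.1 hv).2⟩
  obtain ⟨Q1, ⟨h1, h2, h3⟩, h4⟩ := hP K
    (fun u hu v hv => (mem_filter.1 hu).2.trans (hK1 v hv)) w hw
  set X' := X.filter (fun u => u ∉ K ∧ ¬ ∃ q ∈ Q1, A q u) with hX'
  have hv0K : v0 ∈ K := mem_filter.2 ⟨hv0, .refl⟩
  obtain ⟨Q2, ⟨h5, h6, h7⟩, h8⟩ := ih X' (by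
    refine Finset.ssubset_iff_subset_ne.2 ⟨filter_subset _ _, fun h => ?_⟩
    rw [← h] at hv0
    exact (mem_filter.1 hv0).2.1 hv0K) w hw
  have hKX : K ⊆ X := filter_subset _ _
  have hXX : X' ⊆ X := filter_subset _ _
  have hQ2 : ∀ q ∈ Q2, q ∈ X ∧ q ∉ K ∧ ¬ ∃ p ∈ Q1, A p q := fun q hq => mem_filter.1 (h5 hq)
  refine ⟨Q1 ∪ Q2, ⟨union_subset (h1.trans hKX) (h5.trans hXX), ?_, ?_⟩, ?_⟩
  · intro u hu v hv huv
    rcases mem_union.1 hu with hu | hu <;> rcases mem_union.1 hv with hv | hv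
    · exact h2 u hu v hv huv
    · exact (hQ2 v hv).2.2 ⟨u, hu, huv⟩
    · exact (hQ2 u hu).2.1 (hin u (hQ2 u hu).1 v (h1 hv) huv)
    · exact h6 u hu v hv huv
  · intro v hv
    by_cases e1 : v ∈ K
    · exact (h3 v e1).mono hKX subset_union_left
    by_cases e2 : ∃ q ∈ Q1, A q v
    · obtain ⟨q, e3, e4⟩ := e2
      exact Or.inr (Or.inl ⟨q, mem_union_left _ e3, e4⟩)
    · exact (h7 v (mem_filter.2 ⟨hv, e1, e2⟩)).mono hXX subset_union_right
  · have h9 : ∑ v ∈ X, w v * sg A (Q1 ∪ Q2) v ≤ ∑ v ∈ X,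
        ((if Relation.ReflTransGen A v v0 then w v * sg A Q1 v else 0) +
          (if v ∉ K ∧ ¬ ∃ q ∈ Q1, A q v then w v * sg A Q2 v else 0)) := by
      refine sum_le_sum fun v hv => ?_
      by_cases e1 : v ∈ K
      · rw [if_pos (mem_filter.1 e1).2, if_neg (fun h => h.1 e1), add_zero]
        refine le_of_eq ?_
        have e2 : v ∈ Q1 ∪ Q2 ↔ v ∈ Q1 := by
          simp only [mem_union]
          exact ⟨fun h => h.resolve_right fun h => (hQ2 v h).2.1 e1, Or.inl⟩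
        have e3 : (∃ q ∈ Q1 ∪ Q2, A q v) ↔ ∃ q ∈ Q1, A q v := by
          refine ⟨fun ⟨q, h, h'⟩ => ⟨q, ?_, h'⟩, fun ⟨q, h, h'⟩ => ⟨q, mem_union_left _ h, h'⟩⟩
          exact (mem_union.1 h).resolve_right fun h => (hQ2 q h).2.1 (hin q (hQ2 q h).1 v e1 h')
        simp only [sg, e2, e3]
      rw [if_neg (fun h => e1 (mem_filter.2 ⟨hv, h⟩)), zero_add]
      by_cases e2 : ∃ q ∈ Q1, A q v
      · rw [if_neg (fun h => h.2 e2)]
        refine mul_nonpos_of_nonneg_of_nonpos (hw v) ?_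
        obtain ⟨q, e3, e4⟩ := e2
        have e5 : ∃ q ∈ Q1 ∪ Q2, A q v := ⟨q, mem_union_left _ e3, e4⟩
        simp only [sg, e5, if_true]
        split_ifs <;> norm_num
      · rw [if_pos ⟨e1, e2⟩]
        refine le_of_eq ?_
        have e3 : v ∈ Q1 ∪ Q2 ↔ v ∈ Q2 := by
          simp only [mem_union]
          exact ⟨fun h => h.resolve_left fun h => e1 (h1 h), Or.inr⟩
        have e4 : (∃ q ∈ Q1 ∪ Q2, A q v) ↔ ∃ q ∈ Q2, A q v := by
          refine ⟨fun ⟨q, h, h'⟩ => ⟨q, ?_, h'⟩, fun ⟨q, h, h'⟩ => ⟨q, mem_union_right _ h, h'⟩⟩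
          exact (mem_union.1 h).resolve_left fun h => e2 ⟨q, h, h'⟩
        simp only [sg, e3, e4]
    rw [sum_add_distrib, ← sum_filter, ← sum_filter] at h9
    linarith

/-- Crown decomposition of a vertex set. -/
lemma crown [Fintype V] (D : Finset V) :
    ∃ X ⊆ D, Ind A X ∧
      (∀ Z ⊆ D, Ind A Z → (∀ z ∈ Z, z ∉ X ∧ ¬ ∃ x ∈ X, A x z ∨ A z x) →
        2 * Z.card ≤ (D.filter fun z => z ∉ X ∧ ¬ ∃ x ∈ X, A x z ∨ A z x).card) ∧
      ∃ m : V → V, Set.InjOn m (D.filter fun y => ∃ x ∈ X, A x y ∨ A y x) ∧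
        ∀ y ∈ D, (∃ x ∈ X, A x y ∨ A y x) → m y ∈ X ∧ (A (m y) y ∨ A y (m y)) := by
  set N : Finset V → Finset V := fun X => D.filter fun y => ∃ x ∈ X, A x y ∨ A y x with hN
  obtain ⟨X, hX, hmax⟩ := exists_max_image (D.powerset.filter (Ind A))
    (fun X => (X.card : ℤ) - (N X).card) ⟨∅, by simp [Ind]⟩
  simp only [mem_filter, mem_powerset, and_imp] at hX hmax
  refine ⟨X, hX.1, hX.2, ?_, ?_⟩
  · intro Z h1 h2 h3
    set R := D.filter fun z => z ∉ X ∧ ¬ ∃ x ∈ X, A x z ∨ A z x with hR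
    have h4 := hmax (X ∪ Z) (union_subset hX.1 h1) (by
      intro u hu v hv huv
      rcases mem_union.1 hu with hu | hu <;> rcases mem_union.1 hv with hv | hv
      · exact hX.2 u hu v hv huv
      · exact (h3 v hv).2 ⟨u, hu, Or.inl huv⟩
      · exact (h3 u hu).2 ⟨v, hv, Or.inr huv⟩
      · exact h2 u hu v hv huv)
    have h5 : (X ∪ Z).card = X.card + Z.card :=
      card_union_of_disjoint (disjoint_right.2 fun z hz => (h3 z hz).1)
    have h6 : N (X ∪ Z) ⊆ N X ∪ (R \ Z) := by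
      intro y hy
      obtain ⟨hyD, x, hx, hxy⟩ := mem_filter.1 hy
      by_cases e : ∃ x ∈ X, A x y ∨ A y x
      · exact mem_union_left _ (mem_filter.2 ⟨hyD, e⟩)
      have hxZ : x ∈ Z := (mem_union.1 hx).resolve_left fun h => e ⟨x, h, hxy⟩
      refine mem_union_right _ (mem_sdiff.2 ⟨mem_filter.2 ⟨hyD, fun h => ?_, e⟩, fun h => ?_⟩)
      · exact (h3 x hxZ).2 ⟨y, h, hxy.symm⟩
      · rcases hxy with h' | h'
        · exact h2 x hxZ y h h'
        · exact h2 y h x hxZ h'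
    have h7 : Z ⊆ R := fun z hz => mem_filter.2 ⟨h1 hz, h3 z hz⟩
    have h8 := (card_le_card h6).trans (card_union_le _ _)
    have h9 := card_sdiff_add_card_eq_card h7
    omega
  · have hall : ∀ s : Finset (N X), s.card ≤
        (s.biUnion fun y => X.filter fun x => A x y ∨ A y x).card := by
      intro s
      set B := s.biUnion fun y => X.filter fun x => A x y ∨ A y x with hB
      have hBX : B ⊆ X := biUnion_subset.2 fun y _ => filter_subset _ _
      have h1 := hmax (X \ B) (sdiff_subset.trans hX.1)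
        (fun u hu v hv => hX.2 u (mem_sdiff.1 hu).1 v (mem_sdiff.1 hv).1)
      have h2 : N (X \ B) ⊆ N X \ s.map (Function.Embedding.subtype _) := by
        intro y hy
        obtain ⟨hyD, x, hx, hxy⟩ := mem_filter.1 hy
        refine mem_sdiff.2 ⟨mem_filter.2 ⟨hyD, x, (mem_sdiff.1 hx).1, hxy⟩, fun h => ?_⟩
        obtain ⟨y', hy', rfl⟩ := mem_map.1 h
        exact (mem_sdiff.1 hx).2 (mem_biUnion.2 ⟨y', hy', mem_filter.2 ⟨(mem_sdiff.1 hx).1, hxy⟩⟩)
      have h3 : s.map (Function.Embedding.subtype _) ⊆ N X := by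
        intro y hy
        obtain ⟨y', -, rfl⟩ := mem_map.1 hy
        exact y'.2
      have h4 := card_le_card h2
      have h5 := card_sdiff_add_card_eq_card h3
      have h6 := card_sdiff_add_card_eq_card hBX
      rw [card_map] at h5
      omega
    obtain ⟨f, hf1, hf2⟩ := (all_card_le_biUnion_card_iff_exists_injective _).1 hall
    refine ⟨fun y => if h : y ∈ N X then f ⟨y, h⟩ else y, ?_, ?_⟩
    · intro y hy y' hy' h
      have hy : y ∈ N X := hy
      have hy' : y' ∈ N X := hy'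
      simp only [hy, hy', dif_pos] at h
      exact congrArg Subtype.val (hf1 h)
    · intro y hy h
      have hy : y ∈ N X := mem_filter.2 ⟨hy, h⟩
      simp only [hy, dif_pos]
      exact mem_filter.1 (hf2 ⟨y, hy⟩)

lemma small_of_large [Fintype V] {D : Finset V} (hL : Large A D) (T : V → Prop)
    (hT : ∀ v ∈ D, ¬ T v → ∃ y ∈ D, A y v) :
    ∃ Q ⊆ D, Ind A Q ∧ (∀ v ∈ D, T v ∨ Rch A D Q v) ∧ 2 * Q.card ≤ D.card := by
  obtain ⟨X, hXD, hXi, hR, m, hm1, hm2⟩ := crown (A := A) D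
  set Y := D.filter fun y => ∃ x ∈ X, A x y ∨ A y x with hY
  set R := D.filter fun z => z ∉ X ∧ ¬ ∃ x ∈ X, A x z ∨ A z x with hRdef
  have hT' : ∀ v, ∃ y, v ∈ D → ¬ T v → y ∈ D ∧ A y v := by
    intro v
    by_cases h : v ∈ D ∧ ¬ T v
    · obtain ⟨y, hy⟩ := hT v h.1 h.2
      exact ⟨y, fun _ _ => hy⟩
    · exact ⟨v, fun h1 h2 => absurd ⟨h1, h2⟩ h⟩
  choose p hp using hT'
  set U := (X \ Y.image m).filter fun x => ¬ T x with hU
  have hUD : ∀ x ∈ U, x ∈ D ∧ ¬ T x := fun x hx =>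
    ⟨hXD (mem_sdiff.1 (mem_filter.1 hx).1).1, (mem_filter.1 hx).2⟩
  obtain ⟨Q, ⟨hQD, hQi, hQr⟩, hw⟩ := hL (fun y => ((U.filter fun x => p x = y).card : ℝ))
    (fun _ => Nat.cast_nonneg _)
  set U2 := U.filter fun x => p x ∉ Q ∧ ¬ ∃ q ∈ Q, A q (p x) with hU2
  have hU2c : 2 * U2.card ≤ U.card := by
    have h1 : ∑ y ∈ D, ((U.filter fun x => p x = y).card : ℝ) * sg A Q y
        = ∑ x ∈ U, sg A Q (p x) := by
      rw [← sum_fiberwise_of_maps_to (g := p) (t := D)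
        (fun x hx => (hp x (hUD x hx).1 (hUD x hx).2).1)]
      refine sum_congr rfl fun y _ => ?_
      rw [sum_congr rfl (g := fun _ => sg A Q y) (fun x hx => by rw [(mem_filter.1 hx).2]),
        sum_const, nsmul_eq_mul]
    have h2 : ∑ x ∈ U, ((if p x ∉ Q ∧ ¬ ∃ q ∈ Q, A q (p x) then 2 else 0) - 1 : ℝ)
        ≤ ∑ x ∈ U, sg A Q (p x) := by
      refine sum_le_sum fun x _ => ?_
      unfold sg
      by_cases e1 : p x ∈ Q
      · simp [e1]
      by_cases e2 : ∃ q ∈ Q, A q (p x)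
      · simp only [e1, e2]; norm_num
      · simp only [e1, e2]; norm_num
    rw [sum_sub_distrib, ← sum_filter, sum_const, sum_const, nsmul_eq_mul, nsmul_eq_mul] at h2
    have h3 : (2 * U2.card : ℝ) ≤ U.card := by linarith
    exact_mod_cast h3
  set drop : V → Prop := fun x => x ∈ X ∧ (T x ∨ ∃ w ∈ D, (∃ q ∈ Q, A q w) ∧ A w x) with hdrop
  obtain ⟨P, hP, hPmin⟩ := exists_min_image (Q.powerset.filter fun P =>
    (∀ q ∈ Q, ¬ drop q → q ∈ P) ∧ ∀ v ∈ D, (∃ q ∈ Q, A q v) → ∃ q ∈ P, A q v) card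
    ⟨Q, mem_filter.2 ⟨mem_powerset_self _, fun q hq _ => hq, fun v _ h => h⟩⟩
  simp only [mem_filter, mem_powerset, and_imp] at hP hPmin
  obtain ⟨hPQ, hP1, hP2⟩ := hP
  have hpriv : ∀ x, ∃ y, x ∈ P → drop x →
      y ∈ D ∧ A x y ∧ ∀ q ∈ P, A q y → q = x := by
    intro x
    by_cases h : x ∈ P ∧ drop x
    · by_contra hcon
      push Not at hcon
      have := hPmin (P.erase x) ((erase_subset _ _).trans hPQ)
        (fun q hq hd => mem_erase.2 ⟨fun e => hd (e ▸ h.2), hP1 q hq hd⟩) (by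
          intro v hv h1
          obtain ⟨q, h2, h3⟩ := hP2 v hv h1
          by_cases e : q = x
          · obtain ⟨q', h4, h5, h6⟩ := (hcon v).2.2 hv (e ▸ h3)
            exact ⟨q', mem_erase.2 ⟨h6, h4⟩, h5⟩
          · exact ⟨q, mem_erase.2 ⟨e, h2⟩, h3⟩)
      have h2 := card_erase_lt_of_mem h.1
      omega
    · exact ⟨x, fun h1 h2 => absurd ⟨h1, h2⟩ h⟩
  choose pr hpr using hpriv
  have hPi : Ind A P := fun u hu v hv => hQi u (hPQ hu) v (hPQ hv)
  refine ⟨P, hPQ.trans hQD, hPi, ?_, ?_⟩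
  · intro v hv
    rcases hQr v hv with h | h | ⟨w, h1, h2, h3⟩
    · by_cases e : drop v
      · rcases e.2 with e | ⟨w, h1, h2, h3⟩
        · exact Or.inl e
        · exact Or.inr (Or.inr (Or.inr ⟨w, h1, hP2 w h1 h2, h3⟩))
      · exact Or.inr (Or.inl (hP1 v h e))
    · exact Or.inr (Or.inr (Or.inl (hP2 v hv h)))
    · exact Or.inr (Or.inr (Or.inr ⟨w, h1, hP2 w h1 h2, h3⟩))
  have hXY : ∀ x ∈ X, x ∉ Y := by
    intro x hx h
    obtain ⟨-, x', h1, h2 | h2⟩ := mem_filter.1 h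
    · exact hXi x' h1 x hx h2
    · exact hXi x hx x' h1 h2
  have hR' := hR (P.filter (· ∈ R)) ((filter_subset _ _).trans (hPQ.trans hQD))
    (fun u hu v hv => hPi u (mem_filter.1 hu).1 v (mem_filter.1 hv).1)
    (fun z hz => (mem_filter.1 (mem_filter.1 hz).2).2)
  set E := P.filter fun z => z ∉ R ∧ z ∉ U2 with hE
  have hinv : ∀ z, ∃ y, z ∈ E → y ∈ Y ∧ (y = z ∨ (y ∉ Q ∧ ∀ q ∈ P, A q y → q = z) ∧ A z y ∧
      drop z ∨ y ∉ Q ∧ ¬ drop z ∧ m y = z ∧ z ∈ X) := by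
    intro z
    by_cases hz : z ∈ E
    swap
    · exact ⟨z, fun h => absurd h hz⟩
    obtain ⟨h1, h2, h3⟩ := mem_filter.1 hz
    have hzD := hQD (hPQ h1)
    by_cases e1 : z ∈ Y
    · exact ⟨z, fun _ => ⟨e1, Or.inl rfl⟩⟩
    have hzX : z ∈ X := by
      by_contra h
      exact h2 (mem_filter.2 ⟨hzD, h, fun h' => e1 (mem_filter.2 ⟨hzD, h'⟩)⟩)
    by_cases e2 : drop z
    · obtain ⟨h4, h5, h6⟩ := hpr z h1 e2
      exact ⟨pr z, fun _ => ⟨mem_filter.2 ⟨h4, z, hzX, Or.inl h5⟩,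
        Or.inr (Or.inl ⟨⟨fun h => hQi z (hPQ h1) _ h h5, h6⟩, h5, e2⟩)⟩⟩
    have e3 : ¬ T z := fun h => e2 ⟨hzX, Or.inl h⟩
    have e4 : z ∈ Y.image m := by
      by_contra h
      have hzU : z ∈ U := mem_filter.2 ⟨mem_sdiff.2 ⟨hzX, h⟩, e3⟩
      obtain ⟨h4, h5⟩ := hp z hzD e3
      exact h3 (mem_filter.2 ⟨hzU, fun h => hQi _ h z (hPQ h1) h5,
        fun h => e2 ⟨hzX, Or.inr ⟨_, h4, h, h5⟩⟩⟩)
    obtain ⟨y, h4, h5⟩ := mem_image.1 e4
    refine ⟨y, fun _ => ⟨h4, Or.inr (Or.inr ⟨fun h => ?_, e2, h5, hzX⟩)⟩⟩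
    have h6 := (hm2 y (mem_filter.1 h4).1 (mem_filter.1 h4).2).2
    rw [h5] at h6
    rcases h6 with h6 | h6
    · exact hQi z (hPQ h1) y h h6
    · exact hQi y h z (hPQ h1) h6
  choose φ hφ using hinv
  have key : ∀ z ∈ E, ∀ z' ∈ E, φ z = φ z' → A z (φ z) → (∀ q ∈ P, A q (φ z) → q = z) →
      ¬ drop z' → m (φ z') = z' → z' ∈ X → z = z' := by
    intro z hz z' hz' h h1 h2 h3 h4 h5
    have h6 := mem_filter.1 (hφ z' hz').1
    have h7 := (hm2 _ h6.1 h6.2).2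
    rw [h4] at h7
    rcases h7 with h7 | h7
    · exact (h2 z' (mem_filter.1 hz').1 (h ▸ h7)).symm
    · exact absurd ⟨h5, Or.inr ⟨_, h6.1, ⟨z, hPQ (mem_filter.1 hz).1, h ▸ h1⟩, h7⟩⟩ h3
  have hEc : E.card ≤ Y.card := by
    refine card_le_card_of_injOn φ (fun z hz => (hφ z hz).1) ?_
    intro z hz z' hz' h
    have hzQ := hPQ (mem_filter.1 hz).1
    have hzQ' := hPQ (mem_filter.1 hz').1
    rcases (hφ z hz).2 with h1 | h1 | h1 <;> rcases (hφ z' hz').2 with h2 | h2 | h2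
    · rw [← h1, ← h2, h]
    · exact absurd (by rw [← h, h1]; exact hzQ) h2.1.1
    · exact absurd (by rw [← h, h1]; exact hzQ) h2.1
    · exact absurd (by rw [h, h2]; exact hzQ') h1.1.1
    · exact h2.1.2 z (mem_filter.1 hz).1 (h ▸ h1.2.1)
    · exact key z hz z' hz' h h1.2.1 h1.1.2 h2.2.1 h2.2.2.1 h2.2.2.2
    · exact absurd (by rw [h, h2]; exact hzQ') h1.1
    · exact (key z' hz' z hz h.symm h2.2.1 h2.1.2 h1.2.1 h1.2.2.1 h1.2.2.2).symm
    · rw [← h1.2.2.1, ← h2.2.2.1, h]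
  have hc1 : P.card ≤ (P.filter (· ∈ R)).card + U2.card + E.card := by
    refine le_trans (card_le_card (t := P.filter (· ∈ R) ∪ U2 ∪ E) ?_)
      ((card_union_le _ _).trans (Nat.add_le_add_right (card_union_le _ _) _))
    intro z hz
    by_cases e1 : z ∈ R
    · exact mem_union_left _ (mem_union_left _ (mem_filter.2 ⟨hz, e1⟩))
    by_cases e2 : z ∈ U2
    · exact mem_union_left _ (mem_union_right _ e2)
    · exact mem_union_right _ (mem_filter.2 ⟨hz, e1, e2⟩)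
  have hc2 : U.card + Y.card ≤ X.card := by
    have h1 : Y.image m ⊆ X := by
      intro x hx
      obtain ⟨y, hy, rfl⟩ := mem_image.1 hx
      exact (hm2 y (mem_filter.1 hy).1 (mem_filter.1 hy).2).1
    have h2 := card_sdiff_add_card_eq_card h1
    have h3 := card_image_of_injOn hm1
    have h4 : U.card ≤ (X \ Y.image m).card := card_filter_le _ _
    omega
  have hc3 : X.card + Y.card + R.card ≤ D.card := by
    rw [← card_union_of_disjoint (disjoint_left.2 hXY), ← card_union_of_disjoint]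
    · exact card_le_card (union_subset (union_subset hXD (filter_subset _ _)) (filter_subset _ _))
    · refine disjoint_right.2 fun z hz h => ?_
      rcases mem_union.1 h with h | h
      · exact (mem_filter.1 hz).2.1 h
      · exact (mem_filter.1 hz).2.2 (mem_filter.1 h).2
  omega

end Pool.Agent.Lib.MP_cbd9f1_co.Pf
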