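import Pool.Agent.Lib.MP_cbd9f1_co.PerfC

/-! The weighted large form when a perfect supergraph `B` and local sets `L v` are given. -/

namespace Pool.Agent.Lib.MP_cbd9f1_co.Pf

open Finset Classical

variable {V : Type*} {A B : V → V → Prop}

lemma sg_le_one (Q : Finset V) (u : V) : sg A Q u ≤ 1 := by unfold sg; split_ifs <;> norm_num

lemma sg_ge (Q : Finset V) (u : V) : -1 ≤ sg A Q u := by unfold sg; split_ifs <;> norm_num

lemma sg_mem {Q : Finset V} {u : V} (h : u ∈ Q) : sg A Q u = 0 := by simp [sg, h]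

lemma sg_out {Q : Finset V} (hQ : Ind A Q) {q u : V} (h : q ∈ Q) (h' : A q u) :
    sg A Q u = -1 := by
  unfold sg
  rw [if_neg (fun e => hQ q h u e h'), if_pos ⟨q, h, h'⟩]

lemma sg_far {Q : Finset V} {u : V} (h : u ∉ Q) (h' : ¬ ∃ q ∈ Q, A q u) : sg A Q u = 1 := by
  unfold sg
  rw [if_neg h, if_neg h']

lemma sg_mono {P Q : Finset V} (h : P ⊆ Q) (hQ : Ind A Q) (u : V) : sg A Q u ≤ sg A P u := by
  by_cases h1 : u ∈ P
  · rw [sg_mem h1, sg_mem (h h1)]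
  by_cases h2 : ∃ q ∈ P, A q u
  · obtain ⟨q, h3, h4⟩ := h2
    rw [sg_out hQ (h h3) h4]
    exact sg_ge _ _
  · rw [sg_far h1 h2]
    exact sg_le_one _ _

/-- Local sets attached to a supergraph `B` on `X`. -/
structure Loc (A B : V → V → Prop) (X : Finset V) (L : V → Finset V) : Prop where
  sub : ∀ v ∈ X, L v ⊆ X
  mem : ∀ v ∈ X, v ∈ L v
  ind : ∀ u ∈ X, ∀ v ∈ X, ¬ B u v → ¬ B v u → ∀ p ∈ L u, ∀ q ∈ L v, ¬ A p q
  cov : ∀ u ∈ X, ∀ v ∈ X, B u v ∨ B v u → u ∈ L v ∨ (∃ q ∈ L v, A q u) ∨ A u v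
  twin : ∀ u ∈ X, ∀ v ∈ X, B u v ∨ B v u → ∀ p ∈ L u, p = v ∨ B p v ∨ B v p

lemma clique_good2 {ι : Type*} [Fintype ι] {X C : Finset V} {L : V → Finset V}
    (hB : ∀ v, ¬ B v v) (hL : Loc A B X L) (hCX : C ⊆ X) (hC : Clq B C)
    (μ : ι → ℝ) (hμ0 : ∀ i, 0 ≤ μ i) (hμ1 : ∑ i, μ i = 1) (e : ι → Finset V)
    (he : ∀ i, Ind A (e i)) (hc : ∀ i, μ i ≠ 0 → ∃ c ∈ C, L c ⊆ e i) :
    ∃ u ∈ C, (∀ i, μ i ≠ 0 → Rch A X (e i) u) ∧ ∑ i, μ i * sg A (e i) u ≤ 0 := by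
  have hne : (univ.filter fun j => μ j ≠ 0).Nonempty := by
    by_contra h
    rw [not_nonempty_iff_eq_empty, filter_eq_empty_iff] at h
    rw [sum_eq_zero (fun j hj => by simpa using h hj)] at hμ1
    exact zero_ne_one hμ1
  obtain ⟨j0, hj0⟩ := hne
  obtain ⟨c0, -⟩ := hc j0 (by simpa using hj0)
  have : Nonempty V := ⟨c0⟩
  choose! c hc1 hc2 using hc
  have hX : ∀ j, μ j ≠ 0 → c j ∈ X := fun j hj => hCX (hc1 j hj)
  have hI : ∀ j, μ j ≠ 0 → Ind A (L (c j)) := fun j hj p hp q hq =>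
    hL.ind _ (hX j hj) _ (hX j hj) (hB _) (hB _) p hp q hq
  set s : V → ℝ := fun u => ∑ j, μ j * sg A (L (c j)) u with hs
  obtain ⟨i, hi, hmin⟩ := exists_min_image _ (fun j => s (c j)) ⟨j0, hj0⟩
  have hi : μ i ≠ 0 := by simpa using hi
  have hmin : ∀ j, μ j ≠ 0 → s (c i) ≤ s (c j) := fun j hj => hmin j (by simpa using hj)
  have hle : ∀ f g : ι → ℝ, (∀ j, μ j ≠ 0 → f j ≤ g j) → ∀ j, μ j * f j ≤ μ j * g j := by
    intro f g h j
    by_cases hj : μ j = 0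
    · simp [hj]
    · exact mul_le_mul_of_nonneg_left (h j hj) (hμ0 j)
  have hone : ∀ j l, μ j ≠ 0 → μ l ≠ 0 → sg A (L (c l)) (c j) ≤ 0 ∨ sg A (L (c j)) (c l) = -1 := by
    intro j l hj hl
    by_cases e1 : c j = c l
    · exact Or.inl (by rw [e1, sg_mem (hL.mem _ (hX l hl))])
    rcases hL.cov _ (hX j hj) _ (hX l hl) (hC _ (hc1 j hj) _ (hc1 l hl) e1) with h | ⟨q, h, h'⟩ | h
    · exact Or.inl (by rw [sg_mem h])
    · exact Or.inl (by rw [sg_out (hI l hl) h h']; norm_num)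
    · exact Or.inr (sg_out (hI j hj) (hL.mem _ (hX j hj)) h)
  have hT : ∑ j, μ j * s (c j) ≤ 0 := by
    have h1 : ∑ j, μ j * s (c j) = ∑ j, ∑ l, μ j * (μ l * sg A (L (c l)) (c j)) := by
      simp only [hs, mul_sum]
    have h2 : ∑ j, μ j * s (c j) = ∑ j, ∑ l, μ j * (μ l * sg A (L (c j)) (c l)) := by
      rw [h1, sum_comm]
      exact sum_congr rfl fun j _ => sum_congr rfl fun l _ => by ring
    have h3 : ∑ j, ∑ l, (μ j * (μ l * sg A (L (c l)) (c j)) + μ j * (μ l * sg A (L (c j)) (c l)))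
        ≤ 0 := by
      refine sum_nonpos fun j _ => sum_nonpos fun l _ => ?_
      by_cases hj : μ j = 0
      · simp [hj]
      by_cases hl : μ l = 0
      · simp [hl]
      rw [← mul_add, ← mul_add]
      refine mul_nonpos_of_nonneg_of_nonpos (hμ0 j) (mul_nonpos_of_nonneg_of_nonpos (hμ0 l) ?_)
      have h4 := sg_le_one (A := A) (L (c l)) (c j)
      have h5 := sg_le_one (A := A) (L (c j)) (c l)
      rcases hone j l hj hl with h | h <;> rcases hone l j hl hj with h' | h' <;> linarith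
    simp only [sum_add_distrib] at h3
    linarith
  have hs0 : s (c i) ≤ 0 := by
    have h1 := sum_le_sum (s := univ) fun j _ => hle (fun _ => s (c i)) (fun j => s (c j)) hmin j
    rw [← sum_mul, hμ1, one_mul] at h1
    exact h1.trans hT
  refine ⟨c i, hc1 i hi, fun j hj => ?_, le_trans (sum_le_sum fun l _ =>
    hle (fun l => sg A (e l) (c i)) (fun l => sg A (L (c l)) (c i))
      (fun l hl => sg_mono (hc2 l hl) (he l) _) l) hs0⟩
  by_contra hr
  simp only [Rch, not_or] at hr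
  obtain ⟨h1, h2, h3⟩ := hr
  have hv : c j ∈ e j := hc2 j hj (hL.mem _ (hX j hj))
  have hfar : ∀ k ∈ X, k ∉ e j → (¬ ∃ q ∈ e j, A q k) → B k (c j) ∨ B (c j) k → A k (c j) := by
    intro k hk h4 h5 h6
    rcases hL.cov _ hk _ (hX j hj) h6 with h | ⟨q, h, h'⟩ | h
    · exact absurd (hc2 j hj h) h4
    · exact absurd ⟨q, hc2 j hj h, h'⟩ h5
    · exact h
  have h5 : A (c i) (c j) := hfar _ (hX i hi) h1 h2
    (hC _ (hc1 i hi) _ (hc1 j hj) fun h => h1 (h ▸ hv))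
  have h6 : s (c j) < s (c i) := by
    refine sum_lt_sum (fun l _ => hle (fun l => sg A (L (c l)) (c j))
      (fun l => sg A (L (c l)) (c i)) ?_ l) ⟨i, mem_univ i, ?_⟩
    · intro l hl
      by_cases e1 : c i ∈ L (c l)
      · rw [sg_out (hI l hl) e1 h5]
        exact sg_ge _ _
      by_cases e2 : ∃ q ∈ L (c l), A q (c i)
      · obtain ⟨k, e3, e4⟩ := e2
        have hk : k ∈ X := hL.sub _ (hX l hl) e3
        have e5 : k ∉ e j := fun h => h2 ⟨k, h, e4⟩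
        have e6 : c l ≠ c j := fun h => e5 (hc2 j hj (h ▸ e3))
        have e7 := (hL.twin _ (hX l hl) _ (hX j hj) (hC _ (hc1 l hl) _ (hc1 j hj) e6) k
          e3).resolve_left fun h => e5 (h ▸ hv)
        rw [sg_out (hI l hl) e3 (hfar k hk e5 (fun h => h3 ⟨k, hk, h, e4⟩) e7)]
        exact sg_ge _ _
      · rw [sg_far e1 e2]
        exact sg_le_one _ _
    · rw [sg_out (hI i hi) (hL.mem _ (hX i hi)) h5, sg_mem (hL.mem _ (hX i hi))]
      simpa using (hμ0 i).lt_of_ne' hi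
  exact absurd (hmin j hj) (not_le.2 h6)

lemma large_of_loc [Fintype V] {X : Finset V} {L : V → Finset V} (hB : ∀ v, ¬ B v v)
    (hL : Loc A B X L) (hX : Perf B X) : Large A X := by
  have : Nonempty {Q : Finset V // Q ⊆ X ∧ Ind B Q} := ⟨⟨∅, empty_subset _, by simp [Ind]⟩⟩
  obtain ⟨k, hk⟩ := Nat.exists_eq_succ_of_ne_zero
    (Fintype.card_ne_zero (α := {Q : Finset V // Q ⊆ X ∧ Ind B Q}))
  set e' := (Fintype.equivFinOfCardEq hk).symm
  set d : Fin (k + 1) → Finset V := fun i => (e' i).1 with hd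
  have hd1 : ∀ i, d i ⊆ X := fun i => (e' i).2.1
  have hd2 : ∀ i, Ind B (d i) := fun i => (e' i).2.2
  have hd3 : ∀ I ⊆ X, Ind B I → ∃ i, d i = I := fun I h1 h2 =>
    ⟨e'.symm ⟨I, h1, h2⟩, by simp [hd]⟩
  obtain ⟨e, he⟩ : ∃ e : Fin (k + 1) → Finset V, e = fun i => (d i).biUnion L := ⟨_, rfl⟩
  have he1 : ∀ i, e i ⊆ X := fun i => by
    rw [he]
    exact biUnion_subset.2 fun v hv => hL.sub v (hd1 i hv)
  have he2 : ∀ i, Ind A (e i) := fun i p hp q hq => by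
    rw [he] at hp hq
    obtain ⟨u, hu, hp⟩ := mem_biUnion.1 hp
    obtain ⟨v, hv, hq⟩ := mem_biUnion.1 hq
    exact hL.ind u (hd1 i hu) v (hd1 i hv) (hd2 i u hu v hv) (hd2 i v hv u hu) p hp q hq
  have he3 : ∀ i, ∀ v ∈ d i, L v ⊆ e i := fun i v hv => by
    rw [he]
    exact subset_biUnion_of_mem L hv
  set β : (Fin (k + 1) → ℝ) → V → ℝ := fun μ v =>
    max 0 (∑ i, μ i * if Rch A X (e i) v then 0 else 1) + max 0 (∑ i, μ i * sg A (e i) v) with hβ
  obtain ⟨μ, ⟨hμ0, hμ1⟩, hbest⟩ := equil k (fun μ i => ∑ v ∈ d i, β μ v) (by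
    intro i
    simp only [hβ]
    fun_prop)
  have hβ0 : ∀ v, 0 ≤ β μ v := fun v => add_nonneg (le_max_left _ _) (le_max_left _ _)
  have hj : ∃ j, μ j ≠ 0 := by
    by_contra h
    push Not at h
    simp [h] at hμ1
  have hz : ∀ v ∈ X, β μ v ≤ 0 := by
    intro v hv
    by_contra hpos
    obtain ⟨j0, hj0⟩ := hj
    have hmax : ∀ I ⊆ X, Ind B I → ∑ v ∈ I, β μ v ≤ ∑ v ∈ d j0, β μ v := by
      intro I h1 h2
      obtain ⟨i, rfl⟩ := hd3 I h1 h2
      exact hbest i j0 hj0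
    have hγ : 0 < ∑ v ∈ d j0, β μ v := by
      have := hmax {v} (by simpa using hv) (by simpa [Ind] using hB v)
      rw [sum_singleton] at this
      linarith [not_le.1 hpos]
    obtain ⟨C, h1, h2, h3, h4⟩ := clique_meets hX (β μ) hβ0 _ hγ hmax
    obtain ⟨u, hu, h5, h6⟩ := clique_good2 hB hL h1 h2 μ hμ0 hμ1 e he2 (fun i hi => by
      obtain ⟨c, h7, h8⟩ :=
        h4 _ (hd1 i) (hd2 i) (le_antisymm (hbest i j0 hj0) (hbest j0 i hi))
      exact ⟨c, h7, he3 i c h8⟩)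
    have h7 : ∑ i, (μ i * if Rch A X (e i) u then 0 else 1) = 0 := by
      refine sum_eq_zero fun i _ => ?_
      by_cases hi : μ i = 0
      · simp [hi]
      · simp [h5 i hi]
    have h8 := h3 u hu
    simp only [hβ] at h8
    rw [h7, max_eq_left h6] at h8
    simp at h8
  intro w hw
  have h1 : ∑ i, μ i * ∑ v ∈ X, w v * sg A (e i) v ≤ 0 := by
    simp only [mul_sum]
    rw [sum_comm]
    refine sum_nonpos fun v hv => ?_
    have h2 : ∑ i, μ i * sg A (e i) v ≤ 0 := by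
      have := hz v hv
      simp only [hβ] at this
      linarith [le_max_left 0 (∑ i, μ i * if Rch A X (e i) v then 0 else 1),
        le_max_right 0 (∑ i, μ i * sg A (e i) v)]
    have h3 : ∑ i, μ i * (w v * sg A (e i) v) = w v * ∑ i, μ i * sg A (e i) v := by
      rw [mul_sum]
      exact sum_congr rfl fun i _ => by ring
    rw [h3]
    exact mul_nonpos_of_nonneg_of_nonpos (hw v) h2
  have h2 : ∃ i, μ i ≠ 0 ∧ ∑ v ∈ X, w v * sg A (e i) v ≤ 0 := by
    by_contra h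
    push Not at h
    obtain ⟨j, hj⟩ := hj
    refine absurd h1 (not_le.2 (sum_pos' (fun i _ => ?_) ⟨j, mem_univ j, ?_⟩))
    · by_cases hi : μ i = 0
      · simp [hi]
      · exact mul_nonneg (hμ0 i) (h i hi).le
    · exact mul_pos ((hμ0 j).lt_of_ne' hj) (h j hj)
  obtain ⟨i, hi, h3⟩ := h2
  refine ⟨e i, ⟨he1 i, he2 i, fun v hv => ?_⟩, h3⟩
  by_contra hr
  have h4 := hz v hv
  simp only [hβ] at h4
  have h5 : 0 < ∑ i, (μ i * if Rch A X (e i) v then 0 else 1) := by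
    refine sum_pos' (fun l _ => mul_nonneg (hμ0 l) (by split_ifs <;> norm_num))
      ⟨i, mem_univ i, ?_⟩
    simpa [hr] using (hμ0 i).lt_of_ne' hi
  linarith [le_max_right 0 (∑ i, μ i * if Rch A X (e i) v then 0 else 1),
    le_max_left 0 (∑ i, μ i * sg A (e i) v)]

end Pool.Agent.Lib.MP_cbd9f1_co.Pf
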