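import Pool.Agent.Lib.MP_cbd9f1_co.PerfD

/-! From `χ = ω` to `Perf`, from modules to local sets, and from the large form to the bound. -/

namespace Pool.Agent.Lib.MP_cbd9f1_co.Pf

open Finset Classical

lemma perf_of {V : Type} [Fintype V] (G : Digraph V) (hloop : ∀ v : V, ¬ G.Adj v v)
    (K : Finset V)
    (h : ∀ s : Set V, s ⊆ K → ((SimpleGraph.fromRel G.Adj).induce s).chromaticNumber =
      (((SimpleGraph.fromRel G.Adj).induce s).cliqueNum : ℕ∞)) : Perf G.Adj K := by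
  intro Y hY m hm
  set H := (SimpleGraph.fromRel G.Adj).induce (Y : Set V) with hH
  have h1 : H.cliqueNum ≤ m := by
    obtain ⟨t, ht⟩ := H.exists_isNClique_cliqueNum
    have := hm (t.map (Function.Embedding.subtype _)) (by
      intro x hx
      obtain ⟨y, -, rfl⟩ := mem_map.1 hx
      exact y.2) (by
      intro u hu v hv huv
      obtain ⟨u', hu', rfl⟩ := mem_map.1 hu
      obtain ⟨v', hv', rfl⟩ := mem_map.1 hv
      have := ht.isClique hu' hv' (fun e => huv (by rw [e]))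
      exact ((SimpleGraph.fromRel_adj _ _ _).1 this).2)
    rwa [card_map, ht.card_eq] at this
  have h2 : H.Colorable m := by
    rw [← SimpleGraph.chromaticNumber_le_iff_colorable, h _ (by exact_mod_cast hY)]
    exact_mod_cast h1
  obtain ⟨c⟩ := h2
  refine ⟨(univ : Finset (Fin m)).val.map fun j =>
    (univ.filter fun y : (Y : Set V) => c y = j).map (Function.Embedding.subtype _),
    by simp, ?_, ?_⟩
  · intro S hS
    obtain ⟨j, -, rfl⟩ := Multiset.mem_map.1 hS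
    constructor
    · intro x hx
      obtain ⟨y, -, rfl⟩ := mem_map.1 hx
      exact hY y.2
    · intro u hu v hv huv
      obtain ⟨u', hu', rfl⟩ := mem_map.1 hu
      obtain ⟨v', hv', rfl⟩ := mem_map.1 hv
      have e : u' ≠ v' := fun e => hloop _ (e ▸ huv)
      have : H.Adj u' v' := (SimpleGraph.fromRel_adj _ _ _).2
        ⟨fun e' => e (Subtype.ext e'), Or.inl huv⟩
      exact c.valid this ((mem_filter.1 hu').2.trans (mem_filter.1 hv').2.symm)
  · intro v hv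
    exact ⟨_, Multiset.mem_map.2 ⟨c ⟨v, hv⟩, mem_univ_val _, rfl⟩,
      mem_map.2 ⟨⟨v, hv⟩, mem_filter.2 ⟨mem_univ _, rfl⟩, rfl⟩⟩

lemma loc_of_mod {V : Type} {A : V → V → Prop} (hA : ∀ v, ¬ A v v) (f : V → ℕ) (K : Finset V)
    (hmod : ∀ u ∈ K, ∀ u' ∈ K, ∀ v ∈ K, f u = f u' → f u ≠ f v → A u v ∨ A v u → A u' v ∨ A v u')
    (hker : ∀ v ∈ K, ∀ t ⊆ K, (∀ u ∈ t, f u = f v ∧ ¬ A u v ∧ ¬ A v u) →
      ∃ k ⊆ t, (∀ x ∈ k, ∀ y ∈ k, ¬ A x y) ∧ ∀ u ∈ t, u ∉ k → ∃ q ∈ k, A q u) :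
    ∃ L, Loc A (fun u v => A u v ∨ (f u = f v ∧ u ≠ v)) K L := by
  choose! L h1 h2 h3 using fun v hv =>
    hker v hv (K.filter fun u => f u = f v ∧ ¬ A u v ∧ ¬ A v u) (filter_subset _ _)
      (fun u hu => (mem_filter.1 hu).2)
  have h4 : ∀ v ∈ K, ∀ p ∈ L v, p ∈ K ∧ f p = f v ∧ ¬ A p v ∧ ¬ A v p := fun v hv p hp =>
    mem_filter.1 (h1 v hv hp)
  have h5 : ∀ v ∈ K, v ∈ L v := fun v hv => by
    by_contra h
    obtain ⟨q, h6, h7⟩ := h3 v hv v (mem_filter.2 ⟨hv, rfl, hA v, hA v⟩) h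
    exact (h4 v hv q h6).2.2.1 h7
  refine ⟨L, fun v hv p hp => (h4 v hv p hp).1, h5, ?_, ?_, ?_⟩
  · intro u hu v hv e1 e2 p hp q hq hpq
    obtain ⟨a1, a2, -⟩ := h4 u hu p hp
    obtain ⟨b1, b2, -⟩ := h4 v hv q hq
    by_cases e : f u = f v
    · obtain rfl : u = v := by
        by_contra h
        exact e1 (Or.inr ⟨e, h⟩)
      exact h2 u hu p hp q hq hpq
    · have c1 := hmod p a1 u hu q b1 a2 (by rw [a2, b2]; exact e) (Or.inl hpq)
      rcases hmod q b1 v hv u hu b2 (by rw [b2]; exact Ne.symm e) c1.symm with h | h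
      · exact e2 (Or.inl h)
      · exact e1 (Or.inl h)
  · intro u hu v hv h
    by_cases e1 : A u v
    · exact Or.inr (Or.inr e1)
    by_cases e2 : A v u
    · exact Or.inr (Or.inl ⟨v, h5 v hv, e2⟩)
    have e3 : f u = f v := by
      rcases h with (h | h) | h | h
      · exact absurd h e1
      · exact h.1
      · exact absurd h e2
      · exact h.1.symm
    by_cases e4 : u ∈ L v
    · exact Or.inl e4
    · exact Or.inr (Or.inl (h3 v hv u (mem_filter.2 ⟨hu, e3, e1, e2⟩) e4))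
  · intro u hu v hv h p hp
    obtain ⟨a1, a2, -⟩ := h4 u hu p hp
    by_cases e1 : p = v
    · exact Or.inl e1
    by_cases e : f p = f v
    · exact Or.inr (Or.inl (Or.inr ⟨e, e1⟩))
    have e2 : f u ≠ f v := a2 ▸ e
    have e3 : A u v ∨ A v u := by
      rcases h with (h | h) | h | h
      · exact Or.inl h
      · exact absurd h.1 e2
      · exact Or.inr h
      · exact absurd h.1.symm e2
    exact Or.inr ((hmod u hu p a1 v hv a2.symm e2 e3).imp Or.inl Or.inl)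

lemma small_of_all {V : Type} [Fintype V] (G : Digraph V) (hL : ∀ X : Finset V, Large G.Adj X)
    (S N : Finset V) (hS : ∀ v : V, v ∈ S ↔ ∀ u : V, ¬ G.Adj u v)
    (hN : ∀ w : V, w ∈ N ↔ ∃ s ∈ S, G.Adj s w) :
    ∃ Q : Finset V,
      (∀ u ∈ Q, ∀ v ∈ Q, ¬ G.Adj u v) ∧
      (∀ v : V, v ∉ Q → ∃ q ∈ Q, G.Adj q v ∨ ∃ w : V, G.Adj q w ∧ G.Adj w v) ∧
      (2 * (Q.card : ℤ) ≤ (Fintype.card V : ℤ) + (S.card : ℤ) - (N.card : ℤ)) := by
  have hr : ∀ (X Q : Finset V) (v : V), Rch G.Adj X Q v → v ∉ Q →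
      ∃ q ∈ Q, G.Adj q v ∨ ∃ w : V, G.Adj q w ∧ G.Adj w v := by
    intro X Q v h hv
    rcases h with h | ⟨q, h1, h2⟩ | ⟨w, -, ⟨q, h1, h2⟩, h3⟩
    · exact absurd h hv
    · exact ⟨q, h1, Or.inl h2⟩
    · exact ⟨q, h1, Or.inr ⟨w, h2, h3⟩⟩
  have hSN : Disjoint S N := disjoint_left.2 fun v h1 h2 => by
    obtain ⟨s, -, h3⟩ := (hN v).1 h2
    exact (hS v).1 h1 s h3
  obtain ⟨Q, h1, h2, h3, h4⟩ := small_of_large (hL (univ \ (S ∪ N))) (fun v => ∃ y ∈ N, G.Adj y v)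
    (by
      intro v hv hT
      simp only [mem_sdiff, mem_univ, true_and, mem_union, not_or] at hv ⊢
      have h5 := hv.1
      rw [hS] at h5
      push Not at h5
      obtain ⟨y, hy⟩ := h5
      exact ⟨y, ⟨fun h => hv.2 ((hN v).2 ⟨y, h, hy⟩), fun h => hT ⟨y, h, hy⟩⟩, hy⟩)
  have h5 : ∀ q ∈ Q, q ∉ S ∧ q ∉ N := fun q hq => by simpa using h1 hq
  refine ⟨S ∪ Q, ?_, ?_, ?_⟩
  · intro u hu v hv huv
    rcases mem_union.1 hv with hv | hv
    · exact (hS v).1 hv u huv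
    rcases mem_union.1 hu with hu | hu
    · exact (h5 v hv).2 ((hN v).2 ⟨u, hu, huv⟩)
    · exact h2 u hu v hv huv
  · intro v hv
    rw [mem_union, not_or] at hv
    by_cases e : v ∈ N
    · obtain ⟨s, h6, h7⟩ := (hN v).1 e
      exact ⟨s, mem_union_left _ h6, Or.inl h7⟩
    rcases h3 v (by simp [hv.1, e]) with ⟨y, h6, h7⟩ | h6
    · obtain ⟨s, h8, h9⟩ := (hN y).1 h6
      exact ⟨s, mem_union_left _ h8, Or.inr ⟨y, h9, h7⟩⟩
    · obtain ⟨q, h7, h8⟩ := hr _ _ _ h6 hv.2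
      exact ⟨q, mem_union_right _ h7, h8⟩
  · have h6 := card_union_le S Q
    have h7 := card_sdiff_add_card_eq_card (subset_univ (S ∪ N))
    rw [card_union_of_disjoint hSN, card_univ] at h7
    omega

end Pool.Agent.Lib.MP_cbd9f1_co.Pf
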