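import Pool.Agent.Lib.MP_cbd9f1_co.Cover

/-!
From the cover theorem to a small quasi-kernel.
-/

namespace Pool.Agent.Lib.MP_cbd9f1_co

open Finset

variable {V : Type} [Fintype V] [DecidableEq V] {G : V → V → Prop}

/-- Let `S` be independent and let `f s` be an in-neighbour of `s ∈ T ⊆ S`. Every quasi-kernel `Q`
contains a quasi-kernel missing all `s ∈ T` with `f s ∈ N⁺[Q]`, and as many vertices of `S` as
we lose outside `S`. -/
theorem shrink {S T Q : Finset V} (hS : Ind G S) (hT : T ⊆ S) {f : V → V} (hf : ∀ s ∈ T, G (f s) s)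
    (hQ : QK G univ Q) :
    ∃ Q', QK G univ Q' ∧ Q'.card + (T.filter fun s => f s ∈ cl G Q).card ≤ Fintype.card V := by
  have hx : ∀ x : V, ∃ q, x ∈ cl G Q → q ∈ Q ∧ (x ∈ Q → q = x) ∧ (x ∉ Q → G q x) := fun x => by
    by_cases h1 : x ∈ Q
    · exact ⟨x, fun _ => ⟨h1, fun _ => rfl, fun h => absurd h1 h⟩⟩
    by_cases h2 : x ∈ cl G Q
    · obtain ⟨q, hq, hqx⟩ := (mem_cl.1 h2).resolve_left h1
      exact ⟨q, fun _ => ⟨hq, fun h => absurd h h1, fun _ => hqx⟩⟩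
    · exact ⟨x, fun h => absurd h h2⟩
  choose e he using hx
  obtain ⟨A, hA⟩ : ∃ A, A = T.filter fun s => f s ∈ cl G Q := ⟨_, rfl⟩
  obtain ⟨Q', hQ'⟩ : ∃ Q', Q' = (cl G Q \ S).image e ∪ ((Q ∩ S) \ A) := ⟨_, rfl⟩
  have hsub : Q' ⊆ Q := by
    rw [hQ']
    refine union_subset (fun q hq => ?_) (sdiff_subset.trans inter_subset_left)
    obtain ⟨x, hx, rfl⟩ := mem_image.1 hq
    exact (he x (mem_sdiff.1 hx).1).1
  have h1 : cl G Q \ S ⊆ cl G Q' := by
    intro x hx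
    have h2 : e x ∈ Q' := hQ' ▸ mem_union_left _ (mem_image_of_mem _ hx)
    obtain ⟨-, h3, h4⟩ := he x (mem_sdiff.1 hx).1
    by_cases h : x ∈ Q
    · exact subset_cl _ (h3 h ▸ h2)
    · exact mem_cl.2 (Or.inr ⟨e x, h2, h4 h⟩)
  have h2 : ∀ x ∈ cl G Q, x ∈ cl G Q' ∨ x ∈ Q ∩ S := by
    intro x hx
    by_cases hxS : x ∈ S
    · rcases mem_cl.1 hx with h | ⟨q, hq, hqx⟩
      · exact Or.inr (mem_inter.2 ⟨h, hxS⟩)
      · have hqS : q ∉ S := fun h => hS q h x hxS hqx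
        have h3 : q ∈ cl G Q \ S := mem_sdiff.2 ⟨subset_cl _ hq, hqS⟩
        have h4 : e q ∈ Q' := hQ' ▸ mem_union_left _ (mem_image_of_mem _ h3)
        rw [(he q (subset_cl _ hq)).2.1 hq] at h4
        exact Or.inl (mem_cl.2 (Or.inr ⟨q, h4, hqx⟩))
    · exact Or.inl (h1 (mem_sdiff.2 ⟨hx, hxS⟩))
  refine ⟨Q', ⟨subset_univ _, fun u hu v hv => hQ.ind u (hsub hu) v (hsub hv), fun v _ => ?_⟩, ?_⟩
  · have h3 : cl G Q ⊆ cl G (cl G Q') := by
      intro x hx
      rcases h2 x hx with h | h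
      · exact subset_cl _ h
      by_cases hxA : x ∈ A
      · rw [hA, mem_filter] at hxA
        have h4 : f x ∉ S := fun h' => hS _ h' x (hT hxA.1) (hf x hxA.1)
        exact mem_cl.2 (Or.inr ⟨f x, h1 (mem_sdiff.2 ⟨hxA.2, h4⟩), hf x hxA.1⟩)
      · exact subset_cl _ (subset_cl _ (hQ' ▸ mem_union_right _ (mem_sdiff.2 ⟨h, hxA⟩)))
    rcases mem_cl.1 (hQ.dom (mem_univ v)) with h | ⟨x, hx, hxv⟩
    · exact h3 h
    rcases h2 x hx with h | h
    · exact mem_cl.2 (Or.inr ⟨x, h, hxv⟩)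
    · exact h3 (mem_cl.2 (Or.inr ⟨x, (mem_inter.1 h).1, hxv⟩))
  · rw [← hA]
    have hAS : A ⊆ S := hA ▸ (filter_subset _ _).trans hT
    have h3 : Q'.card ≤ (univ \ S).card + (S \ A).card := by
      rw [hQ']
      refine (card_union_le _ _).trans (add_le_add (card_image_le.trans (card_le_card ?_))
        (card_le_card ?_))
      · exact sdiff_subset_sdiff (subset_univ _) (Subset.refl _)
      · exact sdiff_subset_sdiff inter_subset_right (Subset.refl _)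
    have h4 := card_sdiff_add_card_eq_card (subset_univ S)
    have h5 := card_sdiff_add_card_eq_card hAS
    rw [card_univ] at h4
    omega

theorem small (hG : ∀ v, ¬ G v v) {S₀ : Finset V} (hS₀ : ∀ v, v ∈ S₀ ↔ ∀ u, ¬ G u v) :
    ∃ Q, QK G univ Q ∧ (Fintype.card V - S₀.card) ^ 3 ≤
      55000 * (Fintype.card V - Q.card) ^ 4 * (Nat.log 2 (Fintype.card V) + 1) ^ 2 := by
  classical
  obtain ⟨Q₀, hQ₀⟩ := exists_qk hG (univ : Finset V)
  obtain ⟨S, hS, hmin⟩ := exists_min_image (univ.filter fun Q => QK G univ Q) card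
    ⟨Q₀, mem_filter.2 ⟨mem_univ _, hQ₀⟩⟩
  have hS' := (mem_filter.1 hS).2
  refine ⟨S, hS', ?_⟩
  obtain ⟨g, hg⟩ : ∃ g, g = Fintype.card V - S.card := ⟨_, rfl⟩
  have hSn : S.card ≤ Fintype.card V := card_le_univ S
  have hx : ∀ s : V, ∃ x, s ∉ S₀ → G x s := fun s => by
    by_cases h : s ∈ S₀
    · exact ⟨s, fun h' => absurd h h'⟩
    · rw [hS₀] at h
      push Not at h
      obtain ⟨x, hx⟩ := h
      exact ⟨x, fun _ => hx⟩
  choose f hf using hx
  have hf' : ∀ s ∈ S \ S₀, G (f s) s := fun s hs => hf s (mem_sdiff.1 hs).2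
  have key : ∀ Q, QK G univ Q → ((S \ S₀).filter fun s => f s ∈ cl G Q).card ≤ g := by
    intro Q hQ
    obtain ⟨Q', h1, h2⟩ := shrink hS'.ind sdiff_subset hf' hQ
    have := hmin Q' (mem_filter.2 ⟨mem_univ _, h1⟩)
    omega
  have count : ∀ t, Cov G univ univ t → Fintype.card V - S₀.card ≤ (t + 1) * g := by
    rintro t ⟨F, h1, h2, h3⟩
    have h4 : S \ S₀ ⊆ F.biUnion fun Q => (S \ S₀).filter fun s => f s ∈ cl G Q := by
      intro s hs
      obtain ⟨Q, hQ, hv⟩ := h3 (f s) (mem_univ _)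
      exact mem_biUnion.2 ⟨Q, hQ, mem_filter.2 ⟨hs, hv⟩⟩
    have h5 := (card_le_card h4).trans (card_biUnion_le_card_mul _ _ g fun Q hQ => key Q (h2 Q hQ))
    have h6 := Nat.mul_le_mul_right g h1
    have h7 := le_card_sdiff S₀ S
    rw [add_mul]
    omega
  have s0 := step_pick hS' (Subset.refl _) hS'.sub
  have hY : (univ \ cl G S).card ≤ g := by
    have h1 := card_le_card (sdiff_subset_sdiff (Subset.refl univ) (subset_cl (G := G) S))
    have h4 := card_sdiff_add_card_eq_card (subset_univ S)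
    rw [card_univ] at h4
    omega
  have hcov : ∀ t, Cov G (univ \ cl G S) (univ \ cl G S) t → Cov G univ univ (1 + t) :=
    fun t ht => (s0.2.union (ht.lift s0.1)).mono (fun v hv => by
      by_cases hv' : v ∈ univ \ cl G S
      · exact mem_union_right _ hv'
      · exact mem_union_left _ (mem_sdiff.2 ⟨hv, hv'⟩)) le_rfl
  rw [← hg]
  obtain ⟨L, hL⟩ : ∃ L, L = Nat.log 2 (Fintype.card V) + 1 := ⟨_, rfl⟩
  rw [← hL]
  have hL1 : 1 ≤ L ^ 2 := Nat.pow_pos (by omega)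
  rcases Nat.eq_zero_or_pos (univ \ cl G S).card with h0 | h0
  · have h1 := count _ (hcov 0 (by rw [card_eq_zero.1 h0]; exact cov_empty _))
    refine (Nat.pow_le_pow_left h1 3).trans ?_
    rcases Nat.eq_zero_or_pos g with rfl | hg0
    · simp
    · have h2 : g ^ 3 ≤ g ^ 4 := Nat.pow_le_pow_right hg0 (by norm_num)
      have h3 := Nat.mul_le_mul h2 hL1
      rw [mul_pow, mul_assoc]
      omega
  · obtain ⟨u, hu1, hu2, hu3⟩ := cover hG _ h0
    have h1 := count _ (hcov _ hu3)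
    have h2 : Nat.log 2 (univ \ cl G S).card + 1 ≤ L := by
      have := Nat.log_mono_right (b := 2) (card_le_univ (univ \ cl G S))
      omega
    have h3 : u ^ 3 ≤ 8 * g * L ^ 2 :=
      hu2.trans (Nat.mul_le_mul (Nat.mul_le_mul_left _ hY) (Nat.pow_le_pow_left h2 2))
    have h4 : Fintype.card V - S₀.card ≤ 19 * u * g :=
      h1.trans (Nat.mul_le_mul_right _ (by omega))
    calc (Fintype.card V - S₀.card) ^ 3 ≤ (19 * u * g) ^ 3 := Nat.pow_le_pow_left h4 3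
      _ = 19 ^ 3 * g ^ 3 * u ^ 3 := by ring
      _ ≤ 19 ^ 3 * g ^ 3 * (8 * g * L ^ 2) := Nat.mul_le_mul_left _ h3
      _ = 54872 * (g ^ 4 * L ^ 2) := by ring
      _ ≤ 55000 * g ^ 4 * L ^ 2 := by rw [mul_assoc]; omega

end Pool.Agent.Lib.MP_cbd9f1_co
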