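import Mathlib

/-! Mod 2 chains of point multisets, barycentric subdivision and Sperner counting
(copied from the library of MP_b07a76_an). -/

namespace Pool.Agent.Lib.MP_cbd9f1_co.Sp

noncomputable section
open Classical

abbrev Ch (V : Type*) := Multiset V →₀ ZMod 2

variable {V W : Type*}

def pt (s : Multiset V) : Ch V := Finsupp.single s 1

def bd : Ch V →ₗ[ZMod 2] Ch V :=
  Finsupp.linearCombination (ZMod 2) (fun s : Multiset V => (s.map fun a => pt (s.erase a)).sum)

def cone (b : V) : Ch V →ₗ[ZMod 2] Ch V := Finsupp.lmapDomain _ _ (fun s => b ::ₘ s)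

def cmap (f : V → W) : Ch V →ₗ[ZMod 2] Ch W := Finsupp.lmapDomain _ _ (Multiset.map f)

lemma ch_ext {M : Type*} [AddCommMonoid M] [Module (ZMod 2) M] {A B : Ch V →ₗ[ZMod 2] M}
    (h : ∀ s, A (pt s) = B (pt s)) : A = B := by
  apply Finsupp.lhom_ext'
  intro s
  apply LinearMap.ext_ring
  simpa [pt] using h s

lemma ch_congr {M : Type*} [AddCommMonoid M] [Module (ZMod 2) M] {A B : Ch V →ₗ[ZMod 2] M}
    {S : Set (Multiset V)} {c : Ch V} (hc : c ∈ Finsupp.supported (ZMod 2) (ZMod 2) S)
    (h : ∀ s ∈ S, A (pt s) = B (pt s)) : A c = B c := by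
  rw [Finsupp.supported_eq_span_single] at hc
  refine LinearMap.eqOn_span (s := (fun i => Finsupp.single i 1) '' S) ?_ hc
  rintro _ ⟨s, hs, rfl⟩
  exact h s hs

lemma ch_mem {S : Set (Multiset V)} {c : Ch V} (hc : c ∈ Finsupp.supported (ZMod 2) (ZMod 2) S)
    {M : Type*} [AddCommMonoid M] [Module (ZMod 2) M] (A : Ch V →ₗ[ZMod 2] M)
    (T : Submodule (ZMod 2) M) (h : ∀ s ∈ S, A (pt s) ∈ T) : A c ∈ T := by
  rw [Finsupp.supported_eq_span_single] at hc
  have : Submodule.span (ZMod 2) ((fun i => Finsupp.single i (1 : ZMod 2)) '' S) ≤ T.comap A := by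
    rw [Submodule.span_le]
    rintro _ ⟨s, hs, rfl⟩
    exact h s hs
  exact this hc

lemma pt_mem {S : Set (Multiset V)} {s : Multiset V} (h : s ∈ S) :
    pt s ∈ Finsupp.supported (ZMod 2) (ZMod 2) S :=
  Finsupp.single_mem_supported _ _ h

lemma bd_pt [inst : DecidableEq V] (s : Multiset V) :
    bd (pt s) = (s.map fun a => pt (s.erase a)).sum := by
  have : inst = fun a b => Classical.propDecidable (a = b) := Subsingleton.elim _ _
  subst this
  simp [bd, pt]

lemma pt_apply_ne {s u : Multiset V} (h : s ≠ u) : pt s u = 0 := Finsupp.single_eq_of_ne h.symm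

lemma pt_apply_eq {s u : Multiset V} (h : s = u) : pt s u = 1 := by
  subst h; exact Finsupp.single_eq_same

@[simp] lemma cone_pt (b : V) (s : Multiset V) : cone b (pt s) = pt (b ::ₘ s) := by
  simp [cone, pt, Finsupp.mapDomain_single]

@[simp] lemma cmap_pt (f : V → W) (s : Multiset V) : cmap f (pt s) = pt (s.map f) := by
  simp [cmap, pt, Finsupp.mapDomain_single]

lemma ch_add_self (c : Ch V) : c + c = 0 := by
  ext s
  simp [CharTwo.add_self_eq_zero]

lemma bd_cone (b : V) (c : Ch V) : bd (cone b c) = c + cone b (bd c) := by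
  have : (bd ∘ₗ cone b : Ch V →ₗ[ZMod 2] Ch V) = LinearMap.id + cone b ∘ₗ bd := by
    apply ch_ext
    intro s
    simp only [LinearMap.comp_apply, cone_pt, LinearMap.add_apply, LinearMap.id_apply, bd_pt,
      Multiset.map_cons, Multiset.sum_cons, Multiset.erase_cons_head, map_multiset_sum,
      Multiset.map_map]
    congr 2
    apply Multiset.map_congr rfl
    intro a ha
    simp only [Function.comp_apply, cone_pt]
    rw [Multiset.erase_cons_tail_of_mem ha]
  exact LinearMap.congr_fun this c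

lemma bd_bd (c : Ch V) : bd (bd c) = 0 := by
  have : (bd ∘ₗ bd : Ch V →ₗ[ZMod 2] Ch V) = 0 := by
    apply ch_ext
    intro s
    simp only [LinearMap.comp_apply, LinearMap.zero_apply]
    induction s using Multiset.induction_on with
    | empty => simp [bd_pt]
    | cons b s ih =>
      rw [← cone_pt, bd_cone, map_add, bd_cone, ih, map_zero, add_zero, ch_add_self]
  exact LinearMap.congr_fun this c

lemma cmap_cone (f : V → W) (b : V) (c : Ch V) : cmap f (cone b c) = cone (f b) (cmap f c) := by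
  have : cmap f ∘ₗ cone b = cone (f b) ∘ₗ cmap f := by
    apply ch_ext
    intro s
    simp
  exact LinearMap.congr_fun this c

lemma cmap_bd (f : V → W) (c : Ch V) : cmap f (bd c) = bd (cmap f c) := by
  have : cmap f ∘ₗ bd = bd ∘ₗ cmap f := by
    apply ch_ext
    intro s
    simp only [LinearMap.comp_apply]
    induction s using Multiset.induction_on with
    | empty => simp [bd_pt]
    | cons b s ih =>
      rw [← cone_pt, bd_cone, map_add, cmap_cone, cmap_cone, bd_cone, ih]
  exact LinearMap.congr_fun this c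

lemma cmap_cmap {X : Type*} (f : V → W) (g : W → X) (c : Ch V) :
    cmap g (cmap f c) = cmap (g ∘ f) c := by
  have : cmap g ∘ₗ cmap f = cmap (g ∘ f) := by
    apply ch_ext
    intro s
    simp
  exact LinearMap.congr_fun this c

section sub

variable [NormedAddCommGroup V] [NormedSpace ℝ V] [NormedAddCommGroup W] [NormedSpace ℝ W]

def bary (s : Multiset V) : V := ((Multiset.card s : ℝ)⁻¹) • s.sum

def sd : ℕ → Ch V →ₗ[ZMod 2] Ch V
  | 0 => LinearMap.id
  | n + 1 => Finsupp.linearCombination (ZMod 2)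
      (fun s : Multiset V => cone (bary s) (sd n (bd (pt s))))

lemma sd_succ_pt (n : ℕ) (s : Multiset V) :
    sd (n + 1) (pt s) = cone (bary s) (sd n (bd (pt s))) := by
  simp [sd, pt]

lemma bd_sd (n : ℕ) : (∀ c : Ch V, bd (sd n (bd c)) = 0) ∧
    ∀ c : Ch V, bd (sd (n + 1) c) = sd n (bd c) := by
  have key : ∀ n, (∀ c : Ch V, bd (sd n (bd c)) = 0) →
      ∀ c : Ch V, bd (sd (n + 1) c) = sd n (bd c) := by
    intro n h c
    have : (bd ∘ₗ sd (n + 1) : Ch V →ₗ[ZMod 2] Ch V) = sd n ∘ₗ bd := by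
      apply ch_ext
      intro s
      simp only [LinearMap.comp_apply]
      rw [sd_succ_pt, bd_cone, h, map_zero, add_zero]
    exact LinearMap.congr_fun this c
  induction n with
  | zero =>
    have h : ∀ c : Ch V, bd (sd 0 (bd c)) = 0 := fun c => by simp [sd, bd_bd]
    exact ⟨h, key 0 h⟩
  | succ n ih =>
    have h : ∀ c : Ch V, bd (sd (n + 1) (bd c)) = 0 := fun c => by
      rw [ih.2, bd_bd, map_zero]
    exact ⟨h, key _ h⟩

lemma bary_map (f : V →ₗ[ℝ] W) (s : Multiset V) : bary (s.map f) = f (bary s) := by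
  simp [bary, map_multiset_sum]

lemma cmap_sd (f : V →ₗ[ℝ] W) (n : ℕ) (c : Ch V) : cmap f (sd n c) = sd n (cmap f c) := by
  induction n generalizing c with
  | zero => simp [sd]
  | succ n ih =>
    have : cmap f ∘ₗ sd (n + 1) = sd (n + 1) ∘ₗ cmap f := by
      apply ch_ext
      intro s
      simp only [LinearMap.comp_apply, cmap_pt]
      rw [sd_succ_pt, sd_succ_pt, cmap_cone, ih, cmap_bd, cmap_pt, bary_map]
    exact LinearMap.congr_fun this c

/-- `n` points of `C` at mutual distance at most `δ`. -/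
def Good (C : Set V) (n : ℕ) (δ : ℝ) : Set (Multiset V) :=
  {s | Multiset.card s = n ∧ (∀ x ∈ s, x ∈ C) ∧ ∀ x ∈ s, ∀ y ∈ s, dist x y ≤ δ}

lemma sum_norm_le (s : Multiset V) (v : V) (δ : ℝ) (h : ∀ x ∈ s, dist x v ≤ δ) :
    ‖s.sum - (Multiset.card s : ℝ) • v‖ ≤ (Multiset.card s : ℝ) * δ := by
  induction s using Multiset.induction_on with
  | empty => simp
  | cons a s ih =>
    have h1 := h a (Multiset.mem_cons_self _ _)
    have h2 := ih (fun x hx => h x (Multiset.mem_cons_of_mem hx))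
    rw [dist_eq_norm] at h1
    have : (a ::ₘ s).sum - (Multiset.card (a ::ₘ s) : ℝ) • v
        = (a - v) + (s.sum - (Multiset.card s : ℝ) • v) := by
      simp [add_smul]; abel
    rw [this]
    refine (norm_add_le _ _).trans ?_
    simp only [Multiset.card_cons, Nat.cast_add, Nat.cast_one]
    linarith

lemma bary_dist {C : Set V} {n : ℕ} {δ : ℝ} {s : Multiset V} (hs : s ∈ Good C (n + 1) δ)
    {v : V} (hv : v ∈ s) : dist v (bary s) ≤ (n : ℝ) / (n + 1) * δ := by
  obtain ⟨t, rfl⟩ := Multiset.exists_cons_of_mem hv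
  obtain ⟨h1, -, h3⟩ := hs
  have ht : Multiset.card t = n := by simpa using h1
  have h4 := sum_norm_le t v δ (fun x hx => h3 x (Multiset.mem_cons_of_mem hx) v hv)
  rw [ht] at h4
  have hn : (0 : ℝ) < n + 1 := by positivity
  have : bary (v ::ₘ t) - v = ((n : ℝ) + 1)⁻¹ • (t.sum - (n : ℝ) • v) := by
    simp only [bary, Multiset.card_cons, ht, Nat.cast_add, Nat.cast_one, Multiset.sum_cons,
      smul_add, smul_sub, smul_smul]
    have e : ((n : ℝ) + 1)⁻¹ * n = 1 - ((n : ℝ) + 1)⁻¹ := by field_simp; ring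
    rw [e, sub_smul, one_smul]
    abel
  rw [dist_comm, dist_eq_norm, this, norm_smul, norm_inv, Real.norm_of_nonneg hn.le]
  calc ((n : ℝ) + 1)⁻¹ * ‖t.sum - (n : ℝ) • v‖ ≤ ((n : ℝ) + 1)⁻¹ * (n * δ) := by gcongr
    _ = _ := by field_simp

lemma bary_mem {C : Set V} (hC : Convex ℝ C) (s : Multiset V) (hs : s ≠ 0)
    (h : ∀ x ∈ s, x ∈ C) : bary s ∈ C := by
  induction s using Multiset.induction_on with
  | empty => exact absurd rfl hs
  | cons a s ih =>
    by_cases h0 : s = 0
    · subst h0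
      simpa [bary] using h a (by simp)
    · have h1 := ih h0 (fun x hx => h x (Multiset.mem_cons_of_mem hx))
      have h2 := h a (Multiset.mem_cons_self _ _)
      have hc : (0 : ℝ) < Multiset.card s := by
        exact_mod_cast Multiset.card_pos.2 h0
      have h3 := hC h2 h1 (a := ((Multiset.card s : ℝ) + 1)⁻¹)
        (b := (Multiset.card s : ℝ) / (Multiset.card s + 1)) (by positivity) (by positivity)
        (by field_simp; ring)
      have e : bary (a ::ₘ s) = ((Multiset.card s : ℝ) + 1)⁻¹ • a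
          + ((Multiset.card s : ℝ) / (Multiset.card s + 1)) • bary s := by
        simp only [bary, Multiset.card_cons, Nat.cast_add, Nat.cast_one, Multiset.sum_cons,
          smul_add, smul_smul]
        congr 2
        field_simp
      rwa [e]

omit [NormedSpace ℝ V] in
lemma good_mono {C C' : Set V} {n : ℕ} {δ δ' : ℝ} (hC : C ⊆ C') (hδ : δ ≤ δ') :
    Good C n δ ⊆ Good C' n δ' := fun _ hs =>
  ⟨hs.1, fun x hx => hC (hs.2.1 x hx), fun x hx y hy => (hs.2.2 x hx y hy).trans hδ⟩

lemma sd_good (n : ℕ) : ∀ (C : Set V) (_ : Convex ℝ C) (δ : ℝ) (_ : 0 ≤ δ) (c : Ch V),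
    c ∈ Finsupp.supported (ZMod 2) (ZMod 2) (Good C n δ) →
    sd n c ∈ Finsupp.supported (ZMod 2) (ZMod 2) (Good C n ((n : ℝ) / (n + 1) * δ)) := by
  induction n with
  | zero =>
    intro C _ δ _ c hc
    refine Finsupp.supported_mono ?_ hc
    intro s hs
    have : s = 0 := Multiset.card_eq_zero.1 hs.1
    subst this
    exact ⟨rfl, by simp, by simp⟩
  | succ n ih =>
    intro C hC δ hδ c hc
    refine ch_mem hc _ _ ?_
    intro s hs
    have hρ : (n : ℝ) / (n + 1) * δ ≤ ((n + 1 : ℕ) : ℝ) / ((n + 1 : ℕ) + 1) * δ := by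
      apply mul_le_mul_of_nonneg_right _ hδ
      push_cast
      rw [div_le_div_iff₀ (by positivity) (by positivity)]
      nlinarith
    set ρ := (n : ℝ) / (n + 1) * δ with hρdef
    have hρ0 : 0 ≤ ρ := by positivity
    let C' := C ∩ Metric.closedBall (bary s) ρ
    have hC' : Convex ℝ C' := hC.inter (convex_closedBall _ _)
    have hb : bd (pt s) ∈ Finsupp.supported (ZMod 2) (ZMod 2) (Good C' n δ) := by
      rw [bd_pt]
      apply multiset_sum_mem
      intro x hx
      obtain ⟨a, ha, rfl⟩ := Multiset.mem_map.1 hx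
      apply pt_mem
      refine ⟨by rw [Multiset.card_erase_of_mem ha, hs.1]; rfl, ?_, ?_⟩
      · intro x hx
        have hx' := Multiset.mem_of_mem_erase hx
        exact ⟨hs.2.1 x hx', bary_dist hs hx'⟩
      · intro x hx y hy
        exact hs.2.2 x (Multiset.mem_of_mem_erase hx) y (Multiset.mem_of_mem_erase hy)
    have h1 := ih C' hC' δ hδ _ hb
    rw [sd_succ_pt]
    refine ch_mem h1 _ _ ?_
    intro t ht
    rw [cone_pt]
    apply pt_mem
    have hs0 : s ≠ 0 := by
      intro h
      have := hs.1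
      simp [h] at this
    refine ⟨by simp [ht.1], ?_, ?_⟩
    · intro x hx
      rcases Multiset.mem_cons.1 hx with rfl | hx
      · exact bary_mem hC s hs0 hs.2.1
      · exact (ht.2.1 x hx).1
    · intro x hx y hy
      refine le_trans ?_ hρ
      rcases Multiset.mem_cons.1 hx with rfl | hx <;> rcases Multiset.mem_cons.1 hy with rfl | hy
      · simpa using hρ0
      · rw [dist_comm]; exact (ht.2.1 y hy).2
      · exact (ht.2.1 x hx).2
      · exact ht.2.2 x hx y hy

lemma sd_pow_good (n N : ℕ) (C : Set V) (hC : Convex ℝ C) (δ : ℝ) (hδ : 0 ≤ δ) (c : Ch V)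
    (hc : c ∈ Finsupp.supported (ZMod 2) (ZMod 2) (Good C n δ)) :
    (sd n ^ N) c ∈ Finsupp.supported (ZMod 2) (ZMod 2)
      (Good C n (((n : ℝ) / (n + 1)) ^ N * δ)) := by
  induction N with
  | zero => simpa using hc
  | succ N ih =>
    rw [pow_succ' (sd n), Module.End.mul_apply, pow_succ', mul_assoc]
    exact sd_good n C hC _ (by positivity) _ ih

lemma bd_sd_pow (n N : ℕ) (c : Ch V) : bd ((sd (n + 1) ^ N) c) = (sd n ^ N) (bd c) := by
  induction N with
  | zero => simp
  | succ N ih => rw [pow_succ', pow_succ', Module.End.mul_apply, Module.End.mul_apply,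
      (bd_sd n).2, ih]

lemma cmap_sd_pow (f : V →ₗ[ℝ] W) (n N : ℕ) (c : Ch V) :
    cmap f ((sd n ^ N) c) = (sd n ^ N) (cmap f c) := by
  induction N with
  | zero => simp
  | succ N ih => rw [pow_succ', pow_succ', Module.End.mul_apply, Module.End.mul_apply,
      cmap_sd, ih]

end sub

/-- The vertices of the standard `k`-simplex. -/
def std (k : ℕ) : Multiset (Fin (k + 1) → ℝ) := Finset.univ.val.map fun i => Pi.single i 1

/-- The `i`-th face map. -/
def face (k : ℕ) (i : Fin (k + 2)) : (Fin (k + 1) → ℝ) →ₗ[ℝ] (Fin (k + 2) → ℝ) :=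
  FunOnFinite.linearMap ℝ ℝ i.succAbove

/-- The `N`-fold subdivision of the standard `k`-simplex. -/
def TT (k N : ℕ) : Ch (Fin (k + 1) → ℝ) := (sd (k + 1) ^ N) (pt (std k))

lemma face_apply (k : ℕ) (i : Fin (k + 2)) (x : Fin (k + 1) → ℝ) (j : Fin (k + 1)) :
    face k i x (i.succAbove j) = x j := by
  simp only [face, FunOnFinite.linearMap_apply_apply]
  rw [Finset.sum_eq_single j] <;> simp +contextual

lemma face_self (k : ℕ) (i : Fin (k + 2)) (x : Fin (k + 1) → ℝ) : face k i x i = 0 := by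
  simp [face, FunOnFinite.linearMap_apply_apply, Fin.succAbove_ne]

lemma face_single (k : ℕ) (i : Fin (k + 2)) (j : Fin (k + 1)) :
    face k i (Pi.single j 1) = Pi.single (i.succAbove j) 1 := by
  ext l
  rcases Fin.eq_self_or_eq_succAbove i l with rfl | ⟨l', rfl⟩
  · rw [face_self, Pi.single_eq_of_ne (Fin.succAbove_ne _ _).symm]
  · rw [face_apply]
    simp [Pi.single_apply]

lemma bd_std (k : ℕ) : bd (pt (std (k + 1))) = ∑ i, cmap (face k i) (pt (std k)) := by
  rw [bd_pt, std, Multiset.map_map, Finset.sum_eq_multiset_sum]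
  congr 1
  apply Multiset.map_congr rfl
  intro i _
  simp only [Function.comp_apply, cmap_pt, std, Multiset.map_map]
  congr 1
  have h1 : (Finset.univ : Finset (Fin (k + 2))).val
      = i ::ₘ (Finset.univ : Finset (Fin (k + 1))).val.map i.succAbove := by
    have := congrArg Finset.val (Fin.univ_succAbove (k + 1) i)
    simpa using this
  rw [h1, Multiset.map_cons, Multiset.erase_cons_head, Multiset.map_map]
  apply Multiset.map_congr rfl
  intro j _
  simp [face_single]

lemma bd_TT (k N : ℕ) : bd (TT (k + 1) N) = ∑ i, cmap (face k i) (TT k N) := by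
  simp only [TT]
  rw [bd_sd_pow, bd_std, map_sum]
  simp only [cmap_sd_pow]

lemma TT_good (k N : ℕ) : TT k N ∈ Finsupp.supported (ZMod 2) (ZMod 2)
    (Good (stdSimplex ℝ (Fin (k + 1))) (k + 1)
      ((((k + 1 : ℕ) : ℝ) / ((k + 1 : ℕ) + 1)) ^ N * 1)) := by
  apply sd_pow_good _ _ _ (convex_stdSimplex _ _) _ zero_le_one
  apply pt_mem
  have hm : ∀ x ∈ std k, x ∈ stdSimplex ℝ (Fin (k + 1)) := by
    intro x hx
    obtain ⟨i, -, rfl⟩ := Multiset.mem_map.1 hx
    exact single_mem_stdSimplex ℝ i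
  refine ⟨by simp [std], hm, fun x hx y hy => ?_⟩
  rw [dist_pi_le_iff zero_le_one]
  intro j
  have h1 := mem_Icc_of_mem_stdSimplex (hm x hx) j
  have h2 := mem_Icc_of_mem_stdSimplex (hm y hy) j
  rw [Real.dist_eq, abs_le]
  constructor <;> linarith [h1.1, h1.2, h2.1, h2.2]

lemma TT_zero (N : ℕ) : TT 0 N = pt (std 0) := by
  have h : sd 1 (pt (std 0)) = pt (std 0) := by
    have e : std 0 = {(Pi.single 0 1 : Fin 1 → ℝ)} := by
      simp [std]
    rw [sd_succ_pt, e]
    simp [sd, bd_pt, bary]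
  induction N with
  | zero => simp [TT]
  | succ N ih =>
    rw [TT, pow_succ', Module.End.mul_apply, ← TT, ih, h]

lemma bd_eval (k : ℕ) (w : Multiset ℕ) (hw : ∀ a ∈ w, a < k + 1) :
    bd (pt w) (Multiset.range k) = pt w (Multiset.range (k + 1)) := by
  have hsum : ∀ (t : Multiset ℕ) (F : ℕ → Ch ℕ) (u : Multiset ℕ),
      (t.map F).sum u = (t.map fun a => F a u).sum := by
    intro t F u
    induction t using Multiset.induction_on with
    | empty => simp
    | cons a t ih => simp [ih]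
  rw [bd_pt, hsum]
  by_cases h : ∃ j, w = j ::ₘ Multiset.range k
  · obtain ⟨j, rfl⟩ := h
    have h1 : ((j ::ₘ Multiset.range k).map fun a =>
        pt ((j ::ₘ Multiset.range k).erase a) (Multiset.range k))
        = (j ::ₘ Multiset.range k).map fun a => if j = a then (1 : ZMod 2) else 0 := by
      apply Multiset.map_congr rfl
      intro a ha
      by_cases hja : j = a
      · subst hja
        rw [if_pos rfl, pt_apply_eq (Multiset.erase_cons_head _ _)]
      · rw [if_neg hja, pt_apply_ne]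
        intro h
        have h2 := Multiset.cons_erase ha
        rw [h] at h2
        exact hja ((Multiset.cons_inj_left _).1 h2).symm
    rw [h1, Multiset.map_cons, Multiset.sum_cons, if_pos rfl]
    have h3 : ((Multiset.range k).map fun a => if j = a then (1 : ZMod 2) else 0).sum
        = if j < k then 1 else 0 := by
      have := Finset.sum_ite_eq (Finset.range k) j (fun _ => (1 : ZMod 2))
      simpa [Finset.sum_eq_multiset_sum, Finset.range_val] using this
    rw [h3]
    have hj := hw j (Multiset.mem_cons_self _ _)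
    rw [Multiset.range_succ]
    by_cases hjk : j < k
    · rw [if_pos hjk, pt_apply_ne (by rw [Ne, Multiset.cons_inj_left]; omega)]
      decide
    · rw [if_neg hjk, pt_apply_eq (by rw [Multiset.cons_inj_left]; omega)]
      simp
  · push Not at h
    have h1 : (w.map fun a => pt (w.erase a) (Multiset.range k)) = w.map fun _ => 0 := by
      apply Multiset.map_congr rfl
      intro a ha
      rw [pt_apply_ne]
      intro h2
      exact h a (by rw [← h2, Multiset.cons_erase ha])
    rw [h1, Multiset.range_succ, pt_apply_ne (h k)]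
    simp

/-- Count of subdivision simplices carrying the labels `0, …, k` (mod 2). -/
def cnt (k N : ℕ) (L : (Fin (k + 1) → ℝ) → ℕ) : ZMod 2 :=
  cmap L (TT k N) (Multiset.range (k + 1))

lemma cnt_congr (k N : ℕ) {L L' : (Fin (k + 1) → ℝ) → ℕ}
    (h : ∀ x ∈ stdSimplex ℝ (Fin (k + 1)), L x = L' x) : cnt k N L = cnt k N L' := by
  unfold cnt
  congr 1
  refine ch_congr (TT_good k N) ?_
  intro s hs
  rw [cmap_pt, cmap_pt, Multiset.map_congr rfl (fun x hx => h x (hs.2.1 x hx))]

lemma cnt_eq_zero (k N : ℕ) {L : (Fin (k + 1) → ℝ) → ℕ}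
    (h : ∀ s ∈ Good (stdSimplex ℝ (Fin (k + 1))) (k + 1)
      ((((k + 1 : ℕ) : ℝ) / ((k + 1 : ℕ) + 1)) ^ N * 1), ∃ j < k + 1, ∀ x ∈ s, L x ≠ j) :
    cnt k N L = 0 := by
  have := ch_congr (A := Finsupp.lapply (Multiset.range (k + 1)) ∘ₗ cmap L) (B := 0)
    (TT_good k N) (by
      intro s hs
      obtain ⟨j, hj, h2⟩ := h s hs
      simp only [LinearMap.comp_apply, cmap_pt, Finsupp.lapply_apply, LinearMap.zero_apply]
      rw [pt_apply_ne]
      intro h3
      have : j ∈ s.map L := by rw [h3]; exact Multiset.mem_range.2 hj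
      obtain ⟨x, hx, h4⟩ := Multiset.mem_map.1 this
      exact h2 x hx h4)
  simpa [cnt] using this

lemma cnt_succ (k N : ℕ) {L : (Fin (k + 2) → ℝ) → ℕ}
    (h : ∀ x ∈ stdSimplex ℝ (Fin (k + 2)), L x < k + 2) :
    cnt (k + 1) N L = ∑ i, cnt k N (L ∘ face k i) := by
  have h1 := ch_congr (A := Finsupp.lapply (Multiset.range (k + 2)) ∘ₗ cmap L)
    (B := Finsupp.lapply (Multiset.range (k + 1)) ∘ₗ bd ∘ₗ cmap L)
    (TT_good (k + 1) N) (by
      intro s hs
      simp only [LinearMap.comp_apply, cmap_pt, Finsupp.lapply_apply]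
      rw [bd_eval]
      intro a ha
      obtain ⟨x, hx, rfl⟩ := Multiset.mem_map.1 ha
      exact h x (hs.2.1 x hx))
  simp only [LinearMap.comp_apply, Finsupp.lapply_apply] at h1
  unfold cnt
  rw [h1, ← cmap_bd, bd_TT, map_sum, Finsupp.finsetSum_apply]
  simp only [cmap_cmap]

lemma face_mem (k : ℕ) (i : Fin (k + 2)) {x : Fin (k + 1) → ℝ}
    (hx : x ∈ stdSimplex ℝ (Fin (k + 1))) : face k i x ∈ stdSimplex ℝ (Fin (k + 2)) :=
  (stdSimplex.map i.succAbove ⟨x, hx⟩).2

lemma cnt_faces (k N : ℕ)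
    (ih : ∀ L : (Fin (k + 1) → ℝ) → ℕ,
      (∀ x ∈ stdSimplex ℝ (Fin (k + 1)), ∃ i : Fin (k + 1), L x = i ∧ x i ≠ 0) → cnt k N L = 1)
    (L : Fin (k + 2) → (Fin (k + 1) → ℝ) → ℕ)
    (h : ∀ i, ∀ x ∈ stdSimplex ℝ (Fin (k + 1)), ∃ j : Fin (k + 2), L i x = j ∧ face k i x j ≠ 0) :
    ∑ i, cnt k N (L i) = 1 := by
  rw [Fin.sum_univ_castSucc, Finset.sum_eq_zero, zero_add]
  · apply ih
    intro x hx
    obtain ⟨j, h1, h2⟩ := h (Fin.last _) x hx
    rcases Fin.eq_self_or_eq_succAbove (Fin.last (k + 1)) j with rfl | ⟨j', rfl⟩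
    · exact absurd (face_self _ _ _) h2
    · rw [face_apply] at h2
      exact ⟨j', by simpa using h1, h2⟩
  · intro i _
    apply cnt_eq_zero
    intro s hs
    refine ⟨i, i.2, fun x hx h3 => ?_⟩
    obtain ⟨j, h1, h2⟩ := h i.castSucc x (hs.2.1 x hx)
    have : j = i.castSucc := Fin.ext (by rw [← h1, h3]; rfl)
    rw [this] at h2
    exact h2 (face_self _ _ _)

/-- Sperner's lemma. -/
lemma sperner (k N : ℕ) : ∀ L : (Fin (k + 1) → ℝ) → ℕ,
    (∀ x ∈ stdSimplex ℝ (Fin (k + 1)), ∃ i : Fin (k + 1), L x = i ∧ x i ≠ 0) → cnt k N L = 1 := by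
  induction k with
  | zero =>
    intro L h
    obtain ⟨i, h1, -⟩ := h _ (single_mem_stdSimplex ℝ 0)
    have : L (Pi.single 0 1) = 0 := by rw [h1]; omega
    rw [cnt, TT_zero, cmap_pt, pt_apply_eq]
    simp [std, this]
  | succ k ih =>
    intro L h
    rw [cnt_succ]
    · exact cnt_faces k N ih _ (fun i x hx => h _ (face_mem k i hx))
    · intro x hx
      obtain ⟨i, h1, -⟩ := h x hx
      rw [h1]; exact i.2

end

end Pool.Agent.Lib.MP_cbd9f1_co.Sp
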